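import Mathlib

/-!
# Excited random walk on `ℤ` in an identically piled cookie environment: definitions
-/

open MeasureTheory ProbabilityTheory Filter Topology

namespace Pool.Agent.J6H44.ERW

/-- A cookie environment `p = (p_i)_{i ≥ 1} ∈ [0,1]^ℕ` (the value at `i = 0` is never used). -/
abbrev Cookies : Type := ℕ → unitInterval

/-- The law of independent Bernoulli trials `B_1, B_2, …` with `Pr[B_i = 1] = p_i`. The coordinate
`i` of the sequence is the trial `B_{i+1}`; `true` is a success, `false` is a failure. -/
noncomputable def trials (p : Cookies) : Measure (ℕ → Bool) :=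
  Measure.infinitePi fun i => bernoulliMeasure true false (p (i + 1))

/-- number of failures among the first `n` trials -/
def fails (b : ℕ → Bool) (n : ℕ) : ℕ := ((Finset.range n).filter fun i => b i = false).card

/-- number of successes among the first `n` trials -/
def succs (b : ℕ → Bool) (n : ℕ) : ℕ := ((Finset.range n).filter fun i => b i = true).card

/-- the number of trials performed until the `x`-th failure -/
noncomputable def T (b : ℕ → Bool) (x : ℕ) : ℕ := sInf {n | fails b n = x}

/-- `U(x)`: the number of successes in the trials performed until the `x`-th failure -/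
noncomputable def U (b : ℕ → Bool) (x : ℕ) : ℕ := succs b (T b x)

/-- `L_n(x_n)`: the number of times `k ≤ n` with `x_k = x_n`, for the path `x` -/
def visits (x : ℕ → ℤ) (n : ℕ) : ℕ := ((Finset.range (n + 1)).filter fun k => x k = x n).card

/-- Under the measure `P` the process `X` is the excited random walk, started at `0`, in the
environment where every site carries the cookies `p`: given the path `X_0 = x_0, …, X_n = x_n`,
if `L_n(x_n) = j` then `X_{n+1} = x_n + 1` with probability `p_j` and `X_{n+1} = x_n - 1` with
probability `1 - p_j`. -/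
structure IsERW {Ω : Type} [MeasurableSpace Ω] (p : Cookies) (P : Measure Ω) (X : ℕ → Ω → ℤ) :
    Prop where
  meas : ∀ n, Measurable (X n)
  start : ∀ᵐ ω ∂P, X 0 ω = 0
  right : ∀ (n : ℕ) (x : ℕ → ℤ), P.real {ω | (∀ k ≤ n, X k ω = x k) ∧ X (n + 1) ω = x n + 1} =
    p (visits x n) * P.real {ω | ∀ k ≤ n, X k ω = x k}
  left : ∀ (n : ℕ) (x : ℕ → ℤ), P.real {ω | (∀ k ≤ n, X k ω = x k) ∧ X (n + 1) ω = x n - 1} =
    (1 - p (visits x n)) * P.real {ω | ∀ k ≤ n, X k ω = x k}

end Pool.Agent.J6H44.ERW
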