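import Pool.Agent.J6H44.ERW.Lyap

open Filter Topology Finset

namespace Pool.Agent.J6H44.ERW

/-- `20/(20 + log n)` -/
noncomputable def aa (n : ℕ) : ℝ := 20 / (20 + Real.log n)

/-- the cookies: `2 p_k - 1 = (1 + a 4)/4` for `k ≤ 4` and `2 p_k - 1 = a k - a (k - 1)` for
`k ≥ 5`, where `a n = 20/(20 + log n)`. So the total drift of the first `n ≥ 4` cookies is
`1 + a n`. -/
noncomputable def cookie (k : ℕ) : ℝ :=
  if k ≤ 4 then (1 + (1 + aa 4) / 4) / 2 else (1 + (aa k - aa (k - 1))) / 2

lemma aa_pos (n : ℕ) : 0 < aa n := by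
  have : 0 ≤ Real.log n := Real.log_natCast_nonneg n
  unfold aa; positivity

lemma aa_le_one (n : ℕ) : aa n ≤ 1 := by
  have : 0 ≤ Real.log n := Real.log_natCast_nonneg n
  unfold aa; rw [div_le_one (by positivity)]; linarith

lemma aa_tendsto : Tendsto aa atTop (𝓝 0) := by
  have h2 : Tendsto (fun x : ℕ => Real.log x) atTop atTop :=
    Real.tendsto_log_atTop.comp tendsto_natCast_atTop_atTop
  have h3 : Tendsto (fun x : ℕ => 20 + Real.log x) atTop atTop := tendsto_atTop_add_const_left _ _ h2
  exact h3.const_div_atTop 20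

lemma aa_diff (k : ℕ) (hk : 1 ≤ k) : 0 ≤ aa k - aa (k + 1) ∧ aa k - aa (k + 1) ≤ 1 / 20 := by
  have hk0 : (0 : ℝ) < k := by exact_mod_cast hk
  have hk1 : (1 : ℝ) ≤ k := by exact_mod_cast hk
  have h1 : 0 ≤ Real.log (k : ℝ) := Real.log_natCast_nonneg k
  have h2 : 0 ≤ Real.log ((k + 1 : ℕ) : ℝ) := Real.log_natCast_nonneg _
  have h3 : Real.log (k : ℝ) ≤ Real.log ((k + 1 : ℕ) : ℝ) :=
    Real.log_le_log hk0 (by push_cast; linarith)
  have h4 : Real.log ((k + 1 : ℕ) : ℝ) - Real.log (k : ℝ) ≤ 1 := by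
    rw [← Real.log_div (by positivity) hk0.ne']
    have h5 := Real.log_le_sub_one_of_pos (x := ((k + 1 : ℕ) : ℝ) / k) (by positivity)
    refine h5.trans ?_
    have : ((k + 1 : ℕ) : ℝ) / k = 1 + 1 / k := by push_cast; field_simp
    rw [this]
    have : 1 / (k : ℝ) ≤ 1 := by rw [div_le_one hk0]; exact hk1
    linarith
  unfold aa
  set a := Real.log (k : ℝ)
  set b := Real.log ((k + 1 : ℕ) : ℝ)
  have e : 20 / (20 + a) - 20 / (20 + b) = 20 * (b - a) / ((20 + a) * (20 + b)) := by
    field_simp; ring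
  rw [e]
  constructor
  · apply div_nonneg
    · linarith
    · positivity
  · rw [div_le_div_iff₀ (by positivity) (by norm_num)]
    nlinarith [mul_nonneg h1 h2]

lemma cookie_tail (k : ℕ) (hk : 5 ≤ k) : 19 / 40 ≤ cookie k ∧ cookie k ≤ 1 / 2 := by
  have h := aa_diff (k - 1) (by omega)
  rw [show k - 1 + 1 = k by omega] at h
  unfold cookie
  rw [if_neg (by omega)]
  constructor <;> linarith [h.1, h.2]

lemma cookie_head (k : ℕ) (hk : k ≤ 4) : cookie k = (1 + (1 + aa 4) / 4) / 2 := by
  unfold cookie; rw [if_pos hk]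

lemma cookie_hp (k : ℕ) : 1 / 4 ≤ cookie k ∧ cookie k ≤ 3 / 4 := by
  rcases Nat.lt_or_ge 4 k with hk | hk
  · have := cookie_tail k (by omega)
    constructor <;> linarith [this.1, this.2]
  · rw [cookie_head k hk]
    have h1 := aa_pos 4
    have h2 := aa_le_one 4
    constructor <;> linarith

lemma SS_cookie (n : ℕ) (hn : 4 ≤ n) : SS cookie n = 1 + aa n := by
  induction n, hn using Nat.le_induction with
  | base =>
    unfold SS
    simp only [sum_range_succ, range_zero, sum_empty]
    rw [cookie_head (0 + 1) (by omega), cookie_head (1 + 1) (by omega),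
      cookie_head (2 + 1) (by omega), cookie_head (3 + 1) (by omega)]
    ring
  | succ n hn ih =>
    rw [SS_succ, ih]
    unfold cookie
    rw [if_neg (by omega), Nat.add_sub_cancel]
    ring

lemma env_cookie : Env cookie where
  hp := fun k _ => cookie_hp k
  head := fun k _ hk => by rw [cookie_head k hk, cookie_head 1 (by omega)]
  head' := by
    rw [cookie_head 1 (by omega)]
    have h1 := aa_pos 4
    linarith
  tail := fun k hk => (cookie_tail k hk).2
  lim := by
    have h := aa_tendsto.const_add 1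
    rw [add_zero] at h
    refine h.congr' ?_
    filter_upwards [eventually_ge_atTop 4] with n hn
    rw [SS_cookie n hn]

lemma cookie_lower (n : ℕ) (hn : 4 ≤ n) : 1 + 20 / (20 + Real.log n) ≤ SS cookie n := by
  rw [SS_cookie n hn, aa]

variable {p : ℕ → ℝ}

lemma SS_nonneg (he : Env p) (n : ℕ) : 0 ≤ SS p n := by
  rcases Nat.lt_or_ge n 4 with hn | hn
  · unfold SS
    refine sum_nonneg fun k hk => ?_
    have hk' : k < n := by simpa using hk
    rw [he.head (k + 1) (by omega) (by omega)]
    linarith [he.head']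
  · linarith [SS_ge he n hn]

lemma SS_le_two (he : Env p) (n : ℕ) : SS p n ≤ 2 := by
  have h4 : SS p 4 ≤ 2 := by
    have hc := (he.hp 1 le_rfl).2
    rw [SS_four he]; linarith
  rcases Nat.lt_or_ge n 4 with hn | hn
  · refine le_trans ?_ h4
    unfold SS
    refine sum_le_sum_of_subset_of_nonneg (range_subset_range.2 hn.le) fun k hk _ => ?_
    have hk' : k < 4 := by simpa using hk
    rw [he.head (k + 1) (by omega) (by omega)]
    linarith [he.head']
  · exact (SS_anti he 4 n le_rfl hn).trans h4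

lemma abs_SS_le_two (he : Env p) (n : ℕ) : |SS p n| ≤ 2 := by
  rw [abs_of_nonneg (SS_nonneg he n)]; exact SS_le_two he n

lemma QQ_lower (he : Env p) (n : ℕ) : (n : ℝ) - 6 ≤ QQ p n := by
  rcases Nat.lt_or_ge n 4 with hn | hn
  · have h1 := (QQ_bd he.hp n).1
    have : (n : ℝ) ≤ 4 := by exact_mod_cast hn.le
    linarith
  · have h : (n : ℝ) - 4 - (SS p 4 - SS p n) ≤ QQ p n := by
      induction n, hn using Nat.le_induction with
      | base =>
        have h1 := (QQ_bd he.hp 4).1
        push_cast; linarith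
      | succ n hn ih =>
        rw [QQ_succ, SS_succ n]
        have h1 := he.tail (n + 1) (by omega)
        have h2 := (he.hp (n + 1) (by omega)).1
        push_cast
        nlinarith
    have h1 := SS_le_two he 4
    have h2 := SS_ge he n hn
    linarith

theorem rho_lim (he : Env p) : Tendsto (rho p) atTop (𝓝 1) :=
  rho_tendsto he.hp 2 (abs_SS_le_two he) he.lim

theorem nu_lim (he : Env p) : Tendsto (nu p) atTop (𝓝 2) :=
  nu_tendsto he.hp 2 (abs_SS_le_two he) 6 (QQ_lower he)

end Pool.Agent.J6H44.ERW
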