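import Mathlib

open Filter Topology Finset

namespace Pool.Agent.J6H44.ERW

/-- `fl p n j` is the probability of exactly `j` failures in the first `n` of independent trials
with success probabilities `p 1, p 2, …`. -/
noncomputable def fl (p : ℕ → ℝ) : ℕ → ℕ → ℝ
  | 0, 0 => 1
  | 0, _ + 1 => 0
  | n + 1, 0 => p (n + 1) * fl p n 0
  | n + 1, j + 1 => p (n + 1) * fl p n (j + 1) + (1 - p (n + 1)) * fl p n j

variable {p : ℕ → ℝ}

lemma fl_nonneg (hp : ∀ k, 1 ≤ k → 0 ≤ p k ∧ p k ≤ 1) : ∀ n j, 0 ≤ fl p n j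
  | 0, 0 => by simp [fl]
  | 0, _ + 1 => by simp [fl]
  | n + 1, 0 => by
      simp only [fl]
      exact mul_nonneg (hp _ (by omega)).1 (fl_nonneg hp n 0)
  | n + 1, j + 1 => by
      simp only [fl]
      have h1 := hp (n + 1) (by omega)
      exact add_nonneg (mul_nonneg h1.1 (fl_nonneg hp n _))
        (mul_nonneg (by linarith [h1.2]) (fl_nonneg hp n _))

lemma fl_eq_zero : ∀ n j, n < j → fl p n j = 0
  | 0, 0, h => by omega
  | 0, _ + 1, _ => by simp [fl]
  | n + 1, 0, h => by omega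
  | n + 1, j + 1, h => by
      simp only [fl]
      rw [fl_eq_zero n (j + 1) (by omega), fl_eq_zero n j (by omega)]
      ring

lemma fl_gen (z : ℝ) (n : ℕ) :
    ∑ j ∈ range (n + 1), fl p n j * z ^ j = ∏ k ∈ range n, (p (k + 1) + (1 - p (k + 1)) * z) := by
  induction n with
  | zero => simp [fl]
  | succ n ih =>
    rw [prod_range_succ, ← ih, sum_range_succ']
    simp only [fl, pow_zero, mul_one]
    have h1 : ∑ j ∈ range (n + 1), (p (n + 1) * fl p n (j + 1) + (1 - p (n + 1)) * fl p n j) *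
        z ^ (j + 1) = p (n + 1) * ∑ j ∈ range (n + 1), fl p n (j + 1) * z ^ (j + 1) +
        (1 - p (n + 1)) * z * ∑ j ∈ range (n + 1), fl p n j * z ^ j := by
      rw [mul_sum, mul_sum, ← sum_add_distrib]
      refine sum_congr rfl fun j _ => ?_
      ring
    rw [h1]
    have h2 : ∑ j ∈ range (n + 1), fl p n (j + 1) * z ^ (j + 1) + fl p n 0 =
        ∑ j ∈ range (n + 1), fl p n j * z ^ j := by
      have h3 := sum_range_succ' (fun j => fl p n j * z ^ j) (n + 1)
      rw [sum_range_succ, fl_eq_zero n (n + 1) (by omega)] at h3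
      simp only [zero_mul, add_zero, pow_zero, mul_one] at h3
      linarith
    linear_combination p (n + 1) * h2

/-- one step of the trials, with the failures stopped at `X + 1` -/
lemma fl_step (X n : ℕ) (g : ℕ → ℝ) :
    ∑ j ∈ range (X + 1), fl p (n + 1) j * g j + fl p n X * (1 - p (n + 1)) * g (X + 1) =
      ∑ j ∈ range (X + 1), fl p n j * (p (n + 1) * g j + (1 - p (n + 1)) * g (j + 1)) := by
  rw [sum_range_succ']
  simp only [fl]
  have h1 : ∑ j ∈ range X, (p (n + 1) * fl p n (j + 1) + (1 - p (n + 1)) * fl p n j) * g (j + 1) =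
      ∑ j ∈ range X, p (n + 1) * fl p n (j + 1) * g (j + 1) +
        ∑ j ∈ range X, (1 - p (n + 1)) * fl p n j * g (j + 1) := by
    rw [← sum_add_distrib]
    refine sum_congr rfl fun j _ => ?_
    ring
  have h2 : ∑ j ∈ range (X + 1), fl p n j * (p (n + 1) * g j + (1 - p (n + 1)) * g (j + 1)) =
      ∑ j ∈ range (X + 1), p (n + 1) * fl p n j * g j +
        ∑ j ∈ range (X + 1), (1 - p (n + 1)) * fl p n j * g (j + 1) := by
    rw [← sum_add_distrib]
    refine sum_congr rfl fun j _ => ?_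
    ring
  rw [h1, h2, sum_range_succ' (fun j => p (n + 1) * fl p n j * g j),
    sum_range_succ (fun j => (1 - p (n + 1)) * fl p n j * g (j + 1))]
  ring

/-- Dynkin's formula for the stopped trials -/
lemma dynkin (X : ℕ) (g : ℕ → ℕ → ℝ) (n : ℕ) :
    ∑ j ∈ range (X + 1), fl p n j * g n j +
      ∑ m ∈ range n, fl p m X * (1 - p (m + 1)) * g (m + 1) (X + 1) =
    g 0 0 + ∑ m ∈ range n, ∑ j ∈ range (X + 1), fl p m j *
      (p (m + 1) * g (m + 1) j + (1 - p (m + 1)) * g (m + 1) (j + 1) - g m j) := by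
  induction n with
  | zero =>
    simp only [range_zero, sum_empty, add_zero]
    rw [sum_range_succ']
    simp [fl]
  | succ n ih =>
    rw [sum_range_succ (fun m => fl p m X * (1 - p (m + 1)) * g (m + 1) (X + 1)),
      sum_range_succ (fun m => ∑ j ∈ range (X + 1), fl p m j *
      (p (m + 1) * g (m + 1) j + (1 - p (m + 1)) * g (m + 1) (j + 1) - g m j)),
      ← add_assoc (g 0 0), ← ih]
    have h := fl_step (p := p) X n (g (n + 1))
    have h2 : ∑ j ∈ range (X + 1), fl p n j *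
      (p (n + 1) * g (n + 1) j + (1 - p (n + 1)) * g (n + 1) (j + 1) - g n j) =
      ∑ j ∈ range (X + 1), fl p n j * (p (n + 1) * g (n + 1) j + (1 - p (n + 1)) * g (n + 1) (j + 1))
      - ∑ j ∈ range (X + 1), fl p n j * g n j := by
      rw [← sum_sub_distrib]
      refine sum_congr rfl fun j _ => ?_
      ring
    rw [h2, ← h]
    ring

/-- probability that fewer than `X + 1` failures occur in the first `n` trials -/
noncomputable def qq (p : ℕ → ℝ) (X n : ℕ) : ℝ := ∑ j ∈ range (X + 1), fl p n j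

lemma qq_nonneg (hp : ∀ k, 1 ≤ k → 0 ≤ p k ∧ p k ≤ 1) (X n : ℕ) : 0 ≤ qq p X n :=
  sum_nonneg fun j _ => fl_nonneg hp n j

lemma fl_le_qq (hp : ∀ k, 1 ≤ k → 0 ≤ p k ∧ p k ≤ 1) (X n : ℕ) : fl p n X ≤ qq p X n :=
  single_le_sum (f := fun j => fl p n j) (fun j _ => fl_nonneg hp n j) (by simp)

lemma fl_total (n : ℕ) : ∑ j ∈ range (n + 1), fl p n j = 1 := by
  have := fl_gen (p := p) 1 n
  simpa using this

/-- truncating at more than `n` failures changes nothing -/
lemma sum_fl_ge (X n : ℕ) (h : n ≤ X) (g : ℕ → ℝ) :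
    ∑ j ∈ range (X + 1), fl p n j * g j = ∑ j ∈ range (n + 1), fl p n j * g j := by
  symm
  refine sum_subset (range_subset_range.2 (by omega)) fun j _ hj => ?_
  rw [fl_eq_zero n j (by simpa using hj), zero_mul]

lemma qq_eq_one (X n : ℕ) (h : n ≤ X) : qq p X n = 1 := by
  have := sum_fl_ge (p := p) X n h (fun _ => 1)
  simp only [mul_one] at this
  rw [qq, this, fl_total]

lemma qq_le_one (hp : ∀ k, 1 ≤ k → 0 ≤ p k ∧ p k ≤ 1) (X n : ℕ) : qq p X n ≤ 1 := by
  rcases le_total n X with h | h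
  · rw [qq_eq_one X n h]
  · rw [← fl_total (p := p) n]
    exact sum_le_sum_of_subset_of_nonneg (range_subset_range.2 (by omega))
      fun j _ _ => fl_nonneg hp n j

lemma qq_anti (hp : ∀ k, 1 ≤ k → 0 ≤ p k ∧ p k ≤ 1) (X n : ℕ) : qq p X (n + 1) ≤ qq p X n := by
  have h := fl_step (p := p) X n (fun _ => 1)
  simp only [mul_one] at h
  have h1 : ∑ j ∈ range (X + 1), fl p n j * (p (n + 1) + (1 - p (n + 1))) = qq p X n := by
    rw [qq]; refine sum_congr rfl fun j _ => by ring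
  rw [h1] at h
  have h2 : 0 ≤ fl p n X * (1 - p (n + 1)) :=
    mul_nonneg (fl_nonneg hp n X) (by linarith [(hp (n + 1) (by omega)).2])
  have h3 : qq p X (n + 1) = ∑ j ∈ range (X + 1), fl p (n + 1) j := rfl
  linarith

lemma qq_anti' (hp : ∀ k, 1 ≤ k → 0 ≤ p k ∧ p k ≤ 1) (X : ℕ) : Antitone (qq p X) :=
  antitone_nat_of_succ_le (qq_anti hp X)

/-- Chernoff bound -/
lemma qq_le (hp : ∀ k, 1 ≤ k → 1 / 4 ≤ p k ∧ p k ≤ 3 / 4) (X n : ℕ) :
    qq p X n ≤ 2 ^ X * (7 / 8) ^ n := by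
  have hp' : ∀ k, 1 ≤ k → 0 ≤ p k ∧ p k ≤ 1 := fun k hk => by
    have := hp k hk; constructor <;> linarith [this.1, this.2]
  have key : ∑ j ∈ range (n + 1), fl p n j * (1 / 2 : ℝ) ^ j ≤ (7 / 8) ^ n := by
    rw [fl_gen]
    calc ∏ k ∈ range n, (p (k + 1) + (1 - p (k + 1)) * (1 / 2)) ≤ ∏ _k ∈ range n, (7 / 8 : ℝ) := by
          refine prod_le_prod (fun k _ => ?_) (fun k _ => ?_)
          · have := hp (k + 1) (by omega); linarith [this.1, this.2]
          · have := hp (k + 1) (by omega); linarith [this.1, this.2]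
      _ = (7 / 8) ^ n := by simp [div_pow]
  have h2 : ∑ j ∈ range (X + 1), fl p n j * (1 / 2 : ℝ) ^ j ≤
      ∑ j ∈ range (n + 1), fl p n j * (1 / 2 : ℝ) ^ j := by
    rcases le_total n X with h | h
    · rw [sum_fl_ge X n h]
    · exact sum_le_sum_of_subset_of_nonneg (range_subset_range.2 (by omega))
        fun j _ _ => mul_nonneg (fl_nonneg hp' n j) (by positivity)
  have h3 : (1 / 2 : ℝ) ^ X * qq p X n ≤ ∑ j ∈ range (X + 1), fl p n j * (1 / 2 : ℝ) ^ j := by
    rw [qq, mul_sum]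
    refine sum_le_sum fun j hj => ?_
    rw [mul_comm]
    refine mul_le_mul_of_nonneg_left ?_ (fl_nonneg hp' n j)
    exact pow_le_pow_of_le_one (by norm_num) (by norm_num) (by simpa [Nat.lt_succ_iff] using hj)
  have h4 : (1 / 2 : ℝ) ^ X * qq p X n ≤ (7 / 8) ^ n := h3.trans (h2.trans key)
  calc qq p X n = 2 ^ X * ((1 / 2 : ℝ) ^ X * qq p X n) := by
        rw [← mul_assoc, ← mul_pow]; norm_num
    _ ≤ 2 ^ X * (7 / 8) ^ n := mul_le_mul_of_nonneg_left h4 (by positivity)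

/-- the probability that the `(X+1)`-st failure is the trial `m + 1` -/
noncomputable def ww (p : ℕ → ℝ) (X m : ℕ) : ℝ := fl p m X * (1 - p (m + 1))

lemma ww_nonneg (hp : ∀ k, 1 ≤ k → 0 ≤ p k ∧ p k ≤ 1) (X m : ℕ) : 0 ≤ ww p X m :=
  mul_nonneg (fl_nonneg hp m X) (by linarith [(hp (m + 1) (by omega)).2])

lemma ww_le (hp : ∀ k, 1 ≤ k → 1 / 4 ≤ p k ∧ p k ≤ 3 / 4) (X m : ℕ) :
    ww p X m ≤ 2 ^ X * (7 / 8) ^ m := by
  have hp' : ∀ k, 1 ≤ k → 0 ≤ p k ∧ p k ≤ 1 := fun k hk => by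
    have := hp k hk; constructor <;> linarith [this.1, this.2]
  refine le_trans ?_ (qq_le hp X m)
  refine le_trans ?_ (fl_le_qq hp' X m)
  have h1 := (hp (m + 1) (by omega)).1
  have h0 := fl_nonneg hp' m X
  unfold ww
  nlinarith

lemma ww_eq_zero (X m : ℕ) (h : m < X) : ww p X m = 0 := by
  rw [ww, fl_eq_zero m X h, zero_mul]

end Pool.Agent.J6H44.ERW
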