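import Pool.Agent.J6H44.ERW.Mom

open Filter Topology Finset

namespace Pool.Agent.J6H44.ERW

variable {p : ℕ → ℝ}

/-- conditions on the cookies: four equal positive ones, then nonpositive drifts with total
drift decreasing to `1`. -/
structure Env (p : ℕ → ℝ) : Prop where
  hp : ∀ k, 1 ≤ k → 1 / 4 ≤ p k ∧ p k ≤ 3 / 4
  head : ∀ k, 1 ≤ k → k ≤ 4 → p k = p 1
  head' : 1 / 2 ≤ p 1
  tail : ∀ k, 5 ≤ k → p k ≤ 1 / 2
  lim : Tendsto (SS p) atTop (𝓝 1)

/-- Chebyshev's association inequality for the number of failures -/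
lemma assoc (hp : ∀ k, 1 ≤ k → 0 ≤ p k ∧ p k ≤ 1) (X m : ℕ) (h : ℕ → ℝ) (hm : Monotone h) :
    ∑ j ∈ range (X + 1), fl p m j * h j ≤ qq p X m * ∑ j ∈ range (m + 1), fl p m j * h j := by
  rcases le_total m X with hmX | hmX
  · rw [qq_eq_one X m hmX, one_mul, sum_fl_ge X m hmX]
  · obtain ⟨d, rfl⟩ := Nat.exists_eq_add_of_le hmX
    have e1 : ∑ j ∈ range (X + d + 1), fl p (X + d) j * h j =
        ∑ j ∈ range (X + 1), fl p (X + d) j * h j +
        ∑ j ∈ range d, fl p (X + d) (X + 1 + j) * h (X + 1 + j) := by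
      rw [show X + d + 1 = (X + 1) + d by ring, sum_range_add]
    have e2 : (1 : ℝ) = qq p X (X + d) + ∑ j ∈ range d, fl p (X + d) (X + 1 + j) := by
      rw [← fl_total (p := p) (X + d), show X + d + 1 = (X + 1) + d by ring, sum_range_add, qq]
    set a := ∑ j ∈ range (X + 1), fl p (X + d) j * h j with ha
    set b := ∑ j ∈ range d, fl p (X + d) (X + 1 + j) * h (X + 1 + j) with hb
    set q := qq p X (X + d) with hq
    set r := ∑ j ∈ range d, fl p (X + d) (X + 1 + j) with hr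
    have h1 : a ≤ q * h X := by
      rw [ha, hq, qq, sum_mul]
      refine sum_le_sum fun j hj => mul_le_mul_of_nonneg_left (hm ?_) (fl_nonneg hp _ j)
      simpa [Nat.lt_succ_iff] using hj
    have h2 : r * h X ≤ b := by
      rw [hb, hr, sum_mul]
      exact sum_le_sum fun j hj => mul_le_mul_of_nonneg_left (hm (by omega)) (fl_nonneg hp _ _)
    have hq0 : 0 ≤ q := qq_nonneg hp X _
    have hr0 : 0 ≤ r := sum_nonneg fun j _ => fl_nonneg hp _ _
    rw [e1]
    have h3 := mul_le_mul_of_nonneg_left h1 hr0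
    have h4 := mul_le_mul_of_nonneg_left h2 hq0
    have h5 : a = q * a + r * a := by rw [← add_mul, ← e2, one_mul]
    have h6 : r * (q * h X) = q * (r * h X) := by ring
    linarith

/-- the product of the factors `1 - ε/u` -/
noncomputable def PP (p : ℕ → ℝ) (u : ℝ) (m : ℕ) : ℝ := ∏ k ∈ range m, (1 - (2 * p (k + 1) - 1) / u)

lemma full_sum (u : ℝ) (hu : 1 < u) (X m : ℕ) :
    ∑ j ∈ range (m + 1), fl p m j * (((u - 1) / u) ^ m * (u / (u + 1)) ^ (X + 1) *
      ((u + 1) / (u - 1)) ^ j) = (u / (u + 1)) ^ (X + 1) * PP p u m := by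
  have h1 : ∑ j ∈ range (m + 1), fl p m j * (((u - 1) / u) ^ m * (u / (u + 1)) ^ (X + 1) *
      ((u + 1) / (u - 1)) ^ j) = (u / (u + 1)) ^ (X + 1) * (((u - 1) / u) ^ m *
      ∑ j ∈ range (m + 1), fl p m j * ((u + 1) / (u - 1)) ^ j) := by
    rw [mul_sum, mul_sum]
    refine sum_congr rfl fun j _ => by ring
  rw [h1, fl_gen]
  congr 1
  rw [PP]
  have h2 : ((u - 1) / u) ^ m = ∏ _k ∈ range m, ((u - 1) / u) := by simp [div_pow]
  rw [h2, ← prod_mul_distrib]
  refine prod_congr rfl fun k _ => ?_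
  have h3 : u - 1 ≠ 0 := by linarith
  have h4 : u ≠ 0 := by linarith
  field_simp
  ring

lemma PP_nonneg (hp : ∀ k, 1 ≤ k → 1 / 4 ≤ p k ∧ p k ≤ 3 / 4) (u : ℝ) (hu : 2 ≤ u) (m : ℕ) :
    0 ≤ PP p u m := by
  refine prod_nonneg fun k _ => ?_
  have := hp (k + 1) (by omega)
  have h2 : (2 * p (k + 1) - 1) / u ≤ 1 := by
    rw [div_le_one (by linarith)]; linarith [this.2]
  linarith

lemma PP_succ (u : ℝ) (m : ℕ) : PP p u (m + 1) = PP p u m * (1 - (2 * p (m + 1) - 1) / u) := by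
  unfold PP; rw [prod_range_succ]

lemma PP_le_four (he : Env p) (u : ℝ) (m : ℕ) (hm : m ≤ 4) :
    PP p u m = (1 - (2 * p 1 - 1) / u) ^ m := by
  unfold PP
  rw [prod_congr rfl (g := fun _ => 1 - (2 * p 1 - 1) / u), prod_const, card_range]
  intro k hk
  rw [he.head (k + 1) (by omega) (by have := mem_range.1 hk; omega)]

lemma SS_four (he : Env p) : SS p 4 = 4 * (2 * p 1 - 1) := by
  unfold SS
  simp only [sum_range_succ, range_zero, sum_empty]
  rw [he.head (0 + 1) (by omega) (by omega), he.head (1 + 1) (by omega) (by omega),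
    he.head (2 + 1) (by omega) (by omega), he.head (3 + 1) (by omega) (by omega)]
  ring

lemma SS_anti (he : Env p) (m n : ℕ) (hm : 4 ≤ m) (hmn : m ≤ n) : SS p n ≤ SS p m := by
  induction n, hmn using Nat.le_induction with
  | base => exact le_rfl
  | succ n hn ih =>
    rw [SS_succ]
    have := he.tail (n + 1) (by omega)
    linarith

lemma SS_ge (he : Env p) (m : ℕ) (hm : 4 ≤ m) : 1 ≤ SS p m :=
  le_of_tendsto he.lim (by
    filter_upwards [eventually_ge_atTop m] with n hn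
    exact SS_anti he m n hm hn)

lemma PP_le (he : Env p) (u : ℝ) (hu : 2 ≤ u) (m : ℕ) (hm : 4 ≤ m) :
    PP p u m ≤ Real.exp ((SS p 4 - SS p m) / u) := by
  induction m, hm using Nat.le_induction with
  | base =>
    rw [PP_le_four he u 4 le_rfl, sub_self, zero_div, Real.exp_zero]
    have h1 := he.head'
    have h2 := (he.hp 1 le_rfl).2
    have h3 : 0 ≤ (2 * p 1 - 1) / u := by apply div_nonneg <;> linarith
    have h4 : (2 * p 1 - 1) / u ≤ 1 := by rw [div_le_one (by linarith)]; linarith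
    exact pow_le_one₀ (by linarith) (by linarith)
  | succ n hn ih =>
    rw [PP_succ, SS_succ n]
    have h1 : (SS p 4 - (SS p n + (2 * p (n + 1) - 1))) / u = (SS p 4 - SS p n) / u +
      (-((2 * p (n + 1) - 1) / u)) := by ring
    rw [h1, Real.exp_add]
    have h2 : 1 - (2 * p (n + 1) - 1) / u ≤ Real.exp (-((2 * p (n + 1) - 1) / u)) := by
      have := Real.add_one_le_exp (-((2 * p (n + 1) - 1) / u)); linarith
    have h3 : 0 ≤ 1 - (2 * p (n + 1) - 1) / u := by
      have := he.tail (n + 1) (by omega)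
      have : (2 * p (n + 1) - 1) / u ≤ 0 := div_nonpos_of_nonpos_of_nonneg (by linarith) (by linarith)
      linarith
    exact mul_le_mul ih h2 h3 (Real.exp_nonneg _)

lemma PP_le' (he : Env p) (u : ℝ) (hu : 2 ≤ u) (m : ℕ) (hm : 4 ≤ m) :
    PP p u m ≤ 1 + 2 / u := by
  have h0 := PP_le he u hu m hm
  have h1 : SS p 4 - SS p m ≤ 1 := by
    have := SS_ge he m hm
    have h2 := (he.hp 1 le_rfl).2
    rw [SS_four he]; linarith
  have hu0 : 0 < u := by linarith
  have h2 : (SS p 4 - SS p m) / u ≤ 1 / u := div_le_div_of_nonneg_right h1 hu0.le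
  have h3 : (1 : ℝ) / u ≤ 1 / 2 := by
    rw [div_le_div_iff₀ hu0 (by norm_num)]; linarith
  have h4 : Real.exp (1 / u) ≤ 1 / (1 - 1 / u) :=
    Real.exp_bound_div_one_sub_of_interval (by positivity) (by linarith)
  have h5 : 1 / (1 - 1 / u) ≤ 1 + 2 / u := by
    rw [div_le_iff₀ (by linarith)]
    have : 0 ≤ 1 / u := by positivity
    have e : (1 + 2 / u) * (1 - 1 / u) = 1 + (1 / u) * (1 - 2 * (1 / u)) := by ring
    rw [e]
    nlinarith
  exact h0.trans ((Real.exp_le_exp.2 h2).trans (h4.trans h5))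

lemma qq_half (hp : ∀ k, 1 ≤ k → 1 / 4 ≤ p k ∧ p k ≤ 3 / 4) (X : ℕ) :
    qq p X (8 * (X + 1)) ≤ 1 / 2 := by
  refine (qq_le hp X _).trans ?_
  have e : (2 : ℝ) ^ X * (7 / 8) ^ (8 * (X + 1)) = (2 * (7 / 8) ^ 8) ^ X * (7 / 8) ^ 8 := by
    rw [mul_pow, ← pow_mul, show 8 * (X + 1) = 8 * X + 8 by ring, pow_add]; ring
  rw [e]
  have h1 : (2 * (7 / 8) ^ 8 : ℝ) ^ X ≤ 1 := pow_le_one₀ (by positivity) (by norm_num)
  have h2 : ((7 / 8) ^ 8 : ℝ) ≤ 1 / 2 := by norm_num
  calc (2 * (7 / 8) ^ 8 : ℝ) ^ X * (7 / 8) ^ 8 ≤ 1 * (1 / 2) := mul_le_mul h1 h2 (by positivity) (by norm_num)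
    _ = 1 / 2 := by norm_num

/-- upper bound for the generating function of the number of successes before the
`X + 1`-st failure -/
theorem gf_bound (he : Env p) (u : ℝ) (hu : 2 ≤ u) (X : ℕ) (hX : 3 ≤ X) :
    ∑' m, ww p X m * ((u - 1) / u) ^ (m - X) ≤ (u / (u + 1)) ^ (X + 1) *
      (1 - (1 + (SS p (8 * (X + 1)) - 1) / 2) / u + 4 / u ^ 2) := by
  have hp' := hp01 he.hp
  have hu0 : 0 < u := by linarith
  have hu1 : 0 < u - 1 := by linarith
  set s : ℝ := (u - 1) / u with hs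
  set G : ℝ := u / (u + 1) with hG
  set κ : ℝ := (u + 1) / (u - 1) with hκ
  have hs0 : 0 < s := by positivity
  have hs1 : s ≤ 1 := by rw [hs, div_le_one hu0]; linarith
  have hG0 : 0 < G := by positivity
  have hG1 : G ≤ 1 := by rw [hG, div_le_one (by linarith)]; linarith
  have hκ1 : 1 ≤ κ := by rw [hκ, le_div_iff₀ hu1]; linarith
  have hκ0 : 0 < κ := by linarith
  have hsG : G * κ * s = 1 := by rw [hs, hG, hκ]; field_simp
  set g : ℕ → ℕ → ℝ := fun n j => s ^ n * G ^ (X + 1) * κ ^ j with hg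
  have hg0 : ∀ n j, 0 ≤ g n j := fun n j => by rw [hg]; positivity
  obtain ⟨hLs, hLh⟩ := hasSum_dynkin he.hp X g (κ ^ (X + 1)) (by positivity) (fun n j hj => by
    rw [abs_of_nonneg (hg0 n j)]
    have h1 : g n j ≤ 1 * 1 * κ ^ (X + 1) := by
      refine mul_le_mul (mul_le_mul (pow_le_one₀ hs0.le hs1) (pow_le_one₀ hG0.le hG1)
        (by positivity) zero_le_one) (pow_le_pow_right₀ hκ1 hj) (by positivity) (by positivity)
    have hn : (0 : ℝ) ≤ n := Nat.cast_nonneg n
    have h2 : (0:ℝ) ≤ κ ^ (X + 1) := by positivity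
    nlinarith [mul_nonneg h2 hn, mul_nonneg h2 (mul_nonneg hn hn)])
  have e1 : (fun m => ww p X m * g (m + 1) (X + 1)) = fun m => ww p X m * s ^ (m - X) := by
    funext m
    rcases lt_or_ge m X with hm | hm
    · rw [ww_eq_zero X m hm]; simp
    · congr 1
      obtain ⟨d, rfl⟩ := Nat.exists_eq_add_of_le hm
      have e : g (X + d + 1) (X + 1) = (G * κ * s) ^ (X + 1) * s ^ d := by
        simp only [hg]; ring
      rw [e, hsG, one_pow, one_mul]; congr 1; omega
  rw [e1] at hLh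
  rw [hLh.tsum_eq]
  set A : ℕ → ℝ := fun m => ∑ j ∈ range (X + 1), fl p m j * g m j with hA
  have e2 : (fun m => ∑ j ∈ range (X + 1), fl p m j *
      (p (m + 1) * g (m + 1) j + (1 - p (m + 1)) * g (m + 1) (j + 1) - g m j)) =
      fun m => -((2 * p (m + 1) - 1) / u) * A m := by
    funext m
    rw [hA, mul_sum]
    refine sum_congr rfl fun j _ => ?_
    have e3 : p (m + 1) * s + (1 - p (m + 1)) * (s * κ) - 1 = -((2 * p (m + 1) - 1) / u) := by
      rw [hs, hκ]; field_simp; ring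
    rw [← e3]
    simp only [hg]
    ring
  rw [e2] at hLs ⊢
  have e00 : g 0 0 = G ^ (X + 1) := by simp [hg]
  rw [e00]
  have hA0 : ∀ m, 0 ≤ A m := fun m => sum_nonneg fun j _ => mul_nonneg (fl_nonneg hp' m j) (hg0 m j)
  have hfull : ∀ m, ∑ j ∈ range (m + 1), fl p m j * g m j = G ^ (X + 1) * PP p u m := fun m =>
    full_sum u (by linarith) X m
  have hA1 : ∀ m, A m ≤ qq p X m * (G ^ (X + 1) * PP p u m) := by
    intro m
    rw [← hfull m]
    exact assoc hp' X m (g m) fun a b hab => by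
      simp only [hg]
      exact mul_le_mul_of_nonneg_left (pow_le_pow_right₀ hκ1 hab) (by positivity)
  have hA4 : ∀ m, m < 4 → A m = G ^ (X + 1) * (1 - (2 * p 1 - 1) / u) ^ m := by
    intro m hm
    rw [← PP_le_four he u m hm.le, ← hfull m, hA]
    exact sum_fl_ge X m (by omega) (g m)
  set t : ℝ := (2 * p 1 - 1) / u with ht
  have ht0 : 0 ≤ t := by
    have := he.head'
    rw [ht]; apply div_nonneg <;> linarith
  have h4 : ∑ m ∈ range 4, -((2 * p (m + 1) - 1) / u) * A m = G ^ (X + 1) * ((1 - t) ^ 4 - 1) := by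
    simp only [sum_range_succ, range_zero, sum_empty]
    rw [hA4 0 (by omega), hA4 1 (by omega), hA4 2 (by omega), hA4 3 (by omega),
      he.head (0 + 1) (by omega) (by omega), he.head (1 + 1) (by omega) (by omega),
      he.head (2 + 1) (by omega) (by omega), he.head (3 + 1) (by omega) (by omega), ← ht]
    ring
  set K : ℝ := G ^ (X + 1) * ((1 + 2 / u) / u) with hK
  have hK0 : 0 ≤ K := by positivity
  have hterm : ∀ m, 4 ≤ m → ∀ q, qq p X m ≤ q →
      -((2 * p (m + 1) - 1) / u) * A m ≤ K * (q * (SS p m - SS p (m + 1))) := by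
    intro m hm q hq
    have hη : 0 ≤ -(2 * p (m + 1) - 1) := by have := he.tail (m + 1) (by omega); linarith
    have h5 : A m ≤ q * (G ^ (X + 1) * (1 + 2 / u)) := by
      refine (hA1 m).trans ?_
      refine mul_le_mul hq ?_ ?_ ?_
      · exact mul_le_mul_of_nonneg_left (PP_le' he u hu m hm) (by positivity)
      · exact mul_nonneg (by positivity) (PP_nonneg he.hp u hu m)
      · exact (qq_nonneg hp' X m).trans hq
    have h6 : -((2 * p (m + 1) - 1) / u) = (-(2 * p (m + 1) - 1)) / u := by ring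
    rw [h6]
    have h7 := mul_le_mul_of_nonneg_left h5 (div_nonneg hη hu0.le)
    refine h7.trans (le_of_eq ?_)
    rw [SS_succ, hK]; ring
  have hN1 : ∀ n, 4 ≤ n → ∑ m ∈ range n, -((2 * p (m + 1) - 1) / u) * A m ≤
      G ^ (X + 1) * ((1 - t) ^ 4 - 1) + K * (SS p 4 - SS p n) := by
    intro n hn
    induction n, hn using Nat.le_induction with
    | base => rw [h4, sub_self, mul_zero, add_zero]
    | succ n hn ih =>
      rw [sum_range_succ]
      have := hterm n hn 1 (qq_le_one hp' X n)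
      linarith
  set N := 8 * (X + 1) with hN
  have hN2 : ∀ n, N ≤ n → ∑ m ∈ range n, -((2 * p (m + 1) - 1) / u) * A m ≤
      G ^ (X + 1) * ((1 - t) ^ 4 - 1) + K * (SS p 4 - SS p N) + K * ((1 / 2) * (SS p N - SS p n)) := by
    intro n hn
    induction n, hn using Nat.le_induction with
    | base => rw [sub_self, mul_zero, mul_zero, add_zero]; exact hN1 N (by omega)
    | succ n hn ih =>
      rw [sum_range_succ]
      have := hterm n (by omega) (1 / 2) ((qq_anti' hp' X hn).trans (qq_half he.hp X))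
      linarith
  have hlim : ∑' m, -((2 * p (m + 1) - 1) / u) * A m ≤
      G ^ (X + 1) * ((1 - t) ^ 4 - 1) + K * (SS p 4 - SS p N) + K * ((1 / 2) * (SS p N - 1)) := by
    refine le_of_tendsto hLs.hasSum.tendsto_sum_nat ?_
    filter_upwards [eventually_ge_atTop N] with n hn
    refine (hN2 n hn).trans ?_
    have := SS_ge he n (by omega)
    gcongr
  have hpoly : (1 - t) ^ 4 ≤ 1 - SS p 4 / u + 2 / u ^ 2 := by
    have hc := (he.hp 1 le_rfl).2
    have hc' := he.head'
    have h8 : (1 - t) ^ 4 ≤ 1 - 4 * t + 6 * t ^ 2 := by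
      have ht1 : t ≤ 1 := by rw [ht, div_le_one hu0]; linarith
      have : (1 - t) ^ 4 = 1 - 4 * t + 6 * t ^ 2 - t ^ 3 * (4 - t) := by ring
      rw [this]
      have : 0 ≤ t ^ 3 * (4 - t) := mul_nonneg (by positivity) (by linarith)
      linarith
    have h9 : 4 * t = SS p 4 / u := by rw [SS_four he, ht]; ring
    have h10 : 6 * t ^ 2 ≤ 2 / u ^ 2 := by
      rw [ht, div_pow, ← mul_div_assoc]
      apply div_le_div_of_nonneg_right _ (by positivity)
      nlinarith
    linarith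
  have hS4 : SS p 4 ≤ 2 := by
    have hc := (he.hp 1 le_rfl).2
    rw [SS_four he]; linarith
  have hSN : 1 ≤ SS p N := SS_ge he N (by omega)
  have hGx : 0 ≤ G ^ (X + 1) := by positivity
  have hfin : 1 + ((1 - t) ^ 4 - 1) + ((1 + 2 / u) / u) * (SS p 4 - SS p N) +
      ((1 + 2 / u) / u) * ((1 / 2) * (SS p N - 1)) ≤
      (1 - (1 + (SS p N - 1) / 2) / u + 4 / u ^ 2) := by
    have h11 : ((1 + 2 / u) / u) * (SS p 4 - SS p N) +
      ((1 + 2 / u) / u) * ((1 / 2) * (SS p N - 1)) = (SS p 4 - 1 - (SS p N - 1) / 2) / u +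
      2 * (SS p 4 - 1 - (SS p N - 1) / 2) / u ^ 2 := by
      field_simp
      ring
    have h12 : 2 * (SS p 4 - 1 - (SS p N - 1) / 2) / u ^ 2 ≤ 2 / u ^ 2 := by
      apply div_le_div_of_nonneg_right _ (by positivity)
      linarith
    have h13 : (1 - (1 + (SS p N - 1) / 2) / u + 4 / u ^ 2) = 1 - SS p 4 / u + 2 / u ^ 2 +
      (SS p 4 - 1 - (SS p N - 1) / 2) / u + 2 / u ^ 2 := by ring
    rw [h13]
    linarith
  have := mul_le_mul_of_nonneg_left hfin hGx
  refine le_trans ?_ this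
  rw [hK] at hlim
  calc G ^ (X + 1) + ∑' m, -((2 * p (m + 1) - 1) / u) * A m ≤ G ^ (X + 1) +
      (G ^ (X + 1) * ((1 - t) ^ 4 - 1) + G ^ (X + 1) * ((1 + 2 / u) / u) * (SS p 4 - SS p N) +
        G ^ (X + 1) * ((1 + 2 / u) / u) * ((1 / 2) * (SS p N - 1))) := by linarith
    _ = _ := by ring

end Pool.Agent.J6H44.ERW
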