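import Pool.Agent.J6H44.ERW.Tail

open MeasureTheory ProbabilityTheory Filter Topology Finset

namespace Pool.Agent.J6H44.ERW

/-- number of `i < k` with `x i = y` -/
def cx (x : ℕ → ℤ) (k : ℕ) (y : ℤ) : ℕ := ((range k).filter fun i => x i = y).card

lemma cx_succ (x : ℕ → ℤ) (k : ℕ) (y : ℤ) :
    cx x (k + 1) y = cx x k y + if x k = y then 1 else 0 := by
  unfold cx
  rw [card_filter, card_filter, sum_range_succ]

lemma visits_eq (x : ℕ → ℤ) (n : ℕ) : visits x n = cx x n (x n) + 1 := by
  have := cx_succ x n (x n)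
  rw [if_pos rfl] at this
  exact this

lemma cx_mono (x : ℕ → ℤ) (y : ℤ) : Monotone fun k => cx x k y :=
  monotone_nat_of_le_succ fun k => by rw [cx_succ]; omega

lemma cnt_eq (ω : ℤ → ℕ → Bool) (x : ℕ → ℤ) (n : ℕ) (h : ∀ k < n, pos ω k = x k) (y : ℤ) :
    cnt ω n y = cx x n y := by
  induction n with
  | zero => simp [cx]
  | succ n ih =>
    have ih' := ih fun k hk => h k (by omega)
    rw [cnt_succ, cx_succ, h n (by omega)]
    split_ifs with h1 h2 h2
    · subst h1
      rw [← ih', add_left_inj]
    · exact absurd h1.symm h2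
    · exact absurd h2.symm h1
    · rw [ih', add_zero]

lemma path_congr (ω ω' : ℤ → ℕ → Bool) (x : ℕ → ℤ) (n : ℕ)
    (ha : ∀ k < n, ω (x k) (cx x k (x k)) = ω' (x k) (cx x k (x k)))
    (h : ∀ k ≤ n, pos ω k = x k) : ∀ k ≤ n, pos ω' k = x k := by
  induction n with
  | zero =>
    intro k hk
    have : k = 0 := by omega
    subst this
    have := h 0 le_rfl
    simpa using this
  | succ n ih =>
    have ih' := ih (fun k hk => ha k (by omega)) (fun k hk => h k (by omega))
    intro k hk
    rcases Nat.lt_or_ge k (n + 1) with hk' | hk'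
    · exact ih' k (by omega)
    · have hk2 : k = n + 1 := by omega
      subst hk2
      have h1 := h (n + 1) le_rfl
      have h2 := h n (by omega)
      have h3 := ih' n le_rfl
      have h4 := cnt_eq ω x n (fun k hk => h k (by omega)) (x n)
      have h5 := cnt_eq ω' x n (fun k hk => ih' k (by omega)) (x n)
      rw [pos_succ, h2, h4] at h1
      rw [pos_succ, h3, h5, ← ha n (by omega)]
      exact h1

lemma measurable_pos_cnt (n : ℕ) : Measurable (fun ω => pos ω n) ∧
    ∀ y, Measurable (fun ω => cnt ω n y) := by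
  induction n with
  | zero => exact ⟨measurable_const, fun y => measurable_const⟩
  | succ n ih =>
    obtain ⟨h1, h2⟩ := ih
    have hc : Measurable fun ω => cnt ω n (pos ω n) := by
      have : Measurable fun q : ℤ × (ℤ → ℕ → Bool) => cnt q.2 n q.1 :=
        measurable_from_prod_countable_right fun y => h2 y
      exact this.comp (h1.prodMk measurable_id)
    have ha : Measurable fun ω : ℤ → ℕ → Bool => ω (pos ω n) (cnt ω n (pos ω n)) := by
      have h3 : Measurable fun q : (ℤ × ℕ) × (ℤ → ℕ → Bool) => q.2 q.1.1 q.1.2 :=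
        measurable_from_prod_countable_right fun y =>
          (measurable_pi_apply y.2).comp (measurable_pi_apply y.1)
      exact h3.comp ((h1.prodMk hc).prodMk measurable_id)
    constructor
    · have h4 : Measurable fun q : Bool × ℤ => if q.1 = true then q.2 + 1 else q.2 - 1 :=
        Measurable.of_discrete
      have h5 := h4.comp (ha.prodMk h1)
      exact h5
    · intro y
      have h4 : Measurable fun q : ℤ × (ℕ × ℕ) => if y = q.1 then q.2.1 + 1 else q.2.2 :=
        Measurable.of_discrete
      have h5 := h4.comp (h1.prodMk (hc.prodMk (h2 y)))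
      have e : (fun ω => cnt ω (n + 1) y) = (fun q : ℤ × (ℕ × ℕ) =>
        if y = q.1 then q.2.1 + 1 else q.2.2) ∘ (fun ω => (pos ω n, cnt ω n (pos ω n), cnt ω n y)) := by
        funext ω
        rw [cnt_succ]; rfl
      rw [e]
      exact h5

lemma measurable_pos (n : ℕ) : Measurable (fun ω => pos ω n) := (measurable_pos_cnt n).1

variable (p : Cookies)

lemma indep_coord : iIndepFun (fun (q : ℤ × ℕ) (ω : ℤ → ℕ → Bool) => ω q.1 q.2) (stk p) := by
  have h := iIndepFun_uncurry_infinitePi' (ι := ℤ) (κ := ℕ) (Ω := fun _ _ => Bool)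
    (X := fun _ _ x => x) (fun _ j => bernoulliMeasure true false (p (j + 1)))
    (fun _ _ => measurable_id)
  exact h

/-- the path event -/
def Pa (x : ℕ → ℤ) (n : ℕ) : Set (ℤ → ℕ → Bool) := {ω | ∀ k ≤ n, pos ω k = x k}

lemma measurableSet_Pa (x : ℕ → ℤ) (n : ℕ) : MeasurableSet (Pa x n) := by
  have : Pa x n = ⋂ k, ⋂ (_ : k ≤ n), (fun ω => pos ω k) ⁻¹' {x k} := by
    ext ω; simp [Pa]
  rw [this]
  exact MeasurableSet.iInter fun k => MeasurableSet.iInter fun _ =>
    measurable_pos k (MeasurableSet.singleton _)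

lemma indep_Pa (x : ℕ → ℤ) (n : ℕ) (c : Bool) :
    (stk p).real (Pa x n ∩ {ω | ω (x n) (cx x n (x n)) = c}) =
      (stk p).real (Pa x n) * (stk p).real {ω | ω (x n) (cx x n (x n)) = c} := by
  classical
  set S : Finset (ℤ × ℕ) := (range n).image fun k => (x k, cx x k (x k)) with hS
  have hnot : (x n, cx x n (x n)) ∉ S := by
    intro hc
    rw [hS, mem_image] at hc
    obtain ⟨k, hk, h⟩ := hc
    rw [Prod.mk.injEq] at h
    have h1 : cx x (k + 1) (x n) ≤ cx x n (x n) := cx_mono x (x n) (by simpa using hk)
    rw [cx_succ, if_pos h.1] at h1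
    have h2 := h.2
    rw [h.1] at h2
    omega
  have h2 := (indep_coord p).indepFun_finset S {(x n, cx x n (x n))}
    (by rw [Finset.disjoint_singleton_right]; exact hnot)
    (fun q => (measurable_pi_apply q.2).comp (measurable_pi_apply q.1))
  let ext : (S → Bool) → (ℤ → ℕ → Bool) :=
    fun g y i => if h : (y, i) ∈ S then g ⟨(y, i), h⟩ else false
  have hext : Measurable ext := by
    rw [measurable_pi_iff]
    intro y
    rw [measurable_pi_iff]
    intro i
    by_cases h : (y, i) ∈ S
    · simp only [ext, h, dite_true]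
      exact measurable_pi_apply _
    · simp only [ext, h, dite_false]
      exact measurable_const
  have hms : MeasurableSet ((fun g : (({(x n, cx x n (x n))} : Finset (ℤ × ℕ)) → Bool) =>
      g ⟨(x n, cx x n (x n)), by simp⟩) ⁻¹' {c}) :=
    (measurable_pi_apply _) (MeasurableSet.singleton c)
  have h3 := h2.measure_inter_preimage_eq_mul (ext ⁻¹' (Pa x n)) _ (hext (measurableSet_Pa x n)) hms
  have e1 : (fun (a : ℤ → ℕ → Bool) (i : S) => a i.1.1 i.1.2) ⁻¹' (ext ⁻¹' (Pa x n)) = Pa x n := by
    ext ω
    have hag : ∀ k < n, ω (x k) (cx x k (x k)) =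
        ext (fun i : S => ω i.1.1 i.1.2) (x k) (cx x k (x k)) := by
      intro k hk
      have : (x k, cx x k (x k)) ∈ S := by
        rw [hS]; exact mem_image_of_mem _ (by simpa using hk)
      simp only [ext]
      rw [dif_pos this]
    constructor
    · intro h
      exact path_congr _ _ x n (fun k hk => (hag k hk).symm) h
    · intro h
      exact path_congr _ _ x n hag h
  rw [e1] at h3
  have := congrArg ENNReal.toReal h3
  rw [ENNReal.toReal_mul] at this
  exact this

lemma prob_coord_true (y : ℤ) (i : ℕ) : (stk p).real {ω | ω y i = true} = p (i + 1) := by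
  have h1 : (stk p).real {ω | ω y i = true} =
      ((stk p).map (fun ω => ω y)).real {b | b i = true} := by
    rw [map_measureReal_apply (measurable_pi_apply y)]
    · rfl
    · exact (measurable_pi_apply (X := fun _ : ℕ => Bool) i) (MeasurableSet.singleton true)
  rw [h1, map_stk, trials_true]; rfl

lemma prob_coord_false (y : ℤ) (i : ℕ) : (stk p).real {ω | ω y i = false} = 1 - p (i + 1) := by
  have h1 : (stk p).real {ω | ω y i = false} =
      ((stk p).map (fun ω => ω y)).real {b | b i = false} := by
    rw [map_measureReal_apply (measurable_pi_apply y)]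
    · rfl
    · exact (measurable_pi_apply (X := fun _ : ℕ => Bool) i) (MeasurableSet.singleton false)
  rw [h1, map_stk, trials_false]; rfl

/-- the walk driven by the stacks is the excited random walk -/
theorem stk_isERW : IsERW p (stk p) (fun n ω => pos ω n) where
  meas := measurable_pos
  start := ae_of_all _ fun ω => pos_zero ω
  right := fun n x => by
    have e : {ω : ℤ → ℕ → Bool | (∀ k ≤ n, pos ω k = x k) ∧ pos ω (n + 1) = x n + 1} =
        Pa x n ∩ {ω | ω (x n) (cx x n (x n)) = true} := by
      ext ω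
      simp only [Set.mem_inter_iff, Pa]
      constructor
      · rintro ⟨h1, h2⟩
        refine ⟨h1, ?_⟩
        rw [pos_succ, h1 n le_rfl, cnt_eq ω x n (fun k hk => h1 k hk.le)] at h2
        by_contra hc
        have hc' : ¬ (ω (x n) (cx x n (x n)) = true) := hc
        rw [if_neg hc'] at h2
        omega
      · rintro ⟨h1, h2⟩
        refine ⟨h1, ?_⟩
        rw [pos_succ, h1 n le_rfl, cnt_eq ω x n (fun k hk => h1 k hk.le)]
        exact if_pos h2
    rw [e, indep_Pa, prob_coord_true, visits_eq, mul_comm]
    rfl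
  left := fun n x => by
    have e : {ω : ℤ → ℕ → Bool | (∀ k ≤ n, pos ω k = x k) ∧ pos ω (n + 1) = x n - 1} =
        Pa x n ∩ {ω | ω (x n) (cx x n (x n)) = false} := by
      ext ω
      simp only [Set.mem_inter_iff, Pa]
      constructor
      · rintro ⟨h1, h2⟩
        refine ⟨h1, ?_⟩
        rw [pos_succ, h1 n le_rfl, cnt_eq ω x n (fun k hk => h1 k hk.le)] at h2
        by_contra hc
        have hc' : ω (x n) (cx x n (x n)) = true := by
          have : ¬ (ω (x n) (cx x n (x n)) = false) := hc
          simpa using this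
        rw [if_pos hc'] at h2
        omega
      · rintro ⟨h1, h2⟩
        refine ⟨h1, ?_⟩
        rw [pos_succ, h1 n le_rfl, cnt_eq ω x n (fun k hk => h1 k hk.le)]
        have h3 : ω (x n) (cx x n (x n)) = false := h2
        rw [h3]; simp
    rw [e, indep_Pa, prob_coord_false, visits_eq, mul_comm]
    rfl

end Pool.Agent.J6H44.ERW
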