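import Pool.Agent.J6H44.ERW.Phi

open Filter Topology Finset

namespace Pool.Agent.J6H44.ERW

variable {p : ℕ → ℝ}

lemma ev_conditions : ∀ᶠ x : ℕ in atTop, 3 ≤ x ∧ 34 ≤ Real.log x ∧
    4 * Real.log x ≤ Real.sqrt x ∧
    9 * (x : ℝ) ^ 6 * Real.exp (-(Real.sqrt x / 2)) ≤ 1 := by
  have h1 : Tendsto (fun x : ℕ => (x : ℝ)) atTop atTop := tendsto_natCast_atTop_atTop
  have h2 : Tendsto (fun x : ℕ => Real.log x) atTop atTop := Real.tendsto_log_atTop.comp h1
  have h3 : ∀ᶠ x : ℕ in atTop, 4 * Real.log x ≤ Real.sqrt x := by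
    have := (isLittleO_log_rpow_atTop (r := 1 / 2) (by norm_num)).bound (c := 1 / 4) (by norm_num)
    filter_upwards [h1.eventually this, h2.eventually_ge_atTop 0] with x hx hx0
    rw [Real.norm_eq_abs, Real.norm_eq_abs, abs_of_nonneg hx0, ← Real.sqrt_eq_rpow,
      abs_of_nonneg (Real.sqrt_nonneg _)] at hx
    linarith
  have h4 : ∀ᶠ x : ℕ in atTop, 9 * (x : ℝ) ^ 6 * Real.exp (-(Real.sqrt x / 2)) ≤ 1 := by
    have h5 := (Real.tendsto_pow_mul_exp_neg_atTop_nhds_zero 12).const_mul (9 * 4 ^ 6)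
    rw [mul_zero] at h5
    have h6 : Tendsto (fun x : ℕ => Real.sqrt x / 2) atTop atTop :=
      (Real.tendsto_sqrt_atTop.comp h1).atTop_div_const (by norm_num)
    have h7 := (h5.comp h6).eventually_le_const (show (0 : ℝ) < 1 by norm_num)
    filter_upwards [h7] with x hx
    simp only [Function.comp_apply] at hx
    have e : (x : ℝ) ^ 6 = 4 ^ 6 * (Real.sqrt x / 2) ^ 12 := by
      have : Real.sqrt x ^ 12 = (x : ℝ) ^ 6 := by
        rw [show (12 : ℕ) = 2 * 6 by norm_num, pow_mul, Real.sq_sqrt (Nat.cast_nonneg x)]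
      rw [div_pow, this]; ring
    rw [e]
    linarith
  filter_upwards [eventually_ge_atTop 3, h2.eventually_ge_atTop 34, h3, h4] with x a b c d
  exact ⟨a, b, c, d⟩

/-- `E[s^U]` -/
noncomputable def EE (p : ℕ → ℝ) (X u : ℕ) : ℝ := ∑' m, ww p X m * sf u ^ (m - X)

lemma summable_EE (hp : ∀ k, 1 ≤ k → 1 / 4 ≤ p k ∧ p k ≤ 3 / 4) (X u : ℕ) :
    Summable fun m => ww p X m * sf u ^ (m - X) :=
  summable_wbd hp X _ 1 zero_le_one fun m => by
    rw [abs_of_nonneg (pow_nonneg (sf_nonneg u) _)]
    exact pow_le_one₀ (sf_nonneg u) (sf_lt_one u).le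

lemma EE_nonneg (hp : ∀ k, 1 ≤ k → 1 / 4 ≤ p k ∧ p k ≤ 3 / 4) (X u : ℕ) : 0 ≤ EE p X u :=
  tsum_nonneg fun m => mul_nonneg (ww_nonneg (hp01 hp) X m) (pow_nonneg (sf_nonneg u) _)

lemma EE_le_one (hp : ∀ k, 1 ≤ k → 1 / 4 ≤ p k ∧ p k ≤ 3 / 4) (X u : ℕ) : EE p X u ≤ 1 := by
  rw [← (hasSum_ww hp X).tsum_eq]
  refine (summable_EE hp X u).tsum_le_tsum (fun m => ?_) (hasSum_ww hp X).summable
  exact mul_le_of_le_one_right (ww_nonneg (hp01 hp) X m)
    (pow_le_one₀ (sf_nonneg u) (sf_lt_one u).le)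

/-- `E[f(U)] = ∑ φ(u) E[s_u^U]` -/
lemma swap (hp : ∀ k, 1 ≤ k → 1 / 4 ≤ p k ∧ p k ≤ 3 / 4) (X : ℕ) :
    ∑' m, ww p X m * lyf (m - X) = ∑' u, phi u * EE p X u := by
  have h1 : ∀ m, ww p X m * lyf (m - X) = ∑' u, ww p X m * (phi u * sf u ^ (m - X)) := fun m => by
    rw [lyf, tsum_mul_left]
  have h2 : ∀ u, phi u * EE p X u = ∑' m, ww p X m * (phi u * sf u ^ (m - X)) := fun u => by
    rw [EE, ← tsum_mul_left]
    congr 1; funext m; ring
  simp_rw [h1, h2]
  have hs : Summable (Function.uncurry fun m u => ww p X m * (phi u * sf u ^ (m - X))) := by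
    have h3 : Summable fun q : ℕ × ℕ => ww p X q.1 * phi q.2 :=
      (hasSum_ww hp X).summable.mul_of_nonneg summable_phi (ww_nonneg (hp01 hp) X) phi_nonneg
    refine Summable.of_nonneg_of_le (fun q => ?_) (fun q => ?_) h3
    · exact mul_nonneg (ww_nonneg (hp01 hp) X _) (mul_nonneg (phi_nonneg _) (pow_nonneg (sf_nonneg _) _))
    · exact mul_le_mul_of_nonneg_left (mul_le_of_le_one_right (phi_nonneg _)
        (pow_le_one₀ (sf_nonneg _) (sf_lt_one _).le)) (ww_nonneg (hp01 hp) X _)
  exact hs.tsum_comm.symm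

lemma sf_succ (u : ℕ) : sf (u + 1) = (u : ℝ) / (u + 1) := by
  unfold sf; push_cast; ring

/-- reindexed `f(x)` -/
lemma lyf_shift (x : ℕ) : lyf x = ∑' u, phi (u + 1) * sf (u + 1) ^ x := by
  rw [lyf, (summable_lyf x).tsum_eq_zero_add, phi_zero, zero_mul, zero_add]

lemma D_bound (he : Env p) (hS : ∀ n : ℕ, 4 ≤ n → 1 + 20 / (20 + Real.log n) ≤ SS p n)
    (X u : ℕ) (hX : 3 ≤ X) (hu : 2 ≤ u) (hL : 34 ≤ Real.log ((X + 1 : ℕ) : ℝ)) :
    phi u * EE p X u - phi (u + 1) * sf (u + 1) ^ (X + 1) ≤
      phi u * sf (u + 1) ^ (X + 1) / u * (-(6 / Real.log ((X + 1 : ℕ) : ℝ)) + 4 / u +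
        2 / Real.log u) := by
  have hu2 : (2 : ℝ) ≤ u := by exact_mod_cast hu
  have hu0 : (0 : ℝ) < u := by linarith
  have hlu := log_pos_nat u hu
  have h1 := gf_bound he (u : ℝ) hu2 X hX
  have h2 := phi_ratio u hu
  set L := Real.log ((X + 1 : ℕ) : ℝ) with hLdef
  have hL0 : 0 < L := by linarith
  have hα : 12 / L ≤ SS p (8 * (X + 1)) - 1 := by
    have h3 := hS (8 * (X + 1)) (by omega)
    have h4 : Real.log ((8 * (X + 1) : ℕ) : ℝ) = 3 * Real.log 2 + L := by
      rw [Nat.cast_mul, Real.log_mul (by norm_num) (by positivity), hLdef]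
      congr 1
      have : ((8 : ℕ) : ℝ) = 2 ^ 3 := by norm_num
      rw [this, Real.log_pow]; norm_num
    rw [h4] at h3
    have h5 := Real.log_two_lt_d9
    have h6 := Real.log_two_gt_d9
    have h7 : 12 / L ≤ 20 / (20 + (3 * Real.log 2 + L)) := by
      rw [div_le_div_iff₀ hL0 (by linarith)]
      linarith
    linarith
  have hE : EE p X u ≤ sf (u + 1) ^ (X + 1) * (1 - (1 + 6 / L) / u + 4 / (u : ℝ) ^ 2) := by
    rw [sf_succ]
    refine h1.trans ?_
    refine mul_le_mul_of_nonneg_left ?_ (by positivity)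
    have h8 : (1 + 6 / L) / u ≤ (1 + (SS p (8 * (X + 1)) - 1) / 2) / u := by
      apply div_le_div_of_nonneg_right _ hu0.le
      have : 12 / L = 2 * (6 / L) := by ring
      linarith
    linarith
  have hG : 0 ≤ sf (u + 1) ^ (X + 1) := pow_nonneg (sf_nonneg _) _
  calc phi u * EE p X u - phi (u + 1) * sf (u + 1) ^ (X + 1)
      ≤ phi u * (sf (u + 1) ^ (X + 1) * (1 - (1 + 6 / L) / u + 4 / (u : ℝ) ^ 2)) -
        (phi u * (1 - 1 / (u : ℝ) - 2 / ((u : ℝ) * Real.log u))) * sf (u + 1) ^ (X + 1) :=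
        sub_le_sub (mul_le_mul_of_nonneg_left hE (phi_nonneg u)) (mul_le_mul_of_nonneg_right h2 hG)
    _ = _ := by field_simp; ring

theorem lyap (he : Env p) (hS : ∀ n : ℕ, 4 ≤ n → 1 + 20 / (20 + Real.log n) ≤ SS p n) :
    ∃ X₀ : ℕ, ∀ X, X₀ ≤ X → ∑' m, ww p X m * lyf (m - X) ≤ lyf (X + 1) := by
  obtain ⟨X₀, hX₀⟩ := eventually_atTop.1 ev_conditions
  refine ⟨X₀ + 3, fun X hX => ?_⟩
  obtain ⟨-, hL, hsq, hexp⟩ := hX₀ (X + 1) (by omega)
  set x : ℝ := ((X + 1 : ℕ) : ℝ) with hx
  set L := Real.log x with hLdef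
  have hx0 : 0 < x := by rw [hx]; positivity
  have hL0 : 0 < L := by linarith
  have hLx : L ≤ x := by
    have := Real.log_le_sub_one_of_pos hx0
    linarith
  have hsx : 0 < Real.sqrt x := Real.sqrt_pos.2 hx0
  have hsx1 : Real.sqrt x * Real.sqrt x = x := Real.mul_self_sqrt hx0.le
  have hs1 : 136 ≤ Real.sqrt x := by linarith
  -- the terms
  set D : ℕ → ℝ := fun u => phi u * EE p X u - phi (u + 1) * sf (u + 1) ^ (X + 1) with hD
  set κ : ℝ := 3 * Real.exp (-(Real.sqrt x / 2)) with hκ
  set δ : ℝ := 1 / (3 * x ^ 5) with hδ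
  set b : ℕ → ℝ := fun u => if u = X + 1 then -δ else if u < X + 1 then κ else 0 with hb
  have hphiD : ∀ u, 2 ≤ u → D u ≤ phi u * sf (u + 1) ^ (X + 1) / u * (-(6 / L) + 4 / u +
        2 / Real.log u) := fun u hu => D_bound he hS X u (by omega) hu hL
  -- large u
  have hlarge : ∀ u : ℕ, 2 ≤ u → x ≤ (u : ℝ) ^ 2 →
      -(6 / L) + 4 / u + 2 / Real.log u ≤ -(1 / L) := by
    intro u hu hux
    have hlu := log_pos_nat u hu
    have hu0 : (0 : ℝ) < u := by positivity
    have h1 : L ≤ 2 * Real.log u := by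
      have := Real.log_le_log hx0 hux
      rwa [Real.log_pow] at this
    have h2 : 2 / Real.log u ≤ 4 / L := by
      rw [div_le_div_iff₀ hlu hL0]; linarith
    have h3 : Real.sqrt x ≤ u := Real.sqrt_le_iff.2 ⟨hu0.le, hux⟩
    have h4 : 4 / (u : ℝ) ≤ 1 / L := by
      rw [div_le_div_iff₀ hu0 hL0]; linarith
    have e : -(1 / L) = -(6 / L) + 1 / L + 4 / L := by ring
    rw [e]; linarith
  have hle : ∀ u, D u ≤ b u := by
    intro u
    rcases Nat.lt_or_ge u 2 with hu | hu
    · have hphi : phi u = 0 := by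
        interval_cases u
        · exact phi_zero
        · exact phi_one
      have h1 : D u ≤ 0 := by
        simp only [hD]
        rw [hphi, zero_mul]
        have := mul_nonneg (phi_nonneg (u + 1)) (pow_nonneg (sf_nonneg (u + 1)) (X + 1))
        linarith
      have h2 : b u = κ := by
        simp only [hb]
        rw [if_neg (by omega), if_pos (by omega)]
      rw [h2]
      exact h1.trans (by positivity)
    · have hu2 : (2 : ℝ) ≤ u := by exact_mod_cast hu
      have hu0 : (0 : ℝ) < u := by linarith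
      have hlu := log_pos_nat u hu
      have hφ := phi_pos u hu
      have hG : 0 ≤ sf (u + 1) ^ (X + 1) := pow_nonneg (sf_nonneg _) _
      have hfac : 0 ≤ phi u * sf (u + 1) ^ (X + 1) / u := by positivity
      rcases le_or_gt x ((u : ℝ) ^ 2) with hux | hux
      · have h1 := hlarge u hu hux
        have h2 : D u ≤ phi u * sf (u + 1) ^ (X + 1) / u * (-(1 / L)) :=
          (hphiD u hu).trans (mul_le_mul_of_nonneg_left h1 hfac)
        rcases eq_or_ne u (X + 1) with rfl | hne
        · simp only [hb, if_true]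
          refine h2.trans ?_
          -- lower bound for the term `u = x`
          have h3 : (1 : ℝ) / 3 ≤ sf (X + 1 + 1) ^ (X + 1) := by
            have h31 : sf (X + 1 + 1) = (1 + 1 / x)⁻¹ := by
              rw [sf_succ, ← hx]; field_simp
            rw [h31, inv_pow]
            have h32 : (1 + 1 / x) ^ (X + 1) ≤ 3 := by
              have h33 : 1 + 1 / x ≤ Real.exp (1 / x) := by
                have := Real.add_one_le_exp (1 / x); linarith
              calc (1 + 1 / x) ^ (X + 1) ≤ Real.exp (1 / x) ^ (X + 1) :=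
                    pow_le_pow_left₀ (by positivity) h33 _
                _ = Real.exp 1 := by
                    rw [← Real.exp_nat_mul, ← hx]; congr 1; field_simp
                _ ≤ 3 := by have := Real.exp_one_lt_d9; linarith
            rw [one_div]
            exact inv_anti₀ (by positivity) h32
          have h4 : phi (X + 1) = 1 / (x * L ^ 2) := by rw [phi]
          rw [h4, ← hx]
          have h5 : δ ≤ 1 / (x * L ^ 2) * sf (X + 1 + 1) ^ (X + 1) / x * (1 / L) := by
            have h6 : 1 / (x * L ^ 2) * (1 / 3) / x * (1 / L) ≤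
                1 / (x * L ^ 2) * sf (X + 1 + 1) ^ (X + 1) / x * (1 / L) := by gcongr
            refine le_trans ?_ h6
            have h7 : 1 / (x * L ^ 2) * (1 / 3) / x * (1 / L) = 1 / (3 * (x ^ 2 * L ^ 3)) := by
              field_simp
            rw [h7, hδ]
            apply one_div_le_one_div_of_le (by positivity)
            have : L ^ 3 ≤ x ^ 3 := pow_le_pow_left₀ hL0.le hLx 3
            nlinarith [mul_le_mul_of_nonneg_left this (sq_nonneg x)]
          linarith
        · have h3 : D u ≤ 0 := by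
            refine h2.trans ?_
            have : 0 ≤ phi u * sf (u + 1) ^ (X + 1) / u * (1 / L) := by positivity
            linarith
          simp only [hb, if_neg hne]
          split_ifs
          · exact h3.trans (by positivity)
          · exact h3
      · -- small u
        have hux1 : u < X + 1 := by
          have : (u : ℝ) < x := by nlinarith
          rw [hx] at this
          exact_mod_cast this
        simp only [hb]
        rw [if_neg (by omega), if_pos hux1]
        have hus : (u : ℝ) < Real.sqrt x := Real.lt_sqrt_of_sq_lt hux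
        -- exponential bound
        have h1 : sf (u + 1) ^ (X + 1) ≤ Real.exp (-(Real.sqrt x / 2)) := by
          have h11 : sf (u + 1) ≤ Real.exp (-(1 / ((u : ℝ) + 1))) := by
            have := Real.add_one_le_exp (-(1 / ((u : ℝ) + 1)))
            refine le_trans (le_of_eq ?_) this
            rw [sf_succ]; field_simp; ring
          calc sf (u + 1) ^ (X + 1) ≤ Real.exp (-(1 / ((u : ℝ) + 1))) ^ (X + 1) :=
                pow_le_pow_left₀ (sf_nonneg _) h11 _
            _ = Real.exp (-(x / ((u : ℝ) + 1))) := by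
                rw [← Real.exp_nat_mul, ← hx]; congr 1; ring
            _ ≤ Real.exp (-(Real.sqrt x / 2)) := by
                apply Real.exp_le_exp.2
                apply neg_le_neg
                rw [div_le_div_iff₀ (by norm_num) (by positivity)]
                nlinarith
        have h2 : phi u / u * (-(6 / L) + 4 / u + 2 / Real.log u) ≤ 3 := by
          have hl2 : 0.69 ≤ Real.log u := by
            have h21 : Real.log 2 ≤ Real.log u := Real.log_le_log (by norm_num) hu2
            have h22 := Real.log_two_gt_d9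
            linarith
          have h23 : phi u / u ≤ 1 / (2 * (2 * 0.69 ^ 2)) := by
            rw [phi, div_div]
            apply one_div_le_one_div_of_le (by norm_num)
            have h231 : (0.69 : ℝ) ^ 2 ≤ Real.log u ^ 2 := pow_le_pow_left₀ (by norm_num) hl2 2
            have h232 : 2 * (0.69 : ℝ) ^ 2 ≤ u * Real.log u ^ 2 :=
              mul_le_mul hu2 h231 (by norm_num) hu0.le
            nlinarith
          have h24 : -(6 / L) + 4 / u + 2 / Real.log u ≤ 2 + 2 / 0.69 := by
            have h241 : 0 ≤ 6 / L := by positivity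
            have h242 : 4 / (u : ℝ) ≤ 2 := by rw [div_le_iff₀ hu0]; linarith
            have h243 : 2 / Real.log u ≤ 2 / 0.69 := by
              apply div_le_div_of_nonneg_left (by norm_num) (by norm_num) hl2
            linarith
          have h25 : 0 ≤ phi u / u := by positivity
          calc phi u / u * (-(6 / L) + 4 / u + 2 / Real.log u) ≤ phi u / u * (2 + 2 / 0.69) :=
                mul_le_mul_of_nonneg_left h24 h25
            _ ≤ 1 / (2 * (2 * 0.69 ^ 2)) * (2 + 2 / 0.69) :=
                mul_le_mul_of_nonneg_right h23 (by norm_num)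
            _ ≤ 3 := by norm_num
        calc D u ≤ phi u * sf (u + 1) ^ (X + 1) / u * (-(6 / L) + 4 / u + 2 / Real.log u) := hphiD u hu
          _ = sf (u + 1) ^ (X + 1) * (phi u / u * (-(6 / L) + 4 / u + 2 / Real.log u)) := by ring
          _ ≤ sf (u + 1) ^ (X + 1) * 3 := mul_le_mul_of_nonneg_left h2 hG
          _ ≤ κ := by rw [hκ]; linarith
  -- sum up
  have hbs : ∀ u, u ∉ range (X + 2) → b u = 0 := by
    intro u hu
    have : X + 2 ≤ u := by simpa using hu
    simp only [hb]
    rw [if_neg (by omega), if_neg (by omega)]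
  have hsb : Summable b := summable_of_ne_finset_zero (s := range (X + 2)) hbs
  have hs1' : Summable fun u => phi u * EE p X u := by
    refine Summable.of_nonneg_of_le (fun u => mul_nonneg (phi_nonneg u) (EE_nonneg he.hp X u))
      (fun u => mul_le_of_le_one_right (phi_nonneg u) (EE_le_one he.hp X u)) summable_phi
  have hs2 : Summable fun u => phi (u + 1) * sf (u + 1) ^ (X + 1) :=
    (summable_nat_add_iff 1).2 (summable_lyf (X + 1))
  have hsD : Summable D := hs1'.sub hs2
  rw [swap he.hp, lyf_shift, ← sub_nonpos, ← hs1'.tsum_sub hs2]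
  refine (hsD.tsum_le_tsum hle hsb).trans ?_
  rw [tsum_eq_sum hbs, sum_range_succ]
  have hb1 : b (X + 1) = -δ := by simp [hb]
  have hb2 : ∑ u ∈ range (X + 1), b u = x * κ := by
    rw [sum_congr rfl (g := fun _ => κ)]
    · simp [hx]
    · intro u hu
      have : u < X + 1 := by simpa using hu
      simp only [hb]
      rw [if_neg (by omega), if_pos this]
  rw [hb1, hb2, hδ, hκ]
  have h1 : x * (3 * Real.exp (-(Real.sqrt x / 2))) ≤ 1 / (3 * x ^ 5) := by
    rw [le_div_iff₀ (by positivity)]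
    calc x * (3 * Real.exp (-(Real.sqrt x / 2))) * (3 * x ^ 5) =
        9 * x ^ 6 * Real.exp (-(Real.sqrt x / 2)) := by ring
      _ ≤ 1 := hexp
  linarith

end Pool.Agent.J6H44.ERW
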