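import Pool.Agent.J6H44.ERW.Law

open MeasureTheory ProbabilityTheory Filter Topology Finset

namespace Pool.Agent.J6H44.ERW

variable (p : Cookies)

/-- drift of the cookie `j` -/
noncomputable def dr (j : ℕ) : ℝ := 2 * pr p j - 1

/-- the compensated walk -/
noncomputable def MM (n : ℕ) (ω : ℤ → ℕ → Bool) : ℝ :=
  (pos ω n : ℝ) - ∑ k ∈ range n, dr p (cnt ω k (pos ω k) + 1)

lemma abs_dr_le (j : ℕ) : |dr p j| ≤ 1 := by
  have := (p j).2
  unfold dr pr
  rw [abs_le]; constructor <;> linarith [this.1, this.2]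

lemma MM_succ (n : ℕ) (ω : ℤ → ℕ → Bool) : MM p (n + 1) ω - MM p n ω =
    ((pos ω (n + 1) : ℝ) - pos ω n) - dr p (cnt ω n (pos ω n) + 1) := by
  unfold MM
  rw [sum_range_succ]; ring

lemma step_real (n : ℕ) (ω : ℤ → ℕ → Bool) :
    (pos ω (n + 1) : ℝ) - pos ω n = 1 ∨ (pos ω (n + 1) : ℝ) - pos ω n = -1 := by
  rcases step_cases ω n with h | h
  · left; rw [h]; push_cast; ring
  · right; rw [h]; push_cast; ring

/-- the path up to time `n` -/
def Rp (n : ℕ) (ω : ℤ → ℕ → Bool) : Fin (n + 1) → ℤ := fun k => pos ω k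

lemma measurable_Rp (n : ℕ) : Measurable (Rp n) :=
  measurable_pi_iff.2 fun k => measurable_pos _

/-- the filtration generated by the path -/
def Gf : Filtration ℕ (inferInstance : MeasurableSpace (ℤ → ℕ → Bool)) where
  seq := fun n => MeasurableSpace.comap (Rp n) inferInstance
  mono' := by
    intro n m h
    have h1 : Rp n = (fun (g : Fin (m + 1) → ℤ) (k : Fin (n + 1)) => g ⟨k.1, by omega⟩) ∘ Rp m := by
      funext ω k; rfl
    show MeasurableSpace.comap (Rp n) inferInstance ≤ _
    rw [h1, ← MeasurableSpace.comap_comp]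
    apply MeasurableSpace.comap_mono
    exact (measurable_pi_iff.2 fun k => measurable_pi_apply _).comap_le
  le' := fun n => (measurable_Rp n).comap_le

/-- extension of a finite path -/
def exf {n : ℕ} (z : Fin (n + 1) → ℤ) (k : ℕ) : ℤ := if h : k < n + 1 then z ⟨k, h⟩ else 0

lemma Rp_eq_iff (n : ℕ) (z : Fin (n + 1) → ℤ) (ω : ℤ → ℕ → Bool) :
    Rp n ω = z ↔ ω ∈ Pa (exf z) n := by
  constructor
  · rintro rfl k hk
    simp [exf, Rp, Nat.lt_succ_of_le hk]
  · intro h
    funext k
    have := h k (by omega)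
    simp only [exf] at this
    rw [dif_pos k.2] at this
    exact this

lemma pre_eq (n : ℕ) (z : Fin (n + 1) → ℤ) : Rp n ⁻¹' {z} = Pa (exf z) n := by
  ext ω
  exact Rp_eq_iff n z ω

lemma cx_congr (x y : ℕ → ℤ) (k : ℕ) (h : ∀ i < k, x i = y i) (a : ℤ) : cx x k a = cx y k a := by
  unfold cx
  congr 1
  apply filter_congr
  intro i hi
  rw [h i (by simpa using hi)]

lemma adapted : StronglyAdapted Gf (MM p) := by
  intro n
  have h1 : MM p n = (fun z : Fin (n + 1) → ℤ => (exf z n : ℝ) -
      ∑ k ∈ range n, dr p (cx (exf z) k (exf z k) + 1)) ∘ Rp n := by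
    funext ω
    simp only [Function.comp_apply, MM]
    have h2 : ∀ k ≤ n, pos ω k = exf (Rp n ω) k := fun k hk => by
      simp [exf, Rp, Nat.lt_succ_of_le hk]
    rw [h2 n le_rfl]
    congr 1
    refine sum_congr rfl fun k hk => ?_
    have hk' : k < n := by simpa using hk
    rw [← h2 k hk'.le, cnt_eq ω (exf (Rp n ω)) k (fun i hi => h2 i (by omega))]
  have h3 : Measurable[Gf n] (Rp n) := comap_measurable _
  have h4 : Measurable (fun z : Fin (n + 1) → ℤ => (exf z n : ℝ) -
      ∑ k ∈ range n, dr p (cx (exf z) k (exf z k) + 1)) := Measurable.of_discrete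
  have h5 : Measurable[Gf n] (MM p n) := by
    rw [h1]
    exact h4.comp h3
  exact h5.stronglyMeasurable

lemma measurable_MM (n : ℕ) : Measurable (MM p n) :=
  ((adapted p n).mono (Gf.le n)).measurable

lemma abs_pos_le (n : ℕ) (ω : ℤ → ℕ → Bool) : |(pos ω n : ℝ)| ≤ n := by
  induction n with
  | zero => simp
  | succ n ih =>
    have h : (pos ω (n + 1) : ℝ) = pos ω n + ((pos ω (n + 1) : ℝ) - pos ω n) := by ring
    rw [h]
    refine (abs_add_le _ _).trans ?_
    push_cast
    have : |(pos ω (n + 1) : ℝ) - pos ω n| ≤ 1 := by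
      rcases step_real n ω with h | h <;> rw [h] <;> norm_num
    linarith

lemma MM_bound (n : ℕ) (ω : ℤ → ℕ → Bool) : |MM p n ω| ≤ 2 * n := by
  unfold MM
  refine (abs_sub _ _).trans ?_
  have h1 := abs_pos_le n ω
  have h2 : |∑ k ∈ range n, dr p (cnt ω k (pos ω k) + 1)| ≤ n := by
    refine (abs_sum_le_sum_abs _ _).trans ?_
    refine (sum_le_sum fun k _ => abs_dr_le p _).trans ?_
    simp
  linarith

lemma integrable_MM (n : ℕ) : Integrable (MM p n) (stk p) :=
  Integrable.of_bound (measurable_MM p n).aestronglyMeasurable (2 * n) (ae_of_all _ fun ω => by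
    rw [Real.norm_eq_abs]; exact MM_bound p n ω)

/-- mean zero on each path event -/
lemma integral_Pa (x : ℕ → ℤ) (n : ℕ) :
    ∫ ω in Pa x n, (MM p (n + 1) ω - MM p n ω) ∂stk p = 0 := by
  set A := {ω : ℤ → ℕ → Bool | ω (x n) (cx x n (x n)) = true} with hA
  have hAm : MeasurableSet A :=
    ((measurable_pi_apply (X := fun _ : ℕ => Bool) (cx x n (x n))).comp
      (measurable_pi_apply (x n))) (MeasurableSet.singleton true)
  have h1 : ∀ ω ∈ Pa x n, MM p (n + 1) ω - MM p n ω =
      2 * A.indicator (fun _ => (1 : ℝ)) ω - (1 + dr p (cx x n (x n) + 1)) := by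
    intro ω hω
    rw [MM_succ]
    have h2 : pos ω n = x n := hω n le_rfl
    have h3 := cnt_eq ω x n (fun k hk => hω k hk.le) (x n)
    rw [pos_succ, h2, h3]
    by_cases h : ω (x n) (cx x n (x n)) = true
    · rw [if_pos h, Set.indicator_of_mem (by exact h)]; push_cast; ring
    · rw [if_neg h, Set.indicator_of_notMem (by exact h)]; push_cast; ring
  rw [setIntegral_congr_fun (measurableSet_Pa x n) h1]
  have hi : Integrable (fun ω => 2 * A.indicator (fun _ => (1 : ℝ)) ω) ((stk p).restrict (Pa x n)) :=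
    (((integrable_const (1 : ℝ)).indicator hAm).const_mul 2)
  rw [integral_sub hi (integrable_const _), integral_const_mul, integral_indicator hAm]
  simp only [integral_const, smul_eq_mul, mul_one]
  have h4 := indep_Pa p x n true
  rw [prob_coord_true] at h4
  have h5 : ((stk p).restrict (Pa x n)).restrict A = (stk p).restrict (Pa x n ∩ A) := by
    rw [Measure.restrict_restrict hAm, Set.inter_comm]
  rw [h5, measureReal_restrict_apply_univ, measureReal_restrict_apply_univ, hA, h4]
  unfold dr pr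
  ring

theorem martingale_MM : Martingale (MM p) Gf (stk p) := by
  refine martingale_of_setIntegral_eq_succ (adapted p) (integrable_MM p) fun n s hs => ?_
  obtain ⟨B, -, rfl⟩ := hs
  have h1 : Rp n ⁻¹' B = ⋃ z : B, Pa (exf z.1) n := by
    ext ω
    simp only [Set.mem_preimage, Set.mem_iUnion, ← Rp_eq_iff, Subtype.exists, exists_prop]
    constructor
    · intro h; exact ⟨_, h, rfl⟩
    · rintro ⟨z, hz, h⟩; rw [h]; exact hz
  have h2 : ∫ ω in Rp n ⁻¹' B, (MM p (n + 1) ω - MM p n ω) ∂stk p = 0 := by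
    rw [h1, integral_iUnion]
    · simp [integral_Pa]
    · intro z; exact measurableSet_Pa _ _
    · intro z w hzw
      rw [Function.onFun, Set.disjoint_left]
      intro ω h3 h4
      rw [← Rp_eq_iff] at h3 h4
      exact hzw (Subtype.ext (h3.symm.trans h4))
    · exact ((integrable_MM p (n + 1)).sub (integrable_MM p n)).integrableOn
  rw [integral_sub (integrable_MM p (n + 1)).integrableOn (integrable_MM p n).integrableOn] at h2
  linarith

variable {p}

lemma drift_sum (ω : ℤ → ℕ → Bool) (n : ℕ) (F : Finset ℤ) (hF : ∀ k < n, pos ω k ∈ F) :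
    ∑ k ∈ range n, dr p (cnt ω k (pos ω k) + 1) = ∑ y ∈ F, SS (pr p) (cnt ω n y) := by
  induction n with
  | zero => simp [SS]
  | succ n ih =>
    rw [sum_range_succ, ih fun k hk => hF k (by omega)]
    have h1 : ∀ y ∈ F, SS (pr p) (cnt ω (n + 1) y) = SS (pr p) (cnt ω n y) +
        if y = pos ω n then dr p (cnt ω n (pos ω n) + 1) else 0 := by
      intro y _
      rw [cnt_succ]
      split_ifs with h
      · rw [h, SS_succ]; rfl
      · ring
    rw [sum_congr rfl h1, sum_add_distrib, sum_ite_eq' F (pos ω n), if_pos (hF n (by omega))]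

lemma drift_nonneg (he : Env (pr p)) (ω : ℤ → ℕ → Bool) (n : ℕ) :
    0 ≤ ∑ k ∈ range n, dr p (cnt ω k (pos ω k) + 1) := by
  rw [drift_sum ω n ((range n).image fun k => pos ω k) fun k hk =>
    mem_image_of_mem _ (by simpa using hk)]
  exact sum_nonneg fun y _ => SS_nonneg he _

/-- almost surely every nonnegative site is visited -/
theorem ae_visits (he : Env (pr p)) : ∀ᵐ ω ∂stk p, ∀ m : ℕ, ∃ n, pos ω n = m := by
  have hb : ∀ᵐ ω ∂stk p, ∀ i, |MM p (i + 1) ω - MM p i ω| ≤ (2 : NNReal) := ae_of_all _ fun ω i => by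
    rw [MM_succ]
    refine (abs_sub _ _).trans ?_
    have h1 := abs_dr_le p (cnt ω i (pos ω i) + 1)
    have h2 : |(pos ω (i + 1) : ℝ) - pos ω i| ≤ 1 := by
      rcases step_real i ω with h | h <;> rw [h] <;> norm_num
    push_cast
    linarith
  filter_upwards [(martingale_MM p).submartingale.bddAbove_iff_exists_tendsto hb] with ω hω
  have hnot : ¬ ∃ c, Tendsto (fun n => MM p n ω) atTop (𝓝 c) := by
    rintro ⟨c, hc⟩
    have h1 : Tendsto (fun n => MM p (n + 1) ω - MM p n ω) atTop (𝓝 (c - c)) :=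
      ((tendsto_add_atTop_iff_nat 1).2 hc).sub hc
    rw [sub_self] at h1
    obtain ⟨N, hN⟩ := (Metric.tendsto_atTop.1 h1) (1 / 2) (by norm_num)
    have h2 := hN N le_rfl
    rw [Real.dist_eq, sub_zero, MM_succ] at h2
    have h3 := he.hp (cnt ω N (pos ω N) + 1) (by omega)
    unfold dr at h2
    rw [abs_lt] at h2
    rcases step_real N ω with h | h <;> rw [h] at h2 <;> linarith [h2.1, h2.2, h3.1, h3.2]
  have hunb : ¬ BddAbove (Set.range fun n => MM p n ω) := fun h => hnot (hω.1 h)
  -- so the walk is unbounded above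
  have hpos : ∀ m : ℕ, ∃ n, (m : ℤ) ≤ pos ω n := by
    intro m
    by_contra hc
    push Not at hc
    apply hunb
    refine ⟨m, ?_⟩
    rintro _ ⟨n, rfl⟩
    have h1 := drift_nonneg he ω n
    have h2 : (pos ω n : ℝ) ≤ m := by exact_mod_cast (hc n).le
    show MM p n ω ≤ m
    unfold MM
    linarith
  intro m
  classical
  have hex := hpos m
  set n := Nat.find hex with hn
  have h1 : (m : ℤ) ≤ pos ω n := Nat.find_spec hex
  rcases Nat.eq_zero_or_pos n with h0 | h0
  · rw [h0, pos_zero] at h1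
    refine ⟨0, ?_⟩
    rw [pos_zero]; omega
  · have h2 : ¬ (m : ℤ) ≤ pos ω (n - 1) := Nat.find_min hex (by omega)
    have h3 := step_cases ω (n - 1)
    rw [Nat.sub_add_cancel h0] at h3
    exact ⟨n, by omega⟩

/-- the walk driven by the stacks tends to `+∞` -/
theorem stk_transient (he : Env (pr p))
    (hS : ∀ n : ℕ, 4 ≤ n → 1 + 20 / (20 + Real.log n) ≤ SS (pr p) n) :
    ∀ᵐ ω ∂stk p, Tendsto (fun n => pos ω n) atTop atTop := by
  filter_upwards [ae_frequently he hS, ae_visits he] with ω h1 h2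
  rw [tendsto_atTop]
  intro b
  obtain ⟨m, hm, hE⟩ := h1 b.toNat
  obtain ⟨s, hs⟩ := h2 m
  filter_upwards [eventually_ge_atTop s] with t ht
  by_contra hc
  obtain ⟨j, hj⟩ := dies ω m (by omega) s t ht hs (by omega)
  exact hE j hj

end Pool.Agent.J6H44.ERW
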