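import Pool.Agent.J6H44.ERW.Fl

open Filter Topology Finset

namespace Pool.Agent.J6H44.ERW

variable {p : ℕ → ℝ}

lemma hp01 (hp : ∀ k, 1 ≤ k → 1 / 4 ≤ p k ∧ p k ≤ 3 / 4) : ∀ k, 1 ≤ k → 0 ≤ p k ∧ p k ≤ 1 :=
  fun k hk => by have := hp k hk; constructor <;> linarith [this.1, this.2]

lemma summable_geo : Summable fun m : ℕ => ((m : ℝ) + 2) ^ 2 * (7 / 8) ^ m := by
  have h := summable_pow_mul_geometric_of_norm_lt_one (R := ℝ) 2 (r := 7 / 8)
    (by rw [Real.norm_eq_abs, abs_of_pos] <;> norm_num)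
  have h2 := ((summable_nat_add_iff 2).2 h).mul_left ((8 / 7) ^ 2)
  refine h2.congr fun m => ?_
  push_cast
  rw [pow_add]
  ring

lemma summable_ww (hp : ∀ k, 1 ≤ k → 1 / 4 ≤ p k ∧ p k ≤ 3 / 4) (X : ℕ) (h : ℕ → ℝ) (C : ℝ)
    (hh : ∀ m, |h m| ≤ C * ((m : ℝ) + 2) ^ 2) : Summable fun m => ww p X m * h m := by
  refine Summable.of_norm_bounded ((summable_geo).mul_left (2 ^ X * C)) fun m => ?_
  rw [Real.norm_eq_abs, abs_mul, abs_of_nonneg (ww_nonneg (hp01 hp) X m)]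
  calc ww p X m * |h m| ≤ (2 ^ X * (7 / 8) ^ m) * (C * ((m : ℝ) + 2) ^ 2) :=
        mul_le_mul (ww_le hp X m) (hh m) (abs_nonneg _) (by positivity)
    _ = _ := by ring

lemma hasSum_dynkin (hp : ∀ k, 1 ≤ k → 1 / 4 ≤ p k ∧ p k ≤ 3 / 4) (X : ℕ) (g : ℕ → ℕ → ℝ)
    (C : ℝ) (hC : 0 ≤ C) (hg : ∀ n j, j ≤ X + 1 → |g n j| ≤ C * ((n : ℝ) + 1) ^ 2) :
    Summable (fun m => ∑ j ∈ range (X + 1), fl p m j *
      (p (m + 1) * g (m + 1) j + (1 - p (m + 1)) * g (m + 1) (j + 1) - g m j)) ∧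
    HasSum (fun m => ww p X m * g (m + 1) (X + 1)) (g 0 0 + ∑' m, ∑ j ∈ range (X + 1), fl p m j *
      (p (m + 1) * g (m + 1) j + (1 - p (m + 1)) * g (m + 1) (j + 1) - g m j)) := by
  have hp' := hp01 hp
  set LL : ℕ → ℝ := fun m => ∑ j ∈ range (X + 1), fl p m j *
      (p (m + 1) * g (m + 1) j + (1 - p (m + 1)) * g (m + 1) (j + 1) - g m j) with hLL
  have hLs : Summable LL := by
    refine Summable.of_norm_bounded ((summable_geo).mul_left (2 ^ X * (3 * C))) fun m => ?_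
    rw [Real.norm_eq_abs]
    calc |LL m| ≤ ∑ j ∈ range (X + 1), |fl p m j *
          (p (m + 1) * g (m + 1) j + (1 - p (m + 1)) * g (m + 1) (j + 1) - g m j)| :=
          abs_sum_le_sum_abs _ _
      _ ≤ ∑ j ∈ range (X + 1), fl p m j * (3 * C * ((m : ℝ) + 2) ^ 2) := by
          refine sum_le_sum fun j hj => ?_
          have hj' : j ≤ X := by simpa [Nat.lt_succ_iff] using hj
          rw [abs_mul, abs_of_nonneg (fl_nonneg hp' m j)]
          refine mul_le_mul_of_nonneg_left ?_ (fl_nonneg hp' m j)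
          have h1 := hg (m + 1) j (by omega)
          have h2 := hg (m + 1) (j + 1) (by omega)
          have h3 := hg m j (by omega)
          push_cast at h1 h2
          have e : ((m : ℝ) + 1 + 1) = m + 2 := by ring
          rw [e] at h1 h2
          have h4 : C * ((m : ℝ) + 1) ^ 2 ≤ C * ((m : ℝ) + 2) ^ 2 := by
            refine mul_le_mul_of_nonneg_left ?_ hC
            have : (0 : ℝ) ≤ m := Nat.cast_nonneg m
            nlinarith
          have hq := hp' (m + 1) (by omega)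
          have a1 : |p (m + 1) * g (m + 1) j| ≤ C * ((m : ℝ) + 2) ^ 2 := by
            rw [abs_mul, abs_of_nonneg hq.1]
            calc p (m + 1) * |g (m + 1) j| ≤ 1 * |g (m + 1) j| :=
                  mul_le_mul_of_nonneg_right hq.2 (abs_nonneg _)
              _ ≤ _ := by rw [one_mul]; exact h1
          have a2 : |(1 - p (m + 1)) * g (m + 1) (j + 1)| ≤ C * ((m : ℝ) + 2) ^ 2 := by
            rw [abs_mul, abs_of_nonneg (by linarith [hq.2] : (0:ℝ) ≤ 1 - p (m + 1))]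
            calc (1 - p (m + 1)) * |g (m + 1) (j + 1)| ≤ 1 * |g (m + 1) (j + 1)| :=
                  mul_le_mul_of_nonneg_right (by linarith [hq.1]) (abs_nonneg _)
              _ ≤ _ := by rw [one_mul]; exact h2
          have a3 : |p (m + 1) * g (m + 1) j + (1 - p (m + 1)) * g (m + 1) (j + 1) - g m j| ≤
              |p (m + 1) * g (m + 1) j| + |(1 - p (m + 1)) * g (m + 1) (j + 1)| + |g m j| := by
            refine (abs_sub _ _).trans ?_
            gcongr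
            exact abs_add_le _ _
          linarith
      _ = qq p X m * (3 * C * ((m : ℝ) + 2) ^ 2) := by rw [qq, sum_mul]
      _ ≤ (2 ^ X * (7 / 8) ^ m) * (3 * C * ((m : ℝ) + 2) ^ 2) :=
          mul_le_mul_of_nonneg_right (qq_le hp X m) (by positivity)
      _ = _ := by ring
  refine ⟨hLs, ?_⟩
  have hws : Summable (fun m => ww p X m * g (m + 1) (X + 1)) := by
    refine summable_ww hp X _ C fun m => ?_
    have := hg (m + 1) (X + 1) le_rfl
    push_cast at this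
    have e : ((m : ℝ) + 1 + 1) = m + 2 := by ring
    rwa [e] at this
  rw [hws.hasSum_iff_tendsto_nat]
  have hal : Tendsto (fun n => ∑ j ∈ range (X + 1), fl p n j * g n j) atTop (𝓝 0) := by
    have h0 := (summable_geo.mul_left (2 ^ X * C)).tendsto_atTop_zero
    refine squeeze_zero_norm (fun n => ?_) h0
    rw [Real.norm_eq_abs]
    calc |∑ j ∈ range (X + 1), fl p n j * g n j| ≤ ∑ j ∈ range (X + 1), |fl p n j * g n j| :=
          abs_sum_le_sum_abs _ _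
      _ ≤ ∑ j ∈ range (X + 1), fl p n j * (C * ((n : ℝ) + 2) ^ 2) := by
          refine sum_le_sum fun j hj => ?_
          have hj' : j ≤ X := by simpa [Nat.lt_succ_iff] using hj
          rw [abs_mul, abs_of_nonneg (fl_nonneg hp' n j)]
          refine mul_le_mul_of_nonneg_left ?_ (fl_nonneg hp' n j)
          refine (hg n j (by omega)).trans (mul_le_mul_of_nonneg_left ?_ hC)
          have : (0 : ℝ) ≤ n := Nat.cast_nonneg n
          nlinarith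
      _ = qq p X n * (C * ((n : ℝ) + 2) ^ 2) := by rw [qq, sum_mul]
      _ ≤ (2 ^ X * (7 / 8) ^ n) * (C * ((n : ℝ) + 2) ^ 2) :=
          mul_le_mul_of_nonneg_right (qq_le hp X n) (by positivity)
      _ = _ := by ring
  have hL := hLs.hasSum.tendsto_sum_nat
  have := (hL.const_add (g 0 0)).sub hal
  rw [sub_zero] at this
  refine this.congr fun n => ?_
  have hd := dynkin (p := p) X g n
  simp only [ww]
  linarith

lemma hasSum_dynkin_zero (hp : ∀ k, 1 ≤ k → 1 / 4 ≤ p k ∧ p k ≤ 3 / 4) (X : ℕ) (g : ℕ → ℕ → ℝ)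
    (C : ℝ) (hC : 0 ≤ C) (hg : ∀ n j, j ≤ X + 1 → |g n j| ≤ C * ((n : ℝ) + 1) ^ 2)
    (hL : ∀ m j, p (m + 1) * g (m + 1) j + (1 - p (m + 1)) * g (m + 1) (j + 1) - g m j = 0) :
    HasSum (fun m => ww p X m * g (m + 1) (X + 1)) (g 0 0) := by
  have h := (hasSum_dynkin hp X g C hC hg).2
  simpa [hL] using h

lemma hasSum_ww (hp : ∀ k, 1 ≤ k → 1 / 4 ≤ p k ∧ p k ≤ 3 / 4) (X : ℕ) :
    HasSum (fun m => ww p X m) 1 := by
  have h := hasSum_dynkin_zero hp X (fun _ _ => 1) 1 zero_le_one (fun n j _ => by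
    have : (0 : ℝ) ≤ n := Nat.cast_nonneg n
    rw [abs_one]; nlinarith) (fun m j => by ring)
  simpa using h

/-- total drift of the first `n` trials -/
noncomputable def SS (p : ℕ → ℝ) (n : ℕ) : ℝ := ∑ k ∈ range n, (2 * p (k + 1) - 1)

/-- variance of the first `n` trials -/
noncomputable def QQ (p : ℕ → ℝ) (n : ℕ) : ℝ := ∑ k ∈ range n, (1 - (2 * p (k + 1) - 1) ^ 2)

lemma SS_succ (n : ℕ) : SS p (n + 1) = SS p n + (2 * p (n + 1) - 1) := by
  unfold SS; rw [sum_range_succ]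

lemma QQ_succ (n : ℕ) : QQ p (n + 1) = QQ p n + (1 - (2 * p (n + 1) - 1) ^ 2) := by
  unfold QQ; rw [sum_range_succ]

lemma abs_SS_le (hp : ∀ k, 1 ≤ k → 1 / 4 ≤ p k ∧ p k ≤ 3 / 4) (n : ℕ) : |SS p n| ≤ n := by
  induction n with
  | zero => simp [SS]
  | succ n ih =>
    rw [SS_succ]
    have := hp (n + 1) (by omega)
    refine (abs_add_le _ _).trans ?_
    push_cast
    have h2 : |2 * p (n + 1) - 1| ≤ 1 := by rw [abs_le]; constructor <;> linarith [this.1, this.2]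
    linarith

lemma QQ_bd (hp : ∀ k, 1 ≤ k → 1 / 4 ≤ p k ∧ p k ≤ 3 / 4) (n : ℕ) : 0 ≤ QQ p n ∧ QQ p n ≤ n := by
  induction n with
  | zero => simp [QQ]
  | succ n ih =>
    rw [QQ_succ]
    have := hp (n + 1) (by omega)
    have h2 : (2 * p (n + 1) - 1) ^ 2 ≤ 1 := by nlinarith [this.1, this.2]
    have h3 := sq_nonneg (2 * p (n + 1) - 1)
    push_cast
    constructor <;> linarith [ih.1, ih.2]

/-- first moment identity: the mean of `U - x` is the mean of the drift used -/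
lemma hasSum_M1 (hp : ∀ k, 1 ≤ k → 1 / 4 ≤ p k ∧ p k ≤ 3 / 4) (X : ℕ) :
    HasSum (fun m => ww p X m * (SS p (m + 1) - (((m : ℝ) + 1) - 2 * ((X : ℝ) + 1)))) 0 := by
  have h := hasSum_dynkin_zero hp X (fun n j => SS p n - ((n : ℝ) - 2 * (j : ℝ)))
    (2 + 2 * ((X : ℝ) + 1)) (by positivity) (fun n j hj => ?_) (fun m j => ?_)
  · simpa [SS] using h
  · have h1 := abs_SS_le hp n
    have h2 : |(n : ℝ) - 2 * (j : ℝ)| ≤ n + 2 * ((X : ℝ) + 1) := by
      have : (j : ℝ) ≤ X + 1 := by exact_mod_cast hj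
      have hn : (0 : ℝ) ≤ n := Nat.cast_nonneg n
      have hj0 : (0 : ℝ) ≤ j := Nat.cast_nonneg j
      rw [abs_le]; constructor <;> linarith
    have h3 := abs_sub (SS p n) ((n : ℝ) - 2 * (j : ℝ))
    have hn : (0 : ℝ) ≤ n := Nat.cast_nonneg n
    have hX : (0 : ℝ) ≤ X := Nat.cast_nonneg X
    nlinarith [mul_nonneg hn hX, mul_nonneg hn hn, mul_nonneg (mul_nonneg hn hn) hX]
  · rw [SS_succ]; push_cast; ring

/-- second moment identity -/
lemma hasSum_M2 (hp : ∀ k, 1 ≤ k → 1 / 4 ≤ p k ∧ p k ≤ 3 / 4) (X : ℕ) :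
    HasSum (fun m => ww p X m * ((SS p (m + 1) - (((m : ℝ) + 1) - 2 * ((X : ℝ) + 1))) ^ 2
      - QQ p (m + 1))) 0 := by
  have h := hasSum_dynkin_zero hp X (fun n j => (SS p n - ((n : ℝ) - 2 * (j : ℝ))) ^ 2 - QQ p n)
    ((2 + 2 * ((X : ℝ) + 1)) ^ 2 + 1) (by positivity) (fun n j hj => ?_) (fun m j => ?_)
  · simpa [SS, QQ] using h
  · have h1 := abs_SS_le hp n
    have h2 : |(n : ℝ) - 2 * (j : ℝ)| ≤ n + 2 * ((X : ℝ) + 1) := by
      have : (j : ℝ) ≤ X + 1 := by exact_mod_cast hj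
      have hn : (0 : ℝ) ≤ n := Nat.cast_nonneg n
      have hj0 : (0 : ℝ) ≤ j := Nat.cast_nonneg j
      rw [abs_le]; constructor <;> linarith
    have h3 := abs_sub (SS p n) ((n : ℝ) - 2 * (j : ℝ))
    have hn : (0 : ℝ) ≤ n := Nat.cast_nonneg n
    have hX : (0 : ℝ) ≤ X := Nat.cast_nonneg X
    have h4 : |SS p n - ((n : ℝ) - 2 * (j : ℝ))| ≤ (2 + 2 * ((X : ℝ) + 1)) * ((n : ℝ) + 1) := by
      nlinarith [mul_nonneg hn hX]
    have h5 : (SS p n - ((n : ℝ) - 2 * (j : ℝ))) ^ 2 ≤ ((2 + 2 * ((X : ℝ) + 1)) * ((n : ℝ) + 1)) ^ 2 := by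
      rw [← sq_abs]; exact pow_le_pow_left₀ (abs_nonneg _) h4 2
    have h6 := QQ_bd hp n
    have h7 : (0:ℝ) ≤ (SS p n - ((n : ℝ) - 2 * (j : ℝ))) ^ 2 := sq_nonneg _
    have h8 : QQ p n ≤ ((n : ℝ) + 1) ^ 2 := by nlinarith
    rw [abs_le]
    constructor
    · nlinarith [sq_nonneg ((2 + 2 * ((X : ℝ) + 1)) * ((n : ℝ) + 1))]
    · nlinarith
  · rw [SS_succ, QQ_succ]; push_cast; ring

/-- `U - x` when the `x`-th failure, `x = X + 1`, is the trial `m + 1` -/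
noncomputable def DD (X m : ℕ) : ℝ := ((m : ℝ) + 1) - 2 * ((X : ℝ) + 1)

lemma summable_wD (hp : ∀ k, 1 ≤ k → 1 / 4 ≤ p k ∧ p k ≤ 3 / 4) (X : ℕ) :
    Summable fun m => ww p X m * DD X m := by
  refine summable_ww hp X _ (1 + 2 * ((X : ℝ) + 1)) fun m => ?_
  have hn : (0 : ℝ) ≤ m := Nat.cast_nonneg m
  have hX : (0 : ℝ) ≤ X := Nat.cast_nonneg X
  have h : |DD X m| ≤ (1 + 2 * ((X : ℝ) + 1)) * ((m : ℝ) + 1) := by
    rw [DD, abs_le]; constructor <;> nlinarith [mul_nonneg hn hX]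
  nlinarith [mul_nonneg hn hX]

lemma summable_wD2 (hp : ∀ k, 1 ≤ k → 1 / 4 ≤ p k ∧ p k ≤ 3 / 4) (X : ℕ) :
    Summable fun m => ww p X m * DD X m ^ 2 := by
  refine summable_ww hp X _ ((1 + 2 * ((X : ℝ) + 1)) ^ 2) fun m => ?_
  have hn : (0 : ℝ) ≤ m := Nat.cast_nonneg m
  have hX : (0 : ℝ) ≤ X := Nat.cast_nonneg X
  have h : |DD X m| ≤ (1 + 2 * ((X : ℝ) + 1)) * ((m : ℝ) + 2) := by
    rw [DD, abs_le]; constructor <;> nlinarith [mul_nonneg hn hX]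
  rw [abs_of_nonneg (sq_nonneg _), ← mul_pow, ← sq_abs]
  exact pow_le_pow_left₀ (abs_nonneg _) h 2

/-- expectation of a function of the index of the `X+1`-st failure -/
noncomputable def rho (p : ℕ → ℝ) (X : ℕ) : ℝ := ∑' m, ww p X m * DD X m

noncomputable def nu (p : ℕ → ℝ) (X : ℕ) : ℝ := (∑' m, ww p X m * DD X m ^ 2) / ((X : ℝ) + 1)

lemma summable_wbd (hp : ∀ k, 1 ≤ k → 1 / 4 ≤ p k ∧ p k ≤ 3 / 4) (X : ℕ) (h : ℕ → ℝ) (C : ℝ)
    (hC : 0 ≤ C) (hh : ∀ m, |h m| ≤ C) : Summable fun m => ww p X m * h m := by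
  refine summable_ww hp X h C fun m => (hh m).trans ?_
  have hn : (0 : ℝ) ≤ m := Nat.cast_nonneg m
  nlinarith [mul_nonneg hC hn, mul_nonneg hC (mul_nonneg hn hn)]

lemma tsum_wbd (hp : ∀ k, 1 ≤ k → 1 / 4 ≤ p k ∧ p k ≤ 3 / 4) (X : ℕ) (h : ℕ → ℝ) (C : ℝ)
    (hC : 0 ≤ C) (hh : ∀ m, X ≤ m → |h m| ≤ C) : |∑' m, ww p X m * h m| ≤ C := by
  have hw := hasSum_ww hp X
  have h1 : ∀ m, |ww p X m * h m| ≤ ww p X m * C := fun m => by
    rcases lt_or_ge m X with hm | hm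
    · rw [ww_eq_zero X m hm]; simp
    · rw [abs_mul, abs_of_nonneg (ww_nonneg (hp01 hp) X m)]
      exact mul_le_mul_of_nonneg_left (hh m hm) (ww_nonneg (hp01 hp) X m)
  have h2 : Summable fun m => ww p X m * C := hw.summable.mul_right C
  have h3 := tsum_of_norm_bounded (f := fun m => ww p X m * h m) (h2.hasSum) h1
  rw [tsum_mul_right, hw.tsum_eq, one_mul] at h3
  exact h3

lemma rho_eq (hp : ∀ k, 1 ≤ k → 1 / 4 ≤ p k ∧ p k ≤ 3 / 4) (C : ℝ) (hS : ∀ n, |SS p n| ≤ C)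
    (X : ℕ) : rho p X = ∑' m, ww p X m * SS p (m + 1) := by
  have hC : 0 ≤ C := (abs_nonneg _).trans (hS 0)
  have h1 := hasSum_M1 hp X
  have h2 := (summable_wD hp X).hasSum
  have h3 := (summable_wbd hp X (fun m => SS p (m + 1)) C hC fun m => hS _).hasSum
  have h4 := h3.sub h2
  have h5 : (fun m => ww p X m * SS p (m + 1) - ww p X m * DD X m) =
      fun m => ww p X m * (SS p (m + 1) - (((m : ℝ) + 1) - 2 * ((X : ℝ) + 1))) := by
    funext m; rw [DD]; ring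
  rw [h5] at h4
  have := h4.unique h1
  rw [rho]; linarith

lemma rho_tendsto (hp : ∀ k, 1 ≤ k → 1 / 4 ≤ p k ∧ p k ≤ 3 / 4) (C : ℝ) (hS : ∀ n, |SS p n| ≤ C)
    (hS1 : Tendsto (SS p) atTop (𝓝 1)) : Tendsto (rho p) atTop (𝓝 1) := by
  have hC : 0 ≤ C := (abs_nonneg _).trans (hS 0)
  rw [Metric.tendsto_atTop] at hS1 ⊢
  intro ε hε
  obtain ⟨N, hN⟩ := hS1 (ε / 2) (by positivity)
  refine ⟨N, fun X hX => ?_⟩
  rw [Real.dist_eq, rho_eq hp C hS]
  have h1 := (hasSum_ww hp X)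
  have h3 := (summable_wbd hp X (fun m => SS p (m + 1)) C hC fun m => hS _).hasSum
  have h4 := h3.sub h1
  have h5 : ∑' m, ww p X m * SS p (m + 1) - 1 = ∑' m, ww p X m * (SS p (m + 1) - 1) := by
    rw [← h4.tsum_eq]
    congr 1; funext m; ring
  rw [h5]
  have := tsum_wbd hp X (fun m => SS p (m + 1) - 1) (ε / 2) (by positivity) fun m hm => by
    have := hN (m + 1) (by omega)
    rw [Real.dist_eq] at this
    exact this.le
  linarith

lemma nu_bd (hp : ∀ k, 1 ≤ k → 1 / 4 ≤ p k ∧ p k ≤ 3 / 4) (C : ℝ) (hS : ∀ n, |SS p n| ≤ C)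
    (B : ℝ) (hQ : ∀ n : ℕ, (n : ℝ) - B ≤ QQ p n) (X : ℕ) (δ : ℝ) (hδ : 0 < δ) :
    |nu p X * ((X : ℝ) + 1) - 2 * ((X : ℝ) + 1)| ≤
      C + B + C ^ 2 * (1 + δ⁻¹) + δ * (nu p X * ((X : ℝ) + 1)) := by
  have hC : 0 ≤ C := (abs_nonneg _).trans (hS 0)
  have hX : (0 : ℝ) ≤ X := Nat.cast_nonneg X
  have hB : 0 ≤ B := by have := hQ 0; simp [QQ] at this; exact this
  set y : ℝ := ∑' m, ww p X m * DD X m ^ 2 with hy
  have hny : nu p X * ((X : ℝ) + 1) = y := by rw [nu, div_mul_cancel₀]; positivity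
  rw [hny]
  have hw := hasSum_ww hp X
  have h1 := hasSum_M2 hp X
  have hD := (summable_wD hp X).hasSum
  have hD2 := (summable_wD2 hp X).hasSum
  -- the difference between `(S - D)^2 - Q` and `D^2 - (m+1)`
  have h2 : HasSum (fun m => ww p X m * (2 * SS p (m + 1) * DD X m - SS p (m + 1) ^ 2 +
      (QQ p (m + 1) - ((m : ℝ) + 1)))) (y - (2 * ((X : ℝ) + 1) + rho p X)) := by
    have h3 := (hD2.sub h1).sub ((hD).add (hw.mul_left (2 * ((X : ℝ) + 1))))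
    have e : (fun m => ww p X m * DD X m ^ 2 - ww p X m * ((SS p (m + 1) -
        (((m : ℝ) + 1) - 2 * ((X : ℝ) + 1))) ^ 2 - QQ p (m + 1)) -
        (ww p X m * DD X m + 2 * ((X : ℝ) + 1) * ww p X m)) =
        (fun m => ww p X m * (2 * SS p (m + 1) * DD X m - SS p (m + 1) ^ 2 +
      (QQ p (m + 1) - ((m : ℝ) + 1)))) := by
      funext m; simp only [DD]; ring
    rw [e] at h3
    have e2 : y - (2 * ((X : ℝ) + 1) + rho p X) = (∑' (b : ℕ), ww p X b * DD X b ^ 2 - 0 -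
      (∑' (b : ℕ), ww p X b * DD X b + 2 * ((X : ℝ) + 1) * 1)) := by
      rw [hy, rho]; ring
    rw [e2]; exact h3
  have h4 : |y - (2 * ((X : ℝ) + 1) + rho p X)| ≤ B + C ^ 2 * (1 + δ⁻¹) + δ * y := by
    rw [← h2.tsum_eq]
    have h5 : HasSum (fun m => ww p X m * (B + C ^ 2 * (1 + δ⁻¹)) + δ * (ww p X m * DD X m ^ 2))
        (1 * (B + C ^ 2 * (1 + δ⁻¹)) + δ * y) := (hw.mul_right _).add (hD2.mul_left δ)
    rw [one_mul] at h5
    rw [← Real.norm_eq_abs]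
    refine tsum_of_norm_bounded h5 fun m => ?_
    rw [Real.norm_eq_abs, abs_mul, abs_of_nonneg (ww_nonneg (hp01 hp) X m)]
    have : ww p X m * (B + C ^ 2 * (1 + δ⁻¹)) + δ * (ww p X m * DD X m ^ 2) =
      ww p X m * ((B + C ^ 2 * (1 + δ⁻¹)) + δ * DD X m ^ 2) := by ring
    rw [this]
    refine mul_le_mul_of_nonneg_left ?_ (ww_nonneg (hp01 hp) X m)
    have a1 := hS (m + 1)
    have a2 := hQ (m + 1)
    have a3 := (QQ_bd hp (m + 1)).2
    push_cast at a2 a3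
    have a4 : SS p (m + 1) ^ 2 ≤ C ^ 2 := by rw [← sq_abs]; exact pow_le_pow_left₀ (abs_nonneg _) a1 2
    have a5 : |2 * SS p (m + 1) * DD X m| ≤ C ^ 2 * δ⁻¹ + δ * DD X m ^ 2 := by
      have e1 : |2 * SS p (m + 1) * DD X m| = 2 * |SS p (m + 1)| * |DD X m| := by
        rw [abs_mul, abs_mul, abs_two]
      rw [e1]
      have e2 : δ * δ⁻¹ = 1 := mul_inv_cancel₀ hδ.ne'
      have e3 : 0 ≤ δ * (|SS p (m + 1)| * δ⁻¹ - |DD X m|) ^ 2 := by positivity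
      have e4 : δ * (|SS p (m + 1)| * δ⁻¹ - |DD X m|) ^ 2 = |SS p (m + 1)| ^ 2 * δ⁻¹ * (δ * δ⁻¹)
        - 2 * |SS p (m + 1)| * |DD X m| * (δ * δ⁻¹) + δ * |DD X m| ^ 2 := by ring
      rw [e4, e2, sq_abs, sq_abs] at e3
      have e5 : SS p (m + 1) ^ 2 * δ⁻¹ ≤ C ^ 2 * δ⁻¹ := mul_le_mul_of_nonneg_right a4 (by positivity)
      linarith
    have a6 : |2 * SS p (m + 1) * DD X m - SS p (m + 1) ^ 2 + (QQ p (m + 1) - ((m : ℝ) + 1))| ≤
        |2 * SS p (m + 1) * DD X m| + |SS p (m + 1) ^ 2| + |QQ p (m + 1) - ((m : ℝ) + 1)| :=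
      (abs_add_le _ _).trans (by gcongr; exact abs_sub _ _)
    have a7 : |SS p (m + 1) ^ 2| ≤ C ^ 2 := by rw [abs_of_nonneg (sq_nonneg _)]; exact a4
    have a8 : |QQ p (m + 1) - ((m : ℝ) + 1)| ≤ B := by rw [abs_le]; constructor <;> linarith
    linarith
  have h6 : |rho p X| ≤ C := by
    rw [rho_eq hp C hS]
    exact tsum_wbd hp X _ C hC fun m _ => hS _
  have h7 : |y - 2 * ((X : ℝ) + 1)| ≤ |y - (2 * ((X : ℝ) + 1) + rho p X)| + |rho p X| := by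
    have := abs_add_le (y - (2 * ((X : ℝ) + 1) + rho p X)) (rho p X)
    have e : y - (2 * ((X : ℝ) + 1) + rho p X) + rho p X = y - 2 * ((X : ℝ) + 1) := by ring
    rwa [e] at this
  linarith

lemma nu_tendsto (hp : ∀ k, 1 ≤ k → 1 / 4 ≤ p k ∧ p k ≤ 3 / 4) (C : ℝ) (hS : ∀ n, |SS p n| ≤ C)
    (B : ℝ) (hQ : ∀ n : ℕ, (n : ℝ) - B ≤ QQ p n) : Tendsto (nu p) atTop (𝓝 2) := by
  have hC : 0 ≤ C := (abs_nonneg _).trans (hS 0)
  have hB : 0 ≤ B := by have := hQ 0; simp [QQ] at this; exact this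
  rw [Metric.tendsto_atTop]
  intro ε hε
  -- choose δ
  obtain ⟨δ, hδ0, hδ1, hδ2⟩ : ∃ δ : ℝ, 0 < δ ∧ δ ≤ 1 / 2 ∧ δ * 6 ≤ ε / 4 :=
    ⟨min (1 / 2) (ε / 24), by positivity, min_le_left _ _, by
      have := min_le_right (1 / 2 : ℝ) (ε / 24); linarith⟩
  set K : ℝ := C + B + C ^ 2 * (1 + δ⁻¹) with hK
  have hK0 : 0 ≤ K := by positivity
  obtain ⟨N, hN⟩ := exists_nat_gt (K / (min 1 (ε / 4)))
  have hm : 0 < min 1 (ε / 4) := by positivity
  refine ⟨N, fun X hX => ?_⟩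
  have hX1 : (N : ℝ) ≤ X := by exact_mod_cast hX
  have hx : 0 < (X : ℝ) + 1 := by positivity
  have h1 := nu_bd hp C hS B hQ X δ hδ0
  rw [← hK] at h1
  have h2 : K ≤ min 1 (ε / 4) * ((X : ℝ) + 1) := by
    rw [div_lt_iff₀ hm] at hN
    nlinarith
  have h3 : |nu p X - 2| * ((X : ℝ) + 1) ≤ (min 1 (ε / 4) + δ * nu p X) * ((X : ℝ) + 1) := by
    have e : nu p X * ((X : ℝ) + 1) - 2 * ((X : ℝ) + 1) = (nu p X - 2) * ((X : ℝ) + 1) := by ring
    rw [e, abs_mul, abs_of_pos hx] at h1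
    linarith
  have h4 := le_of_mul_le_mul_right h3 hx
  have h5 : nu p X ≤ 6 := by
    have := abs_le.1 h4
    have h6 := min_le_left (1:ℝ) (ε / 4)
    nlinarith [this.2]
  rw [Real.dist_eq]
  have h6 := min_le_right (1:ℝ) (ε / 4)
  have h7 : δ * nu p X ≤ δ * 6 := mul_le_mul_of_nonneg_left h5 hδ0.le
  linarith

end Pool.Agent.J6H44.ERW
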