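import Pool.Agent.J6H44.ERW.Gen

open Filter Topology Finset

namespace Pool.Agent.J6H44.ERW

/-- the weights `1/(u log² u)` (zero for `u = 0, 1`) -/
noncomputable def phi (u : ℕ) : ℝ := 1 / ((u : ℝ) * (Real.log u) ^ 2)

/-- `1 - 1/u` -/
noncomputable def sf (u : ℕ) : ℝ := ((u : ℝ) - 1) / u

/-- the Lyapunov function -/
noncomputable def lyf (x : ℕ) : ℝ := ∑' u, phi u * sf u ^ x

lemma phi_zero : phi 0 = 0 := by simp [phi]
lemma phi_one : phi 1 = 0 := by simp [phi]

lemma phi_nonneg (u : ℕ) : 0 ≤ phi u := by unfold phi; positivity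

lemma log_pos_nat (u : ℕ) (hu : 2 ≤ u) : 0 < Real.log u :=
  Real.log_pos (by exact_mod_cast hu)

lemma phi_pos (u : ℕ) (hu : 2 ≤ u) : 0 < phi u := by
  have := log_pos_nat u hu
  unfold phi; positivity

lemma sf_nonneg (u : ℕ) : 0 ≤ sf u := by
  unfold sf
  rcases Nat.eq_zero_or_pos u with rfl | h
  · simp
  · have : (1 : ℝ) ≤ u := by exact_mod_cast h
    apply div_nonneg <;> linarith

lemma sf_lt_one (u : ℕ) : sf u < 1 := by
  unfold sf
  rcases Nat.eq_zero_or_pos u with rfl | h
  · simp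
  · have : (0 : ℝ) < u := by exact_mod_cast h
    rw [div_lt_one this]; linarith

lemma phi_le_tel (u : ℕ) (hu : 3 ≤ u) :
    phi u ≤ 1 / Real.log ((u - 1 : ℕ) : ℝ) - 1 / Real.log u := by
  have h1 : ((u - 1 : ℕ) : ℝ) = (u : ℝ) - 1 := by rw [Nat.cast_sub (by omega)]; simp
  have ha := log_pos_nat (u - 1) (by omega)
  have hb := log_pos_nat u (by omega)
  have hu0 : (0 : ℝ) < u := by positivity
  have hu1 : (0 : ℝ) < (u : ℝ) - 1 := by
    have : (3 : ℝ) ≤ u := by exact_mod_cast hu
    linarith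
  rw [h1] at ha ⊢
  set a := Real.log ((u : ℝ) - 1) with hadef
  set b := Real.log (u : ℝ) with hbdef
  have hba : 1 / (u : ℝ) ≤ b - a := by
    rw [hadef, hbdef, ← Real.log_div hu0.ne' hu1.ne']
    have := Real.one_sub_inv_le_log_of_pos (x := (u : ℝ) / ((u : ℝ) - 1)) (by positivity)
    refine le_trans (le_of_eq ?_) this
    field_simp
    ring
  have hab : a ≤ b := by
    have : 0 < 1 / (u : ℝ) := by positivity
    linarith
  have e : 1 / a - 1 / b = (b - a) / (a * b) := by field_simp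
  rw [e]
  have e2 : phi u = (1 / (u : ℝ)) / (b * b) := by
    rw [phi, ← hbdef]; field_simp
  rw [e2]
  apply div_le_div₀ (by linarith) hba (by positivity)
  exact mul_le_mul_of_nonneg_right hab hb.le

lemma summable_phi : Summable phi := by
  rw [← summable_nat_add_iff 3]
  refine summable_of_sum_range_le (c := 1 / Real.log 2) (fun n => phi_nonneg _) fun n => ?_
  have h : ∀ n : ℕ, ∑ i ∈ range n, phi (i + 3) ≤ 1 / Real.log 2 - 1 / Real.log ((n + 2 : ℕ) : ℝ) := by
    intro n
    induction n with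
    | zero => simp
    | succ n ih =>
      rw [sum_range_succ]
      have := phi_le_tel (n + 3) (by omega)
      have e1 : n + 3 - 1 = n + 2 := by omega
      rw [e1] at this
      have e2 : n + 1 + 2 = n + 3 := by omega
      rw [e2]
      linarith
  have h1 := log_pos_nat (n + 2) (by omega)
  have : 0 < 1 / Real.log ((n + 2 : ℕ) : ℝ) := by positivity
  linarith [h n]

lemma phi_ratio (u : ℕ) (hu : 2 ≤ u) :
    phi u * (1 - 1 / (u : ℝ) - 2 / ((u : ℝ) * Real.log u)) ≤ phi (u + 1) := by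
  have ha := log_pos_nat u hu
  have hb := log_pos_nat (u + 1) (by omega)
  have hu0 : (0 : ℝ) < u := by positivity
  have hu2 : (2 : ℝ) ≤ u := by exact_mod_cast hu
  have hcast : ((u + 1 : ℕ) : ℝ) = (u : ℝ) + 1 := by push_cast; ring
  rw [phi, phi, hcast]
  rw [hcast] at hb
  set a := Real.log (u : ℝ) with hadef
  set b := Real.log ((u : ℝ) + 1) with hbdef
  have hba : b ≤ a + 1 / (u : ℝ) := by
    have h := Real.log_le_sub_one_of_pos (x := ((u : ℝ) + 1) / u) (by positivity)
    rw [Real.log_div (by positivity) hu0.ne'] at h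
    have e : ((u : ℝ) + 1) / u - 1 = 1 / u := by field_simp; ring
    rw [e] at h
    linarith
  -- log u ≥ log 2 > 1/2
  have ha2 : 1 / 2 < a := by
    have h1 : Real.log 2 ≤ a := Real.log_le_log (by norm_num) hu2
    have h2 := Real.log_two_gt_d9
    linarith
  set z := 1 / (u : ℝ) with hz
  have hz0 : 0 < z := by positivity
  have hz1 : z ≤ 1 / 2 := by rw [hz, div_le_div_iff₀ hu0 (by norm_num)]; linarith
  set y := z / a with hy
  have hy0 : 0 < y := by positivity
  have hy1 : y < 1 := by rw [hy, div_lt_one ha]; linarith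
  have e1 : 2 / ((u : ℝ) * a) = 2 * y := by rw [hy, hz]; field_simp
  rw [e1]
  have hab : (1 - y) * b ≤ a := by
    have h1 : b ≤ a * (1 + y) := by
      have : a * (1 + y) = a + z := by rw [hy]; field_simp
      rw [this]; exact hba
    have h2 : (1 - y) * b ≤ (1 - y) * (a * (1 + y)) := mul_le_mul_of_nonneg_left h1 (by linarith)
    have h3 : (1 - y) * (a * (1 + y)) = a * (1 - y ^ 2) := by ring
    rw [h3] at h2
    nlinarith [sq_nonneg y]
  have hab2 : (1 - y) ^ 2 * b ^ 2 ≤ a ^ 2 := by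
    rw [← mul_pow]
    exact pow_le_pow_left₀ (mul_nonneg (by linarith) hb.le) hab 2
  have huz : (1 - z) * ((u : ℝ) + 1) ≤ u := by
    have : (1 - z) * ((u : ℝ) + 1) = u - z := by rw [hz]; field_simp; ring
    rw [this]; linarith
  rw [div_mul_eq_mul_div, one_mul, div_le_div_iff₀ (by positivity) (by positivity), one_mul]
  have h5 : 1 - z - 2 * y ≤ (1 - y) ^ 2 * (1 - z) := by
    have : (1 - y) ^ 2 * (1 - z) = 1 - z - 2 * y + (y ^ 2 * (1 - z) + 2 * y * z) := by ring
    rw [this]
    have : 0 ≤ y ^ 2 * (1 - z) + 2 * y * z := by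
      have : 0 ≤ y ^ 2 * (1 - z) := mul_nonneg (by positivity) (by linarith)
      positivity
    linarith
  calc (1 - z - 2 * y) * (((u : ℝ) + 1) * b ^ 2) ≤ ((1 - y) ^ 2 * (1 - z)) * (((u : ℝ) + 1) * b ^ 2) :=
        mul_le_mul_of_nonneg_right h5 (by positivity)
    _ = ((1 - z) * ((u : ℝ) + 1)) * ((1 - y) ^ 2 * b ^ 2) := by ring
    _ ≤ u * a ^ 2 := mul_le_mul huz hab2 (by positivity) hu0.le

lemma summable_lyf (x : ℕ) : Summable fun u => phi u * sf u ^ x := by
  refine Summable.of_nonneg_of_le (fun u => mul_nonneg (phi_nonneg u) (pow_nonneg (sf_nonneg u) _))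
    (fun u => ?_) summable_phi
  exact mul_le_of_le_one_right (phi_nonneg u) (pow_le_one₀ (sf_nonneg u) (sf_lt_one u).le)

lemma lyf_pos (x : ℕ) : 0 < lyf x := by
  have h : 0 < phi 2 * sf 2 ^ x := by
    have : sf 2 = 1 / 2 := by norm_num [sf]
    rw [this]
    exact mul_pos (phi_pos 2 le_rfl) (by positivity)
  exact h.trans_le ((summable_lyf x).le_tsum 2 fun u _ =>
    mul_nonneg (phi_nonneg u) (pow_nonneg (sf_nonneg u) _))

lemma lyf_anti : Antitone lyf := by
  refine antitone_nat_of_succ_le fun x => ?_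
  refine (summable_lyf (x + 1)).tsum_le_tsum (fun u => ?_) (summable_lyf x)
  refine mul_le_mul_of_nonneg_left ?_ (phi_nonneg u)
  exact pow_le_pow_of_le_one (sf_nonneg u) (sf_lt_one u).le (by omega)

lemma lyf_tendsto : Tendsto lyf atTop (𝓝 0) := by
  have h := tendsto_tsum_of_dominated_convergence (𝓕 := atTop) (f := fun (x : ℕ) u => phi u * sf u ^ x)
    (g := fun _ => (0 : ℝ)) (bound := phi) summable_phi (fun u => ?_) ?_
  · rw [tsum_zero] at h
    exact h
  · have := tendsto_pow_atTop_nhds_zero_of_lt_one (sf_nonneg u) (sf_lt_one u)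
    simpa using this.const_mul (phi u)
  · refine Eventually.of_forall fun x u => ?_
    rw [Real.norm_eq_abs, abs_of_nonneg (mul_nonneg (phi_nonneg u) (pow_nonneg (sf_nonneg u) _))]
    exact mul_le_of_le_one_right (phi_nonneg u) (pow_le_one₀ (sf_nonneg u) (sf_lt_one u).le)

end Pool.Agent.J6H44.ERW
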