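import Pool.Agent.J6H44.ERW.Trials

open MeasureTheory ProbabilityTheory Filter Topology Finset

namespace Pool.Agent.J6H44.ERW

/-- the walk driven by stacks of arrows (`ω y i = true`: the `i`-th arrow at `y` points to
`y + 1`): position, and number of used arrows at each site -/
def wk (ω : ℤ → ℕ → Bool) : ℕ → ℤ × (ℤ → ℕ)
  | 0 => (0, fun _ => 0)
  | n + 1 =>
    (if ω (wk ω n).1 ((wk ω n).2 (wk ω n).1) = true then (wk ω n).1 + 1 else (wk ω n).1 - 1,
      Function.update (wk ω n).2 (wk ω n).1 ((wk ω n).2 (wk ω n).1 + 1))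

def pos (ω : ℤ → ℕ → Bool) (n : ℕ) : ℤ := (wk ω n).1
def cnt (ω : ℤ → ℕ → Bool) (n : ℕ) : ℤ → ℕ := (wk ω n).2

variable (ω : ℤ → ℕ → Bool)

@[simp] lemma pos_zero : pos ω 0 = 0 := rfl
@[simp] lemma cnt_zero (y : ℤ) : cnt ω 0 y = 0 := rfl

lemma pos_succ (n : ℕ) : pos ω (n + 1) =
    if ω (pos ω n) (cnt ω n (pos ω n)) = true then pos ω n + 1 else pos ω n - 1 := rfl

lemma cnt_succ (n : ℕ) (y : ℤ) : cnt ω (n + 1) y =
    if y = pos ω n then cnt ω n (pos ω n) + 1 else cnt ω n y := by
  show Function.update (cnt ω n) (pos ω n) (cnt ω n (pos ω n) + 1) y = _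
  rw [Function.update_apply]

lemma cnt_mono (y : ℤ) : Monotone fun n => cnt ω n y :=
  monotone_nat_of_le_succ fun n => by
    rw [cnt_succ]
    split_ifs with h
    · rw [h]; omega
    · exact le_rfl

lemma pos_le (n : ℕ) : pos ω n ≤ n ∧ ∀ y : ℤ, (n : ℤ) < y → cnt ω n y = 0 := by
  induction n with
  | zero => simp
  | succ n ih =>
    constructor
    · rw [pos_succ]; push_cast; split_ifs <;> linarith [ih.1]
    · intro y hy
      push_cast at hy
      rw [cnt_succ, if_neg (by rintro rfl; linarith [ih.1]), ih.2 y (by linarith)]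

/-- number of right and left jumps from `y` before time `n` -/
def RR (n : ℕ) (y : ℤ) : ℕ := succs (ω y) (cnt ω n y)
def LF (n : ℕ) (y : ℤ) : ℕ := fails (ω y) (cnt ω n y)

lemma RR_succ (n : ℕ) (y : ℤ) : RR ω (n + 1) y = RR ω n y +
    if y = pos ω n ∧ pos ω (n + 1) = pos ω n + 1 then 1 else 0 := by
  unfold RR
  rw [cnt_succ]
  by_cases h : y = pos ω n
  · subst h
    rw [if_pos rfl, succs_succ, pos_succ]
    by_cases h2 : ω (pos ω n) (cnt ω n (pos ω n)) = true
    · simp [h2]
    · simp only [h2]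
      rw [if_neg (by simp), if_neg]
      · simp; omega
  · rw [if_neg h, if_neg (by tauto), add_zero]

lemma LF_succ (n : ℕ) (y : ℤ) : LF ω (n + 1) y = LF ω n y +
    if y = pos ω n ∧ pos ω (n + 1) = pos ω n - 1 then 1 else 0 := by
  unfold LF
  rw [cnt_succ]
  by_cases h : y = pos ω n
  · subst h
    rw [if_pos rfl, fails_succ, pos_succ]
    by_cases h2 : ω (pos ω n) (cnt ω n (pos ω n)) = true
    · simp only [h2, if_true]
      rw [if_neg (by simp), if_neg]
      · simp; omega
    · have h3 : ω (pos ω n) (cnt ω n (pos ω n)) = false := by simpa using h2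
      simp [h3]
  · rw [if_neg h, if_neg (by tauto), add_zero]

lemma step_cases (n : ℕ) : pos ω (n + 1) = pos ω n + 1 ∨ pos ω (n + 1) = pos ω n - 1 := by
  rw [pos_succ]; split_ifs <;> simp

lemma inv (n : ℕ) (k : ℤ) : (RR ω n k : ℤ) - LF ω n (k + 1) =
    (if k + 1 ≤ pos ω n then 1 else 0) - (if k + 1 ≤ 0 then 1 else 0) := by
  induction n with
  | zero => simp [RR, LF]
  | succ n ih =>
    rw [RR_succ, LF_succ]
    push_cast
    rcases step_cases ω n with h | h
    · rw [h]
      have h1 : ¬ (pos ω n + 1 = pos ω n - 1) := by omega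
      simp only [h1, and_false, if_false, add_zero, and_true]
      split_ifs at ih ⊢ <;> omega
    · rw [h]
      have h1 : ¬ (pos ω n - 1 = pos ω n + 1) := by omega
      simp only [h1, and_false, if_false, add_zero, and_true]
      split_ifs at ih ⊢ <;> omega

lemma RR_mono (y : ℤ) : Monotone fun n => RR ω n y := fun _ _ h => succs_mono _ (cnt_mono ω y h)

/-- number of left jumps from `m + j` in an excursion below `m`, computed from the stacks -/
noncomputable def Vc (m : ℤ) : ℕ → ℕ
  | 0 => 1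
  | j + 1 => U (ω (m + j)) (Vc m j)

/-- if the walk returns below a visited site `m ≥ 0`, then the chain from `m` dies -/
lemma dies (m : ℤ) (hm : 0 ≤ m) (s t : ℕ) (hst : s ≤ t) (hs : pos ω s = m) (ht : pos ω t < m) :
    ∃ j, Vc ω m j = 0 := by
  have h1 : ∀ k, m ≤ k → RR ω t k = LF ω t (k + 1) := by
    intro k hk
    have := inv ω t k
    rw [if_neg (by omega), if_neg (by omega)] at this
    omega
  have h2 : 1 ≤ LF ω t m := by
    have h3 := inv ω t (m - 1)
    have h4 := inv ω s (m - 1)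
    have h5 := RR_mono ω (m - 1) hst
    simp only at h5
    rw [sub_add_cancel] at h3 h4
    rw [if_neg (by omega)] at h3
    rw [if_pos (by omega)] at h4
    split_ifs at h3 h4 <;> omega
  have h3 : ∀ j : ℕ, Vc ω m j ≤ LF ω t (m + j) := by
    intro j
    induction j with
    | zero => simpa [Vc] using h2
    | succ j ih =>
      rw [Vc]
      have h4 := h1 (m + j) (by omega)
      have h5 : m + ((j + 1 : ℕ) : ℤ) = m + j + 1 := by push_cast; ring
      rw [h5, ← h4]
      exact U_le _ _ _ ih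
  refine ⟨t + 1, ?_⟩
  have h4 := h3 (t + 1)
  have h5 : LF ω t (m + ((t + 1 : ℕ) : ℤ)) = 0 := by
    unfold LF
    rw [(pos_le ω t).2 _ (by push_cast; omega)]
    simp
  omega

end Pool.Agent.J6H44.ERW
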