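import Pool.Agent.J6H44.ERW.UMom
import Pool.Agent.J6H44.ERW.Walk

open MeasureTheory ProbabilityTheory Filter Topology Finset

namespace Pool.Agent.J6H44.ERW

/-- independent stacks of arrows with law `trials p` at all sites -/
noncomputable def stk (p : Cookies) : Measure (ℤ → ℕ → Bool) :=
  Measure.infinitePi fun _ : ℤ => trials p

instance (p : Cookies) : IsProbabilityMeasure (stk p) := by unfold stk; infer_instance

variable (p : Cookies)

lemma indep_stk : iIndepFun (fun (y : ℤ) (ω : ℤ → ℕ → Bool) => ω y) (stk p) :=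
  iIndepFun_infinitePi (P := fun _ : ℤ => trials p) (X := fun _ x => x) (fun _ => measurable_id)

lemma map_stk (y : ℤ) : (stk p).map (fun ω => ω y) = trials p :=
  Measure.infinitePi_map_eval (fun _ : ℤ => trials p) y

lemma measurable_U' : Measurable fun q : (ℕ → Bool) × ℕ => U q.1 q.2 :=
  measurable_from_prod_countable_left fun x => measurable_U x

lemma measurable_Vc (m : ℤ) (j : ℕ) : Measurable fun ω => Vc ω m j := by
  induction j with
  | zero => exact measurable_const
  | succ j ih =>
    have h1 : Measurable (fun ω : ℤ → ℕ → Bool => ω (m + j)) := measurable_pi_apply _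
    have h2 : Measurable (fun ω : ℤ → ℕ → Bool => (ω (m + j), Vc ω m j)) := h1.prodMk ih
    have h3 : Measurable ((fun q : (ℕ → Bool) × ℕ => U q.1 q.2) ∘
      (fun ω : ℤ → ℕ → Bool => (ω (m + j), Vc ω m j))) := measurable_U'.comp h2
    exact h3

lemma Vc_congr (ω ω' : ℤ → ℕ → Bool) (m : ℤ) (j : ℕ)
    (h : ∀ y, m ≤ y → y < m + j → ω y = ω' y) : Vc ω m j = Vc ω' m j := by
  induction j with
  | zero => rfl
  | succ j ih =>
    rw [Vc, Vc, ih fun y h1 h2 => h y h1 (by push_cast; omega), h (m + j) (by omega) (by push_cast; omega)]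

lemma Vc_succ (ω : ℤ → ℕ → Bool) (m : ℤ) (j : ℕ) : Vc ω m (j + 1) = U (ω (m + j)) (Vc ω m j) := rfl

attribute [local irreducible] U Vc

lemma indep_Vc (m : ℤ) (j : ℕ) : IndepFun (fun ω => Vc ω m j) (fun ω => ω (m + j)) (stk p) := by
  classical
  have h2 := (indep_stk p).indepFun_finset (Finset.Ico m (m + j)) {m + j} (by simp)
    (fun i => measurable_pi_apply i)
  let ext : (Finset.Ico m (m + j) → ℕ → Bool) → (ℤ → ℕ → Bool) :=
    fun g y => if h : y ∈ Finset.Ico m (m + j) then g ⟨y, h⟩ else fun _ => false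
  have hext : Measurable ext := by
    rw [measurable_pi_iff]
    intro y
    by_cases h : y ∈ Finset.Ico m (m + j)
    · simp only [ext, h, dite_true]
      exact measurable_pi_apply _
    · simp only [ext, h, dite_false]
      exact measurable_const
  have hφ : Measurable fun g : (Finset.Ico m (m + j) → ℕ → Bool) => Vc (ext g) m j :=
    (measurable_Vc m j).comp hext
  have hψ : Measurable (fun g : (({m + (j : ℤ)} : Finset ℤ) → ℕ → Bool) => g ⟨m + j, by simp⟩) :=
    measurable_pi_apply _
  have h3 := h2.comp hφ hψ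
  have e : (fun ω : ℤ → ℕ → Bool => Vc ω m j) =
      (fun g : (Finset.Ico m (m + j) → ℕ → Bool) => Vc (ext g) m j) ∘
      fun (a : ℤ → ℕ → Bool) (i : Finset.Ico m (m + j)) => a i := by
    funext ω
    refine Vc_congr _ _ m j fun y h1 h2 => ?_
    simp only [ext]
    rw [dif_pos (by simp [h1, h2])]
  rw [e]
  exact h3

/-- bounded functions of the chain: one step -/
lemma integral_step (m : ℤ) (j : ℕ) (g : ℕ → ℝ) (C : ℝ) (hg : ∀ n, |g n| ≤ C) :
    ∫ ω, g (Vc ω m (j + 1)) ∂stk p =
      ∫ ω, (∫ b, g (U b (Vc ω m j)) ∂trials p) ∂stk p := by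
  have hmc : Measurable (fun ω : ℤ → ℕ → Bool => ω (m + j)) := measurable_pi_apply _
  have h1 := (indepFun_iff_map_prod_eq_prod_map_map (measurable_Vc m j).aemeasurable
    hmc.aemeasurable).1 (indep_Vc p m j)
  have hfm : Measurable fun q : ℕ × (ℕ → Bool) => g (U q.2 q.1) :=
    Measurable.of_discrete.comp (measurable_U'.comp measurable_swap)
  have hm1 : Measurable fun ω : ℤ → ℕ → Bool => (Vc ω m j, ω (m + j)) :=
    (measurable_Vc m j).prodMk hmc
  have hint : ∀ (μ : Measure (ℕ × (ℕ → Bool))) [IsProbabilityMeasure μ],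
      Integrable (fun q : ℕ × (ℕ → Bool) => g (U q.2 q.1)) μ := fun μ _ =>
    Integrable.of_bound hfm.aestronglyMeasurable C (ae_of_all _ fun q => by
      rw [Real.norm_eq_abs]; exact hg _)
  have e1 : ∫ ω, g (Vc ω m (j + 1)) ∂stk p =
      ∫ q, g (U q.2 q.1) ∂((stk p).map fun ω => (Vc ω m j, ω (m + j))) := by
    rw [integral_map hm1.aemeasurable hfm.aestronglyMeasurable]
    simp_rw [Vc_succ]
  have : IsProbabilityMeasure ((stk p).map fun ω => Vc ω m j) :=
    Measure.isProbabilityMeasure_map (measurable_Vc m j).aemeasurable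
  have h2 : Measurable fun v : ℕ => ∫ b, g (U b v) ∂trials p := Measurable.of_discrete
  rw [e1, h1, map_stk, integral_prod _ (hint _)]
  exact integral_map (measurable_Vc m j).aemeasurable h2.aestronglyMeasurable

variable {p}

/-- there is a bounded excessive function -/
lemma exists_g (he : Env (pr p))
    (hS : ∀ n : ℕ, 4 ≤ n → 1 + 20 / (20 + Real.log n) ≤ SS (pr p) n) :
    ∃ g : ℕ → ℝ, (∀ n, 0 ≤ g n ∧ g n ≤ 1) ∧ g 0 = 1 ∧
      (∀ x, ∫ b, g (U b x) ∂trials p ≤ g x) ∧ ∫ b, g (U b 1) ∂trials p < 1 := by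
  obtain ⟨x₀, hx₀, hL⟩ := lyap_U he hS
  set c := lyf x₀ with hc
  have hc0 : 0 < c := lyf_pos x₀
  set g : ℕ → ℝ := fun x => min 1 (lyf x / c) with hg
  have hg0 : ∀ n, 0 ≤ g n := fun n => by
    simp only [hg]
    exact le_min zero_le_one (div_nonneg (lyf_pos n).le hc0.le)
  have hg1 : ∀ n, g n ≤ 1 := fun n => min_le_left _ _
  have hgs : ∀ x, x ≤ x₀ → g x = 1 := fun x hx => by
    simp only [hg]
    rw [min_eq_left]
    rw [le_div_iff₀ hc0, one_mul]
    exact lyf_anti hx
  have hint : ∀ x, Integrable (fun b => g (U b x)) (trials p) := fun x =>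
    Integrable.of_bound ((Measurable.of_discrete (f := g)).comp (measurable_U x)).aestronglyMeasurable
      1 (ae_of_all _ fun b => by rw [Real.norm_eq_abs, abs_of_nonneg (hg0 _)]; exact hg1 _)
  have hintl : ∀ x, Integrable (fun b => lyf (U b x) / c) (trials p) := fun x =>
    Integrable.of_bound ((Measurable.of_discrete (f := fun n => lyf n / c)).comp
      (measurable_U x)).aestronglyMeasurable
      (lyf 0 / c) (ae_of_all _ fun b => by
        rw [Real.norm_eq_abs, abs_of_nonneg (div_nonneg (lyf_pos _).le hc0.le)]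
        exact div_le_div_of_nonneg_right (lyf_anti (Nat.zero_le _)) hc0.le)
  have hle1 : ∀ x, ∫ b, g (U b x) ∂trials p ≤ 1 := fun x => by
    have : ∫ b, g (U b x) ∂trials p ≤ ∫ _b, (1 : ℝ) ∂trials p :=
      integral_mono (hint x) (integrable_const _) fun b => hg1 _
    simpa using this
  refine ⟨g, fun n => ⟨hg0 n, hg1 n⟩, hgs 0 (Nat.zero_le _), fun x => ?_, ?_⟩
  · rcases le_total x x₀ with hx | hx
    · rw [hgs x hx]; exact hle1 x
    · have h1 : ∫ b, g (U b x) ∂trials p ≤ ∫ b, lyf (U b x) / c ∂trials p :=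
        integral_mono (hint x) (hintl x) fun b => min_le_right _ _
      have h2 : ∫ b, lyf (U b x) / c ∂trials p = (∫ b, lyf (U b x) ∂trials p) / c :=
        integral_div _ _
      refine le_min (hle1 x) (h1.trans ?_)
      rw [h2]
      exact div_le_div_of_nonneg_right (hL x hx) hc0.le
  · -- strict inequality at `1`
    have h1 : Tendsto (fun x => lyf x / c) atTop (𝓝 0) := by simpa using lyf_tendsto.div_const c
    obtain ⟨N, hN⟩ := (h1.eventually_lt_const (show (0 : ℝ) < 1 by norm_num)).exists
    have hgN : g N < 1 := lt_of_le_of_lt (min_le_right _ _) hN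
    have hw : 0 < (trials p).real {b | U b 1 = N} := by
      have h2 : 0 < ww (pr p) 0 N := by
        have h3 : ∀ n, 0 < fl (pr p) n 0 := by
          intro n
          induction n with
          | zero => simp [fl]
          | succ n ih =>
            simp only [fl]
            exact mul_pos (by have := (he.hp (n + 1) (by omega)).1; linarith) ih
        exact mul_pos (h3 N) (by have := (he.hp (N + 1) (by omega)).2; linarith)
      rw [← prob_T p 0 N] at h2
      refine h2.trans_le (measureReal_mono (fun b hb => ?_) (measure_ne_top _ _))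
      have := U_eq b 0 N hb
      simpa using this
    have h4 : 0 < ∫ b, (1 - g (U b 1)) ∂trials p := by
      have hnn : 0 ≤ᵐ[trials p] fun b => 1 - g (U b 1) := ae_of_all _ fun b => by
        have := hg1 (U b 1); simp only [Pi.zero_apply]; linarith
      rw [integral_pos_iff_support_of_nonneg_ae hnn ((integrable_const _).sub (hint 1))]
      have h5 : 0 < (trials p) {b | U b 1 = N} := by
        rw [measureReal_def] at hw
        exact (ENNReal.toReal_pos_iff.1 hw).1
      refine h5.trans_le (measure_mono fun b hb => ?_)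
      simp only [Function.mem_support]
      have hb' : U b 1 = N := hb
      rw [hb']
      linarith
    rw [integral_sub (integrable_const _) (hint 1)] at h4
    simp at h4
    exact h4

/-- the event that the chain from `m` survives -/
def Ev (m : ℤ) : Set (ℤ → ℕ → Bool) := {ω | ∀ j, Vc ω m j ≠ 0}

lemma measurableSet_Ev (m : ℤ) : MeasurableSet (Ev m) := by
  have : Ev m = ⋂ j, (fun ω => Vc ω m j) ⁻¹' {0}ᶜ := by
    ext ω; simp [Ev]
  rw [this]
  exact MeasurableSet.iInter fun j => measurable_Vc m j (MeasurableSet.singleton 0).compl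

lemma surv (he : Env (pr p))
    (hS : ∀ n : ℕ, 4 ≤ n → 1 + 20 / (20 + Real.log n) ≤ SS (pr p) n) :
    ∃ r : ℝ, 0 < r ∧ ∀ m, r ≤ (stk p).real (Ev m) := by
  obtain ⟨g, hg, hg0, hgx, hg1⟩ := exists_g he hS
  set q := ∫ b, g (U b 1) ∂trials p with hq
  refine ⟨1 - q, by linarith, fun m => ?_⟩
  have habs : ∀ n, |g n| ≤ 1 := fun n => by rw [abs_of_nonneg (hg n).1]; exact (hg n).2
  have hint : ∀ j, Integrable (fun ω => g (Vc ω m j)) (stk p) := fun j =>
    Integrable.of_bound ((Measurable.of_discrete (f := g)).comp (measurable_Vc m j)).aestronglyMeasurable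
      1 (ae_of_all _ fun b => habs _)
  have hle : ∀ j, ∫ ω, g (Vc ω m (j + 1)) ∂stk p ≤ q := by
    intro j
    induction j with
    | zero =>
      rw [integral_step p m 0 g 1 habs]
      have h0 : ∀ ω, Vc ω m 0 = 1 := fun ω => by unfold Vc; rfl
      simp_rw [h0]
      simp [hq]
    | succ j ih =>
      rw [integral_step p m (j + 1) g 1 habs]
      refine le_trans (integral_mono ?_ (hint _) fun ω => hgx _) ih
      refine Integrable.of_bound ?_ 1 (ae_of_all _ fun ω => ?_)
      · exact ((Measurable.of_discrete (f := fun v : ℕ => ∫ b, g (U b v) ∂trials p)).comp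
          (measurable_Vc m (j + 1))).aestronglyMeasurable
      · rw [Real.norm_eq_abs, abs_of_nonneg (integral_nonneg fun b => (hg _).1)]
        exact (hgx _).trans (hg _).2
  have hdie : ∀ j, (stk p).real {ω | Vc ω m j = 0} ≤ q := by
    intro j
    have hmono : {ω | Vc ω m j = 0} ⊆ {ω | Vc ω m (j + 1) = 0} := by
      intro ω hω
      have h0 : Vc ω m j = 0 := hω
      show Vc ω m (j + 1) = 0
      rw [Vc_succ, h0, U_zero]
    refine (measureReal_mono hmono (measure_ne_top _ _)).trans ?_
    refine le_trans ?_ (hle j)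
    have hms : MeasurableSet {ω : ℤ → ℕ → Bool | Vc ω m (j + 1) = 0} :=
      measurable_Vc m (j + 1) (MeasurableSet.singleton 0)
    rw [← integral_indicator_one hms]
    refine integral_mono ((integrable_const _).indicator hms) (hint _) fun ω => ?_
    by_cases h : Vc ω m (j + 1) = 0
    · rw [Set.indicator_of_mem (by exact h)]
      simp only [Pi.one_apply]
      rw [h, hg0]
    · rw [Set.indicator_of_notMem (by exact h)]
      exact (hg _).1
  -- complement
  have hcompl : (stk p).real (Ev m)ᶜ ≤ q := by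
    have h1 : (Ev m)ᶜ = ⋃ j, {ω | Vc ω m j = 0} := by
      ext ω; simp [Ev]
    have hmono : Monotone fun j => {ω : ℤ → ℕ → Bool | Vc ω m j = 0} := by
      refine monotone_nat_of_le_succ fun j ω hω => ?_
      have h0 : Vc ω m j = 0 := hω
      show Vc ω m (j + 1) = 0
      rw [Vc_succ, h0, U_zero]
    have h2 := tendsto_measure_iUnion_atTop (μ := stk p) hmono
    rw [h1]
    have h3 := (ENNReal.tendsto_toReal (measure_ne_top (stk p) _)).comp h2
    exact le_of_tendsto h3 (Eventually.of_forall fun j => hdie j)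
  have := probReal_compl_eq_one_sub (μ := stk p) (measurableSet_Ev m)
  linarith

end Pool.Agent.J6H44.ERW
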