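import Pool.Agent.J6H44.ERW.Surv

open MeasureTheory ProbabilityTheory Filter Topology Finset

namespace Pool.Agent.J6H44.ERW

variable {p : Cookies}

/-- information in the stack of the site `n` -/
@[reducible] def sg (n : ℕ) : MeasurableSpace (ℤ → ℕ → Bool) :=
  MeasurableSpace.comap (fun ω => ω (n : ℤ)) inferInstance

lemma sg_le (n : ℕ) : sg n ≤ (inferInstance : MeasurableSpace (ℤ → ℕ → Bool)) :=
  (measurable_pi_apply (X := fun _ : ℤ => ℕ → Bool) (n : ℤ)).comap_le

lemma indep_sg : iIndep sg (stk p) := by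
  have h := (indep_stk p).precomp (g := fun n : ℕ => (n : ℤ)) Nat.cast_injective
  exact h

/-- information in the stacks of the sites `≥ n` -/
@[reducible] def tl (n : ℕ) : MeasurableSpace (ℤ → ℕ → Bool) := ⨆ i ≥ n, sg i

lemma meas_coord (n i : ℕ) (h : n ≤ i) :
    Measurable[tl n] (fun ω : ℤ → ℕ → Bool => ω (i : ℤ)) := by
  have h1 : Measurable[sg i] (fun ω : ℤ → ℕ → Bool => ω (i : ℤ)) := comap_measurable _
  exact h1.mono (le_iSup₂_of_le i h le_rfl) le_rfl

lemma meas_Vc_tl (n m : ℕ) (h : n ≤ m) (j : ℕ) :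
    Measurable[tl n] (fun ω : ℤ → ℕ → Bool => Vc ω m j) := by
  induction j with
  | zero => exact @measurable_const _ _ _ (tl n) _
  | succ j ih =>
    have h1 := meas_coord n (m + j) (by omega)
    have e : (((m + j : ℕ) : ℤ)) = (m : ℤ) + (j : ℤ) := by push_cast; rfl
    rw [e] at h1
    have h2 : Measurable[tl n] (fun ω : ℤ → ℕ → Bool => (ω ((m : ℤ) + j), Vc ω m j)) :=
      h1.prodMk ih
    have h3 := @Measurable.comp _ _ _ (tl n) _ _ _ _ measurable_U' h2
    exact h3

lemma meas_Ev_tl (n m : ℕ) (h : n ≤ m) : MeasurableSet[tl n] (Ev (m : ℤ)) := by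
  have : Ev (m : ℤ) = ⋂ j, (fun ω => Vc ω m j) ⁻¹' {0}ᶜ := by
    ext ω; simp [Ev]
  rw [this]
  exact @MeasurableSet.iInter _ _ (tl n) _ _ fun j =>
    meas_Vc_tl n m h j (MeasurableSet.singleton 0).compl

/-- almost surely the chain survives from infinitely many sites -/
theorem ae_frequently (he : Env (pr p))
    (hS : ∀ n : ℕ, 4 ≤ n → 1 + 20 / (20 + Real.log n) ≤ SS (pr p) n) :
    ∀ᵐ ω ∂stk p, ∀ n : ℕ, ∃ m : ℕ, n ≤ m ∧ ω ∈ Ev (m : ℤ) := by
  obtain ⟨r, hr, hrm⟩ := surv he hS
  set B : ℕ → Set (ℤ → ℕ → Bool) := fun n => ⋃ m ≥ n, Ev (m : ℤ) with hB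
  have hBanti : Antitone B := by
    intro a b hab ω hω
    simp only [hB, Set.mem_iUnion] at hω ⊢
    obtain ⟨m, hm, h⟩ := hω
    exact ⟨m, le_trans hab hm, h⟩
  set A : Set (ℤ → ℕ → Bool) := ⋂ n, B n with hA
  have hBm : ∀ n, MeasurableSet (B n) := fun n =>
    MeasurableSet.iUnion fun m => MeasurableSet.iUnion fun _ => measurableSet_Ev m
  have hAtail : MeasurableSet[limsup sg atTop] A := by
    rw [limsup_eq_iInf_iSup_of_nat, MeasurableSpace.measurableSet_iInf]
    intro n
    have : A = ⋂ k, B (n + k) := by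
      rw [hA]
      apply le_antisymm
      · exact Set.subset_iInter fun k => Set.iInter_subset _ _
      · exact Set.subset_iInter fun k => (Set.iInter_subset _ k).trans (hBanti (by omega))
    rw [this]
    refine @MeasurableSet.iInter _ _ (⨆ i ≥ n, sg i) _ _ fun k => ?_
    simp only [hB]
    refine @MeasurableSet.iUnion _ _ (⨆ i ≥ n, sg i) _ _ fun m => ?_
    refine @MeasurableSet.iUnion _ _ (⨆ i ≥ n, sg i) _ _ fun hm => ?_
    exact meas_Ev_tl n m (by omega)
  have h01 := measure_zero_or_one_of_measurableSet_limsup_atTop sg_le (indep_sg (p := p)) hAtail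
  have hlow : ENNReal.ofReal r ≤ stk p A := by
    have h1 := tendsto_measure_iInter_atTop (μ := stk p) (fun n => (hBm n).nullMeasurableSet) hBanti
      ⟨0, measure_ne_top _ _⟩
    refine ge_of_tendsto h1 (Eventually.of_forall fun n => ?_)
    have h2 : Ev (n : ℤ) ⊆ B n := by
      intro ω hω
      simp only [hB, Set.mem_iUnion]
      exact ⟨n, le_rfl, hω⟩
    refine le_trans ?_ (measure_mono h2)
    rw [← ofReal_measureReal]
    exact ENNReal.ofReal_le_ofReal (hrm n)
  have hA1 : stk p A = 1 := by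
    rcases h01 with h | h
    · rw [h] at hlow
      have : ENNReal.ofReal r = 0 := nonpos_iff_eq_zero.1 hlow
      rw [ENNReal.ofReal_eq_zero] at this
      linarith
    · exact h
  have hAm : MeasurableSet A := MeasurableSet.iInter hBm
  have h2 := (prob_compl_eq_zero_iff hAm).2 hA1
  rw [ae_iff]
  refine measure_mono_null (fun ω hω => ?_) h2
  intro hc
  apply hω
  intro n
  have := Set.mem_iInter.1 hc n
  simp only [hB, Set.mem_iUnion] at this
  obtain ⟨m, hm, h⟩ := this
  exact ⟨m, hm, h⟩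

end Pool.Agent.J6H44.ERW
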