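import Pool.Agent.J6H44.ERW.Defs
import Pool.Agent.J6H44.ERW.EnvEx

open MeasureTheory ProbabilityTheory Filter Topology Finset

namespace Pool.Agent.J6H44.ERW

instance (p : Cookies) : IsProbabilityMeasure (trials p) := by unfold trials; infer_instance

lemma fails_succ (b : ℕ → Bool) (n : ℕ) :
    fails b (n + 1) = fails b n + if b n = false then 1 else 0 := by
  unfold fails
  rw [card_filter, card_filter, sum_range_succ]

lemma succs_succ (b : ℕ → Bool) (n : ℕ) :
    succs b (n + 1) = succs b n + if b n = true then 1 else 0 := by
  unfold succs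
  rw [card_filter, card_filter, sum_range_succ]

@[simp] lemma fails_zero (b : ℕ → Bool) : fails b 0 = 0 := by simp [fails]
@[simp] lemma succs_zero (b : ℕ → Bool) : succs b 0 = 0 := by simp [succs]

lemma succs_add_fails (b : ℕ → Bool) (n : ℕ) : succs b n + fails b n = n := by
  induction n with
  | zero => simp
  | succ n ih =>
    rw [succs_succ, fails_succ]
    cases b n <;> simp <;> omega

lemma fails_mono (b : ℕ → Bool) : Monotone (fails b) :=
  monotone_nat_of_le_succ fun n => by rw [fails_succ]; omega

lemma succs_mono (b : ℕ → Bool) : Monotone (succs b) :=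
  monotone_nat_of_le_succ fun n => by rw [succs_succ]; omega

@[simp] lemma T_zero (b : ℕ → Bool) : T b 0 = 0 := by
  unfold T
  exact Nat.sInf_eq_zero.2 (Or.inl (by simp))

@[simp] lemma U_zero (b : ℕ → Bool) : U b 0 = 0 := by simp [U]

/-- if there are `x` failures in the first `n` trials then the `x`-th failure is one of them -/
lemma T_le (b : ℕ → Bool) (x n : ℕ) (h : x ≤ fails b n) : T b x ≤ n ∧ fails b (T b x) = x := by
  induction n with
  | zero =>
    have : x = 0 := by simpa using h
    subst this
    simp
  | succ n ih =>
    rcases Nat.lt_or_ge (fails b n) x with h1 | h1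
    · have h2 : fails b (n + 1) = x := by
        rw [fails_succ] at h ⊢
        split_ifs at h ⊢ <;> omega
      have h3 : (n + 1) ∈ {n | fails b n = x} := h2
      exact ⟨Nat.sInf_le h3, Nat.sInf_mem ⟨_, h3⟩⟩
    · have := ih h1
      exact ⟨by omega, this.2⟩

lemma U_le (b : ℕ → Bool) (x n : ℕ) (h : x ≤ fails b n) : U b x ≤ succs b n :=
  succs_mono b (T_le b x n h).1

lemma T_eq_iff (b : ℕ → Bool) (X m : ℕ) : T b (X + 1) = m + 1 ↔ fails b m = X ∧ b m = false := by
  constructor
  · intro h
    have hne : {n | fails b n = X + 1}.Nonempty := by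
      by_contra hc
      rw [Set.not_nonempty_iff_eq_empty] at hc
      unfold T at h
      rw [hc] at h
      simp at h
    have h1 : fails b (m + 1) = X + 1 := by
      have := Nat.sInf_mem hne
      unfold T at h
      rw [h] at this
      exact this
    have h2 : fails b m ≠ X + 1 := by
      intro hc
      have : T b (X + 1) ≤ m := Nat.sInf_le hc
      omega
    rw [fails_succ] at h1
    split_ifs at h1 with h3
    · exact ⟨by omega, h3⟩
    · omega
  · rintro ⟨h1, h2⟩
    have h3 : fails b (m + 1) = X + 1 := by rw [fails_succ, if_pos h2, h1]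
    have h4 := T_le b (X + 1) (m + 1) h3.ge
    refine le_antisymm h4.1 ?_
    by_contra hc
    have h5 : fails b (T b (X + 1)) ≤ fails b m := fails_mono b (by omega)
    omega

lemma U_eq (b : ℕ → Bool) (X m : ℕ) (h : T b (X + 1) = m + 1) : U b (X + 1) = m - X := by
  have h1 := (T_eq_iff b X m).1 h
  unfold U
  rw [h, succs_succ, h1.2]
  have := succs_add_fails b m
  simp
  omega

section law

variable (p : Cookies)

/-- the cookies as real numbers -/
noncomputable def pr (p : Cookies) : ℕ → ℝ := fun i => (p i : ℝ)

lemma pr_mem (p : Cookies) : ∀ k, 1 ≤ k → 0 ≤ pr p k ∧ pr p k ≤ 1 := fun k _ => (p k).2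

lemma measurable_fails (n : ℕ) : Measurable fun b => fails b n := by
  induction n with
  | zero => simp
  | succ n ih =>
    simp_rw [fails_succ]
    refine ih.add ?_
    exact (Measurable.of_discrete (f := fun c : Bool => if c = false then 1 else 0)).comp
      (measurable_pi_apply n)

lemma measurable_succs (n : ℕ) : Measurable fun b => succs b n := by
  induction n with
  | zero => simp
  | succ n ih =>
    simp_rw [succs_succ]
    refine ih.add ?_
    exact (Measurable.of_discrete (f := fun c : Bool => if c = true then 1 else 0)).comp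
      (measurable_pi_apply n)

lemma indep_fails (n : ℕ) : IndepFun (fun b => fails b n) (fun b => b n) (trials p) := by
  have h1 : iIndepFun (fun (i : ℕ) (ω : ℕ → Bool) => ω i) (trials p) :=
    iIndepFun_infinitePi (P := fun i => bernoulliMeasure true false (p (i + 1)))
      (X := fun _ x => x) (fun _ => measurable_id)
  have h2 := h1.indepFun_finset (range n) {n} (by simp) (fun i => measurable_pi_apply i)
  have hφ : Measurable (fun g : range n → Bool => ∑ i : range n, if g i = false then 1 else 0) :=
    Finset.measurable_sum _ fun i _ =>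
      (Measurable.of_discrete (f := fun c : Bool => if c = false then (1:ℕ) else 0)).comp
        (measurable_pi_apply i)
  have hψ : Measurable (fun g : ({n} : Finset ℕ) → Bool => g ⟨n, by simp⟩) :=
    measurable_pi_apply _
  have h3 := h2.comp hφ hψ
  have e : (fun b : ℕ → Bool => fails b n) =
      (fun g : range n → Bool => ∑ i : range n, if g i = false then 1 else 0) ∘
      fun (a : ℕ → Bool) (i : range n) => a i := by
    funext b
    simp only [Function.comp_apply, fails]
    rw [card_filter]
    exact (Finset.sum_coe_sort (range n) (fun i => if b i = false then 1 else 0)).symm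
  rw [e]
  exact h3

lemma trials_true (n : ℕ) : (trials p).real {b | b n = true} = pr p (n + 1) := by
  have : (trials p).real {b | b n = true} =
      ((trials p).map (fun b => b n)).real {true} := by
    rw [map_measureReal_apply (measurable_pi_apply n) (by simp)]; rfl
  rw [this, trials, Measure.infinitePi_map_eval]
  rw [bernoulliMeasure_real_apply_of_mem_of_notMem _ (by simp) (by simp) (by simp)]
  rfl

lemma trials_false (n : ℕ) : (trials p).real {b | b n = false} = 1 - pr p (n + 1) := by
  have : (trials p).real {b | b n = false} =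
      ((trials p).map (fun b => b n)).real {false} := by
    rw [map_measureReal_apply (measurable_pi_apply n) (by simp)]; rfl
  rw [this, trials, Measure.infinitePi_map_eval]
  rw [bernoulliMeasure_real_apply_of_notMem_of_mem _ (by simp) (by simp) (by simp)]
  rfl

lemma prob_and (n j : ℕ) (c : Bool) : (trials p).real {b | fails b n = j ∧ b n = c} =
    (trials p).real {b | fails b n = j} * (trials p).real {b | b n = c} := by
  have h := (indep_fails p n).measure_inter_preimage_eq_mul {j} {c} (by simp) (by simp)
  have := congrArg ENNReal.toReal h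
  rw [ENNReal.toReal_mul] at this
  exact this

lemma measurable_and (n j : ℕ) (c : Bool) :
    MeasurableSet {b : ℕ → Bool | fails b n = j ∧ b n = c} := by
  have h1 : MeasurableSet ((fun b : ℕ → Bool => fails b n) ⁻¹' {j}) :=
    (measurable_fails n) (MeasurableSet.singleton j)
  have h2 : MeasurableSet ((fun b : ℕ → Bool => b n) ⁻¹' {c}) :=
    (measurable_pi_apply n) (MeasurableSet.singleton c)
  exact h1.inter h2

lemma prob_fails : ∀ n j, (trials p).real {b | fails b n = j} = fl (pr p) n j := by
  intro n
  induction n with
  | zero =>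
    intro j
    rcases j with _ | j
    · simp [fl]
    · have : {b : ℕ → Bool | fails b 0 = j + 1} = ∅ := by ext b; simp
      rw [this]; simp [fl]
  | succ n ih =>
    intro j
    have hm := measurable_and n
    rcases j with _ | j
    · have : {b : ℕ → Bool | fails b (n + 1) = 0} = {b | fails b n = 0 ∧ b n = true} := by
        ext b
        simp only [Set.mem_setOf_eq, fails_succ]
        cases b n <;> simp
      rw [this, prob_and, ih, trials_true]
      simp only [fl]; ring
    · have : {b : ℕ → Bool | fails b (n + 1) = j + 1} =
          {b | fails b n = j + 1 ∧ b n = true} ∪ {b | fails b n = j ∧ b n = false} := by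
        ext b
        simp only [Set.mem_setOf_eq, Set.mem_union, fails_succ]
        cases b n <;> simp
      rw [this, measureReal_union _ (hm _ _), prob_and, prob_and, ih, ih, trials_true, trials_false]
      · simp only [fl]; ring
      · rw [Set.disjoint_left]
        rintro b ⟨_, h1⟩ ⟨_, h2⟩
        rw [h1] at h2
        simp at h2

/-- law of the index of the `X + 1`-st failure -/
lemma prob_T (X m : ℕ) : (trials p).real {b | T b (X + 1) = m + 1} = ww (pr p) X m := by
  simp_rw [T_eq_iff]
  rw [prob_and, prob_fails, trials_false, ww]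

lemma measurable_T (x : ℕ) : Measurable fun b => T b x := by
  rcases x with _ | X
  · simp
  · refine measurable_to_countable' fun n => ?_
    have hm1 : ∀ m, MeasurableSet {b : ℕ → Bool | T b (X + 1) = m + 1} := by
      intro m
      simp_rw [T_eq_iff]
      exact measurable_and m X false
    rcases n with _ | m
    · have : (fun b : ℕ → Bool => T b (X + 1)) ⁻¹' {0} = (⋃ m, {b | T b (X + 1) = m + 1})ᶜ := by
        ext b
        simp only [Set.mem_preimage, Set.mem_singleton_iff, Set.mem_compl_iff, Set.mem_iUnion,
          Set.mem_setOf_eq, not_exists]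
        constructor
        · intro h m; omega
        · intro h
          by_contra hc
          exact h (T b (X + 1) - 1) (by omega)
      rw [this]
      exact (MeasurableSet.iUnion hm1).compl
    · exact hm1 m

lemma measurable_U (x : ℕ) : Measurable fun b => U b x := by
  have h : Measurable fun q : ℕ × (ℕ → Bool) => succs q.2 q.1 :=
    measurable_from_prod_countable_right fun n => measurable_succs n
  exact h.comp ((measurable_T x).prodMk measurable_id)

variable {p} (hp : ∀ k, 1 ≤ k → 1 / 4 ≤ pr p k ∧ pr p k ≤ 3 / 4)
include hp

lemma ae_T (X : ℕ) : ∀ᵐ b ∂trials p, ∃ m, T b (X + 1) = m + 1 := by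
  have h1 : HasSum (fun m => (trials p).real {b | T b (X + 1) = m + 1}) 1 := by
    simp_rw [prob_T]; exact hasSum_ww hp X
  have h2 : (trials p) (⋃ m, {b | T b (X + 1) = m + 1}) = 1 := by
    rw [measure_iUnion]
    · have h3 : ∀ m, (trials p) {b | T b (X + 1) = m + 1} =
          ENNReal.ofReal ((trials p).real {b | T b (X + 1) = m + 1}) := fun m => by
        rw [ofReal_measureReal]
      simp_rw [h3]
      rw [← ENNReal.ofReal_tsum_of_nonneg (fun _ => measureReal_nonneg) h1.summable, h1.tsum_eq]
      simp
    · intro a b hab
      rw [Function.onFun, Set.disjoint_left]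
      intro c h4 h5
      simp only [Set.mem_setOf_eq] at h4 h5
      omega
    · intro m
      exact (measurable_T (X + 1)) (MeasurableSet.singleton (m + 1))
  have h6 := (prob_compl_eq_zero_iff (MeasurableSet.iUnion fun m =>
    (measurable_T (X + 1)) (MeasurableSet.singleton (m + 1)))).2 h2
  rw [ae_iff]
  refine measure_mono_null (fun b hb => ?_) h6
  simp only [Set.mem_setOf_eq, not_exists] at hb
  simp only [Set.mem_compl_iff, Set.mem_iUnion, Set.mem_preimage, Set.mem_singleton_iff, not_exists]
  exact hb

/-- expectation of a function of `T(x)` -/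
lemma integral_T (X : ℕ) (h : ℕ → ℝ) (hs : Summable fun m => ww (pr p) X m * |h (m + 1)|) :
    Integrable (fun b => h (T b (X + 1))) (trials p) ∧
    ∫ b, h (T b (X + 1)) ∂trials p = ∑' m, ww (pr p) X m * h (m + 1) := by
  set μ : Measure ℕ := (trials p).map (fun b => T b (X + 1)) with hμ
  have hTm := (measurable_T (X + 1))
  have hp1 : IsProbabilityMeasure μ := Measure.isProbabilityMeasure_map hTm.aemeasurable
  have h0 : μ {0} = 0 := by
    rw [hμ, Measure.map_apply hTm (by simp)]
    have := ae_T hp X
    rw [ae_iff] at this
    refine measure_mono_null (fun b hb => ?_) this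
    simp only [Set.mem_preimage, Set.mem_singleton_iff] at hb
    simp only [Set.mem_setOf_eq, not_exists]
    intro m; omega
  have hs1 : ∀ m, μ {m + 1} = ENNReal.ofReal (ww (pr p) X m) := fun m => by
    rw [hμ, Measure.map_apply hTm (by simp), ← prob_T, ofReal_measureReal]; rfl
  have hint : Integrable h μ := by
    refine ⟨Measurable.of_discrete.aestronglyMeasurable, ?_⟩
    have hx : ∀ m, ‖h (m + 1)‖ₑ * μ {m + 1} = ENNReal.ofReal (ww (pr p) X m * |h (m + 1)|) := by
      intro m
      rw [hs1, ← ofReal_norm_eq_enorm, ← ENNReal.ofReal_mul (norm_nonneg _), mul_comm]; rfl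
    have hy : ∑' m, ‖h m‖ₑ * μ {m} = ENNReal.ofReal (∑' m, ww (pr p) X m * |h (m + 1)|) := by
      rw [tsum_eq_zero_add' ENNReal.summable, h0, mul_zero, zero_add,
        ENNReal.ofReal_tsum_of_nonneg
          (fun m => mul_nonneg (ww_nonneg (hp01 hp) X m) (abs_nonneg _)) hs]
      exact tsum_congr hx
    rw [HasFiniteIntegral, lintegral_countable', hy]
    exact ENNReal.ofReal_lt_top
  refine ⟨(integrable_map_measure hint.1 hTm.aemeasurable).1 hint, ?_⟩
  have hr0 : μ.real {0} = 0 := by rw [measureReal_def, h0]; simp
  have hr1 : ∀ m, μ.real {m + 1} • h (m + 1) = ww (pr p) X m * h (m + 1) := fun m => by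
    rw [measureReal_def, hs1, ENNReal.toReal_ofReal (ww_nonneg (hp01 hp) X m), smul_eq_mul]
  have hs2 : Summable fun m => ww (pr p) X m * h (m + 1) := by
    refine Summable.of_norm ?_
    refine hs.congr fun m => ?_
    rw [Real.norm_eq_abs, abs_mul, abs_of_nonneg (ww_nonneg (hp01 hp) X m)]
  have hs3 : Summable fun m => μ.real {m} • h m := by
    rw [← summable_nat_add_iff 1]
    exact hs2.congr fun m => (hr1 m).symm
  have e1 : ∫ b, h (T b (X + 1)) ∂trials p = ∫ t, h t ∂μ :=
    (integral_map hTm.aemeasurable hint.1).symm
  rw [e1, integral_countable hint, hs3.tsum_eq_zero_add, hr0, zero_smul, zero_add]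
  exact tsum_congr hr1

end law

end Pool.Agent.J6H44.ERW
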