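import Pool.Agent.J6H44.ERW.Trials

open MeasureTheory ProbabilityTheory Filter Topology Finset

namespace Pool.Agent.J6H44.ERW

variable {p : Cookies}

lemma U_real (b : ℕ → Bool) (X : ℕ) (h : ∃ m, T b (X + 1) = m + 1) :
    (U b (X + 1) : ℝ) = (T b (X + 1) : ℝ) - (X + 1) := by
  obtain ⟨m, hm⟩ := h
  have h1 := (T_eq_iff b X m).1 hm
  have h2 : X ≤ m := by
    have := succs_add_fails b m
    omega
  rw [U_eq b X m hm, hm]
  push_cast [Nat.cast_sub h2]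
  ring

section

variable (hp : ∀ k, 1 ≤ k → 1 / 4 ≤ pr p k ∧ pr p k ≤ 3 / 4)
include hp

/-- expectation of a function of `U(x)` -/
lemma integral_U_bd (X : ℕ) (g : ℕ → ℝ) (C : ℝ) (hg : ∀ n, |g n| ≤ C) :
    ∫ b, g (U b (X + 1)) ∂trials p = ∑' m, ww (pr p) X m * g (m - X) := by
  have hC : 0 ≤ C := (abs_nonneg _).trans (hg 0)
  have h1 := integral_T hp X (fun t => g (t - 1 - X)) (by
    refine Summable.of_nonneg_of_le (fun m => mul_nonneg (ww_nonneg (hp01 hp) X m) (abs_nonneg _))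
      (fun m => mul_le_mul_of_nonneg_left (hg _) (ww_nonneg (hp01 hp) X m)) ?_
    exact (hasSum_ww hp X).summable.mul_right C)
  have h2 : ∫ b, g (U b (X + 1)) ∂trials p = ∫ b, g (T b (X + 1) - 1 - X) ∂trials p := by
    refine integral_congr_ae ?_
    filter_upwards [ae_T hp X] with b hb
    obtain ⟨m, hm⟩ := hb
    rw [U_eq b X m hm, hm, Nat.add_sub_cancel]
  rw [h2, h1.2]
  refine tsum_congr fun m => ?_
  rw [Nat.add_sub_cancel]

lemma int_D (X : ℕ) : Integrable (fun b => (U b (X + 1) : ℝ) - ((X + 1 : ℕ) : ℝ)) (trials p) ∧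
    ∫ b, ((U b (X + 1) : ℝ) - ((X + 1 : ℕ) : ℝ)) ∂trials p = rho (pr p) X := by
  have hs : Summable fun m => ww (pr p) X m * |DD X m| :=
    ((summable_wD hp X).norm).congr fun m => by
      rw [Real.norm_eq_abs, abs_mul, abs_of_nonneg (ww_nonneg (hp01 hp) X m)]
  have h1 := integral_T hp X (fun t => (t : ℝ) - 2 * ((X : ℝ) + 1)) (by
    refine hs.congr fun m => ?_
    simp only [DD]; push_cast; rfl)
  have h2 : (fun b => (U b (X + 1) : ℝ) - ((X + 1 : ℕ) : ℝ)) =ᵐ[trials p]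
      fun b => ((T b (X + 1) : ℕ) : ℝ) - 2 * ((X : ℝ) + 1) := by
    filter_upwards [ae_T hp X] with b hb
    rw [U_real b X hb]; push_cast; ring
  refine ⟨h1.1.congr h2.symm, ?_⟩
  rw [integral_congr_ae h2, h1.2, rho]
  refine tsum_congr fun m => ?_
  simp only [DD]; push_cast; rfl

lemma int_D2 (X : ℕ) :
    Integrable (fun b => ((U b (X + 1) : ℝ) - ((X + 1 : ℕ) : ℝ)) ^ 2) (trials p) ∧
    (∫ b, ((U b (X + 1) : ℝ) - ((X + 1 : ℕ) : ℝ)) ^ 2 ∂trials p) / ((X + 1 : ℕ) : ℝ)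
      = nu (pr p) X := by
  have hs : Summable fun m => ww (pr p) X m * |DD X m ^ 2| :=
    (summable_wD2 hp X).congr fun m => by rw [abs_of_nonneg (sq_nonneg _)]
  have h1 := integral_T hp X (fun t => ((t : ℝ) - 2 * ((X : ℝ) + 1)) ^ 2) (by
    refine hs.congr fun m => ?_
    simp only [DD]; push_cast; rfl)
  have h2 : (fun b => ((U b (X + 1) : ℝ) - ((X + 1 : ℕ) : ℝ)) ^ 2) =ᵐ[trials p]
      fun b => (((T b (X + 1) : ℕ) : ℝ) - 2 * ((X : ℝ) + 1)) ^ 2 := by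
    filter_upwards [ae_T hp X] with b hb
    rw [U_real b X hb]; push_cast; ring
  refine ⟨h1.1.congr h2.symm, ?_⟩
  rw [integral_congr_ae h2, h1.2, nu]
  have : ((X + 1 : ℕ) : ℝ) = (X : ℝ) + 1 := by push_cast; rfl
  rw [this]
  congr 1
  refine tsum_congr fun m => ?_
  simp only [DD]; push_cast; rfl

lemma integrable_U (x : ℕ) : Integrable (fun b => (U b x : ℝ)) (trials p) := by
  rcases x with _ | X
  · simp
  · have := (int_D hp X).1.add (integrable_const ((X + 1 : ℕ) : ℝ))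
    refine this.congr (ae_of_all _ fun b => ?_)
    simp

lemma integrable_U2 (x : ℕ) : Integrable (fun b => ((U b x : ℝ) - x) ^ 2) (trials p) := by
  rcases x with _ | X
  · simp
  · exact (int_D2 hp X).1

end

/-- `μ = 1` and `θ = 1` -/
theorem limits (he : Env (pr p)) :
    Tendsto (fun x : ℕ => (∫ b, (U b x : ℝ) ∂trials p) / x) atTop (𝓝 1) ∧
    Tendsto (fun x : ℕ => 2 * (∫ b, ((U b x : ℝ) - x) ∂trials p) /
      ((∫ b, ((U b x : ℝ) - x) ^ 2 ∂trials p) / x)) atTop (𝓝 1) := by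
  have hp := he.hp
  constructor
  · rw [← tendsto_add_atTop_iff_nat 1]
    have h1 : ∀ X : ℕ, (∫ b, (U b (X + 1) : ℝ) ∂trials p) / ((X + 1 : ℕ) : ℝ) =
        1 + rho (pr p) X / ((X + 1 : ℕ) : ℝ) := by
      intro X
      have h2 : ∫ b, (U b (X + 1) : ℝ) ∂trials p = rho (pr p) X + ((X + 1 : ℕ) : ℝ) := by
        rw [← (int_D hp X).2, integral_sub (integrable_U hp (X + 1)) (integrable_const _)]
        simp
      rw [h2]
      have : ((X + 1 : ℕ) : ℝ) ≠ 0 := by positivity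
      field_simp
      ring
    simp_rw [h1]
    have h3 : Tendsto (fun X : ℕ => rho (pr p) X / ((X + 1 : ℕ) : ℝ)) atTop (𝓝 0) := by
      refine (rho_lim he).div_atTop ?_
      exact tendsto_natCast_atTop_atTop.comp (tendsto_add_atTop_nat 1)
    simpa using h3.const_add 1
  · rw [← tendsto_add_atTop_iff_nat 1]
    have h1 : ∀ X : ℕ, 2 * (∫ b, ((U b (X + 1) : ℝ) - ((X + 1 : ℕ) : ℝ)) ∂trials p) /
      ((∫ b, ((U b (X + 1) : ℝ) - ((X + 1 : ℕ) : ℝ)) ^ 2 ∂trials p) / ((X + 1 : ℕ) : ℝ)) =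
      2 * rho (pr p) X / nu (pr p) X := by
      intro X
      rw [(int_D hp X).2, (int_D2 hp X).2]
    simp_rw [h1]
    have h2 : Tendsto (fun X => 2 * rho (pr p) X / nu (pr p) X) atTop (𝓝 (2 * 1 / 2)) :=
      ((rho_lim he).const_mul 2).div (nu_lim he) (by norm_num)
    have e : (2 * 1 / 2 : ℝ) = 1 := by norm_num
    rwa [e] at h2

/-- the Lyapunov property in terms of `U` -/
theorem lyap_U (he : Env (pr p))
    (hS : ∀ n : ℕ, 4 ≤ n → 1 + 20 / (20 + Real.log n) ≤ SS (pr p) n) :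
    ∃ x₀ : ℕ, 1 ≤ x₀ ∧ ∀ x, x₀ ≤ x → ∫ b, lyf (U b x) ∂trials p ≤ lyf x := by
  obtain ⟨X₀, hX₀⟩ := lyap he hS
  refine ⟨X₀ + 1, by omega, fun x hx => ?_⟩
  obtain ⟨X, rfl⟩ : ∃ X, x = X + 1 := ⟨x - 1, by omega⟩
  rw [integral_U_bd he.hp X lyf (lyf 0) fun n => by
    rw [abs_of_pos (lyf_pos n)]; exact lyf_anti (Nat.zero_le n)]
  exact hX₀ X (by omega)

end Pool.Agent.J6H44.ERW
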