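import Pool.Agent.J6H44.ERW.Mart

open MeasureTheory ProbabilityTheory Filter Topology Finset

namespace Pool.Agent.J6H44.ERW

/-- probability of a path -/
noncomputable def pp (p : Cookies) (x : ℕ → ℤ) : ℕ → ℝ
  | 0 => if x 0 = 0 then 1 else 0
  | n + 1 => (if x (n + 1) = x n + 1 then (p (visits x n) : ℝ) else
      if x (n + 1) = x n - 1 then 1 - (p (visits x n) : ℝ) else 0) * pp p x n

variable {p : Cookies} {Ω : Type} [MeasurableSpace Ω] {P : Measure Ω} {X : ℕ → Ω → ℤ}

lemma meas_path (h : IsERW p P X) (x : ℕ → ℤ) (n : ℕ) :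
    MeasurableSet {ω | ∀ k ≤ n, X k ω = x k} := by
  have : {ω | ∀ k ≤ n, X k ω = x k} = ⋂ k, ⋂ (_ : k ≤ n), (fun ω => X k ω) ⁻¹' {x k} := by
    ext ω; simp
  rw [this]
  exact MeasurableSet.iInter fun k => MeasurableSet.iInter fun _ =>
    h.meas k (MeasurableSet.singleton _)

lemma path_prob [IsProbabilityMeasure P] (h : IsERW p P X) (x : ℕ → ℤ) (n : ℕ) :
    P.real {ω | ∀ k ≤ n, X k ω = x k} = pp p x n := by
  induction n with
  | zero =>
    rw [pp]
    have e : {ω | ∀ k ≤ 0, X k ω = x k} = {ω | X 0 ω = x 0} := by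
      ext ω; simp
    rw [e]
    split_ifs with h0
    · rw [h0]
      have h1 : P {ω | X 0 ω = 0}ᶜ = 0 := h.start
      have h2 := (prob_compl_eq_zero_iff (h.meas 0 (MeasurableSet.singleton 0))).1 h1
      rw [measureReal_def]
      have h3 : P {ω | X 0 ω = 0} = 1 := h2
      rw [h3]; simp
    · rw [measureReal_def]
      have h1 : P {ω | X 0 ω = x 0} = 0 := by
        have h2 : P {ω | ¬ X 0 ω = 0} = 0 := h.start
        refine measure_mono_null (fun ω hω => ?_) h2
        intro hc
        have hω' : X 0 ω = x 0 := hω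
        rw [hc] at hω'
        exact h0 hω'.symm
      rw [h1]; simp
  | succ n ih =>
    rw [pp, ← ih]
    have e : {ω | ∀ k ≤ n + 1, X k ω = x k} =
        {ω | (∀ k ≤ n, X k ω = x k) ∧ X (n + 1) ω = x (n + 1)} := by
      ext ω
      constructor
      · intro hω; exact ⟨fun k hk => hω k (by omega), hω (n + 1) le_rfl⟩
      · rintro ⟨h1, h2⟩ k hk
        rcases Nat.lt_or_ge k (n + 1) with hk' | hk'
        · exact h1 k (by omega)
        · rw [show k = n + 1 by omega]; exact h2
    rw [e]
    split_ifs with h1 h2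
    · rw [h1]; exact h.right n x
    · rw [h2]; exact h.left n x
    · rw [zero_mul]
      have hm : ∀ c : ℤ, MeasurableSet {ω | (∀ k ≤ n, X k ω = x k) ∧ X (n + 1) ω = c} := fun c =>
        (meas_path h x n).inter (h.meas (n + 1) (MeasurableSet.singleton c))
      have hd1 : Disjoint {ω | (∀ k ≤ n, X k ω = x k) ∧ X (n + 1) ω = x n + 1}
          {ω | (∀ k ≤ n, X k ω = x k) ∧ X (n + 1) ω = x n - 1} := by
        rw [Set.disjoint_left]
        rintro ω ⟨_, h3⟩ ⟨_, h4⟩
        omega
      have hd2 : Disjoint ({ω | (∀ k ≤ n, X k ω = x k) ∧ X (n + 1) ω = x n + 1} ∪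
          {ω | (∀ k ≤ n, X k ω = x k) ∧ X (n + 1) ω = x n - 1})
          {ω | (∀ k ≤ n, X k ω = x k) ∧ X (n + 1) ω = x (n + 1)} := by
        rw [Set.disjoint_left]
        rintro ω (⟨_, h3⟩ | ⟨_, h3⟩) ⟨_, h4⟩
        · exact h1 (h4.symm.trans h3)
        · exact h2 (h4.symm.trans h3)
      have h5 := measureReal_union (μ := P) hd1 (hm _)
      have h6 := measureReal_union (μ := P) hd2 (hm _)
      have h7 : P.real (({ω | (∀ k ≤ n, X k ω = x k) ∧ X (n + 1) ω = x n + 1} ∪
          {ω | (∀ k ≤ n, X k ω = x k) ∧ X (n + 1) ω = x n - 1}) ∪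
          {ω | (∀ k ≤ n, X k ω = x k) ∧ X (n + 1) ω = x (n + 1)}) ≤
          P.real {ω | ∀ k ≤ n, X k ω = x k} := by
        refine measureReal_mono ?_ (measure_ne_top _ _)
        rintro ω ((⟨h8, _⟩ | ⟨h8, _⟩) | ⟨h8, _⟩) <;> exact h8
      rw [h6, h5, h.right n x, h.left n x] at h7
      have h8 : (0 : ℝ) ≤ P.real {ω | (∀ k ≤ n, X k ω = x k) ∧ X (n + 1) ω = x (n + 1)} :=
        measureReal_nonneg
      linarith

/-- the path, as a random element -/
def path (X : ℕ → Ω → ℤ) (ω : Ω) : ℕ → ℤ := fun n => X n ω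

lemma measurable_path (h : IsERW p P X) : Measurable (path X) := measurable_pi_iff.2 h.meas

/-- extension of a path given on `{0, …, n}` -/
def exg {n : ℕ} (z : (range (n + 1)) → ℤ) (k : ℕ) : ℤ :=
  if h : k ∈ range (n + 1) then z ⟨k, h⟩ else 0

lemma map_eq {Ω' : Type} [MeasurableSpace Ω'] {P' : Measure Ω'} {X' : ℕ → Ω' → ℤ}
    [IsProbabilityMeasure P] [IsProbabilityMeasure P'] (h : IsERW p P X) (h' : IsERW p P' X') :
    P.map (path X) = P'.map (path X') := by
  have hm := measurable_path h
  have hm' := measurable_path h'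
  have : IsProbabilityMeasure (P.map (path X)) := Measure.isProbabilityMeasure_map hm.aemeasurable
  have : IsProbabilityMeasure (P'.map (path X')) := Measure.isProbabilityMeasure_map hm'.aemeasurable
  have hmr : ∀ I : Finset ℕ, Measurable (I.restrict (π := fun _ => ℤ)) := fun I =>
    Finset.measurable_restrict I
  have key : ∀ n : ℕ, (P.map (path X)).map ((range (n + 1)).restrict (π := fun _ => ℤ)) =
      (P'.map (path X')).map ((range (n + 1)).restrict (π := fun _ => ℤ)) := by
    intro n
    refine Measure.ext_of_singleton fun z => ?_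
    rw [Measure.map_apply (hmr _) (MeasurableSet.singleton z),
      Measure.map_apply (hmr _) (MeasurableSet.singleton z),
      Measure.map_apply hm ((hmr _) (MeasurableSet.singleton z)),
      Measure.map_apply hm' ((hmr _) (MeasurableSet.singleton z))]
    have e1 : path X ⁻¹' ((range (n + 1)).restrict (π := fun _ => ℤ) ⁻¹' {z}) =
        {ω | ∀ k ≤ n, X k ω = exg z k} := by
      ext ω
      simp only [Set.mem_preimage, Set.mem_singleton_iff]
      constructor
      · rintro rfl k hk
        have : k ∈ range (n + 1) := by simpa [Nat.lt_succ_iff] using hk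
        simp only [exg, this, dite_true]
        rfl
      · intro hω
        funext k
        have hk : (k : ℕ) ≤ n := by have := Finset.mem_range.1 k.2; omega
        have h2 : X k ω = exg z k := hω k hk
        simp only [exg, k.2, dite_true] at h2
        exact h2
    have e2 : path X' ⁻¹' ((range (n + 1)).restrict (π := fun _ => ℤ) ⁻¹' {z}) =
        {ω | ∀ k ≤ n, X' k ω = exg z k} := by
      ext ω
      simp only [Set.mem_preimage, Set.mem_singleton_iff]
      constructor
      · rintro rfl k hk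
        have : k ∈ range (n + 1) := by simpa [Nat.lt_succ_iff] using hk
        simp only [exg, this, dite_true]
        rfl
      · intro hω
        funext k
        have hk : (k : ℕ) ≤ n := by have := Finset.mem_range.1 k.2; omega
        have h2 : X' k ω = exg z k := hω k hk
        simp only [exg, k.2, dite_true] at h2
        exact h2
    rw [e1, e2]
    have h3 := path_prob h (exg z) n
    have h4 := path_prob h' (exg z) n
    rw [← ofReal_measureReal (μ := P), ← ofReal_measureReal (μ := P'), h3, h4]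
  have hl1 : IsProjectiveLimit (P.map (path X))
      (fun I : Finset ℕ => (P'.map (path X')).map (I.restrict (π := fun _ => ℤ))) := by
    intro I
    obtain ⟨n, hn⟩ : ∃ n, I ⊆ range (n + 1) := ⟨I.sup id, fun i hi => by
      have := Finset.le_sup (f := id) hi
      simp only [id] at this
      simpa [Nat.lt_succ_iff] using this⟩
    have e : (I.restrict (π := fun _ : ℕ => ℤ)) =
        (Finset.restrict₂ (π := fun _ : ℕ => ℤ) hn) ∘ ((range (n + 1)).restrict (π := fun _ => ℤ)) := rfl
    have hm2 : Measurable (Finset.restrict₂ (π := fun _ : ℕ => ℤ) hn) :=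
      Finset.measurable_restrict₂ (X := fun _ : ℕ => ℤ) hn
    have hm3 := hmr (range (n + 1))
    show (P.map (path X)).map I.restrict = (P'.map (path X')).map I.restrict
    rw [e, ← Measure.map_map hm2 hm3, key n, Measure.map_map hm2 hm3]
  have hl2 : IsProjectiveLimit (P'.map (path X'))
      (fun I : Finset ℕ => (P'.map (path X')).map (I.restrict (π := fun _ => ℤ))) := fun I => rfl
  have : ∀ I : Finset ℕ, IsFiniteMeasure ((P'.map (path X')).map (I.restrict (π := fun _ => ℤ))) :=
    fun I => Measure.isFiniteMeasure_map _ _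
  exact IsProjectiveLimit.unique hl1 hl2

lemma measurableSet_tendsto : MeasurableSet {x : ℕ → ℤ | Tendsto x atTop atTop} := by
  have : {x : ℕ → ℤ | Tendsto x atTop atTop} = ⋂ b : ℤ, ⋃ N : ℕ, ⋂ n : ℕ, ⋂ (_ : N ≤ n),
      (fun x : ℕ → ℤ => x n) ⁻¹' (Set.Ici b) := by
    ext x
    simp only [Set.mem_iInter, Set.mem_iUnion, Set.mem_preimage, Set.mem_Ici]
    exact tendsto_atTop_atTop
  rw [this]
  exact MeasurableSet.iInter fun b => MeasurableSet.iUnion fun N => MeasurableSet.iInter fun n =>
    MeasurableSet.iInter fun _ => (measurable_pi_apply n) measurableSet_Ici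

/-- every excited random walk in this environment is right transient -/
theorem transient [IsProbabilityMeasure P] (h : IsERW p P X) (he : Env (pr p))
    (hS : ∀ n : ℕ, 4 ≤ n → 1 + 20 / (20 + Real.log n) ≤ SS (pr p) n) :
    ∀ᵐ ω ∂P, Tendsto (fun n => X n ω) atTop atTop := by
  have h1 := stk_transient he hS
  have h2 := map_eq h (stk_isERW p)
  have h3 : ∀ᵐ x ∂((stk p).map (path fun n ω => pos ω n)), Tendsto x atTop atTop := by
    rw [ae_map_iff (measurable_path (stk_isERW p)).aemeasurable measurableSet_tendsto]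
    exact h1
  rw [← h2, ae_map_iff (measurable_path h).aemeasurable measurableSet_tendsto] at h3
  exact h3

/-- the explicit environment -/
noncomputable def ck : Cookies := fun i => ⟨cookie i, by
  have := cookie_hp i
  constructor <;> linarith [this.1, this.2]⟩

lemma pr_ck : pr ck = cookie := rfl

theorem main : ∃ p : Cookies,
    (∃ ε : ℝ, 0 < ε ∧ ∀ i, 1 ≤ i → ε ≤ (p i : ℝ) ∧ (p i : ℝ) ≤ 1 - ε) ∧
    (∀ x, Integrable (fun b => (U b x : ℝ)) (trials p)) ∧
    (∀ x : ℕ, Integrable (fun b => ((U b x : ℝ) - x) ^ 2) (trials p)) ∧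
    Tendsto (fun x : ℕ => (∫ b, (U b x : ℝ) ∂trials p) / x) atTop (𝓝 1) ∧
    Tendsto (fun x : ℕ => 2 * (∫ b, ((U b x : ℝ) - x) ∂trials p) /
      ((∫ b, ((U b x : ℝ) - x) ^ 2 ∂trials p) / x)) atTop (𝓝 1) ∧
    (∃ (Ω : Type) (_ : MeasurableSpace Ω) (P : Measure Ω) (X : ℕ → Ω → ℤ),
      IsProbabilityMeasure P ∧ IsERW p P X) ∧
    ∀ (Ω : Type) (_ : MeasurableSpace Ω) (P : Measure Ω) (X : ℕ → Ω → ℤ),
      IsProbabilityMeasure P → IsERW p P X → ∀ᵐ ω ∂P, Tendsto (fun n => X n ω) atTop atTop := by
  have he : Env (pr ck) := env_cookie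
  refine ⟨ck, ⟨1 / 4, by norm_num, fun i _ => ?_⟩, integrable_U he.hp, integrable_U2 he.hp,
    (limits he).1, (limits he).2, ⟨_, _, stk ck, fun n ω => pos ω n, inferInstance, stk_isERW ck⟩,
    fun Ω _ P X hP h => transient h he cookie_lower⟩
  have := cookie_hp i
  constructor
  · exact this.1
  · have h2 : (ck i : ℝ) = cookie i := rfl
    rw [h2]; linarith [this.2]

end Pool.Agent.J6H44.ERW
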